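import Pool.Agent.D0H4.Tr.Core3
import Pool.Agent.D0H4.Tr.Col3

/-!
# Polynomials which are affine on a translate of a space
-/

set_option autoImplicit false

namespace Pool.Agent.D0H4.Lv

open Module Finset MvPolynomial
open Pool.Agent.D0H4.Rk (rank_two pivot chain pderiv_deg)
open Pool.Agent.D0H4.Tr (qT mem_ker_qT ct Col2 Col3 vanish2)

/-- a polynomial with constant derivatives on a flat is affine on it -/
theorem affine2 {C : Type*} [Field C] [CharZero C] {n : ℕ} (y : Fin n → C) {J : Type*} [Fintype J] (w : J → Fin n → C)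
    (P : MvPolynomial (Fin n) C) (c : J → C)
    (h : ∀ (j : J) (z : J → C), ∑ i, eval (fun i => y i + ∑ j, z j * w j i) (pderiv i P) * w j i = c j) (z : J → C) :
    eval (fun i => y i + ∑ j, z j * w j i) P = eval y P + ∑ j, z j * c j := by
  classical
  set u : Fin n → C := fun i => ∑ j, z j * w j i with hu
  set g : Fin n → Polynomial C := fun i => Polynomial.C (y i) + Polynomial.X * Polynomial.C (u i) with hg
  have hge : ∀ t i, Polynomial.eval t (g i) = y i + t * u i := by
    intro t i
    rw [hg]
    simp only [Polynomial.eval_add, Polynomial.eval_mul, Polynomial.eval_C, Polynomial.eval_X]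
  have hline : ∀ (t : C) (p : MvPolynomial (Fin n) C), Polynomial.eval t (aeval g p) =
      eval (fun i => y i + t * u i) p := by
    intro t p
    rw [Pool.Agent.D0H4.Rk.eval_line]
    simp only [hge]
    rfl
  have hder : Polynomial.derivative (aeval g P - Polynomial.C (∑ j, z j * c j) * Polynomial.X) = 0 := by
    have h1 := chain (S := C) (B := C) (R := Polynomial C) Polynomial.derivative' (by
      intro a
      change Polynomial.derivative (algebraMap C (Polynomial C) a) = 0
      rw [Polynomial.algebraMap_apply, Polynomial.derivative_C]) g P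
    change Polynomial.derivative (aeval g P) = ∑ i, aeval g (pderiv i P) * Polynomial.derivative (g i) at h1
    rw [Polynomial.derivative_sub, h1, Polynomial.derivative_C_mul, Polynomial.derivative_X, mul_one, sub_eq_zero]
    apply Polynomial.funext
    intro t
    rw [Polynomial.eval_finsetSum, Polynomial.eval_C]
    have h2 : ∀ i, Polynomial.eval t (aeval g (pderiv i P) * Polynomial.derivative (g i)) =
        ∑ j, z j * (eval (fun i => y i + t * u i) (pderiv i P) * w j i) := by
      intro i
      have h3 : Polynomial.derivative (g i) = Polynomial.C (u i) := by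
        rw [hg]
        simp
      rw [h3, Polynomial.eval_mul, Polynomial.eval_C, hline]
      rw [hu]
      simp only []
      rw [mul_sum]
      refine sum_congr rfl (fun j _ => ?_)
      ring
    simp only [h2]
    rw [sum_comm]
    refine sum_congr rfl (fun j _ => ?_)
    rw [← mul_sum]
    have h4 := h j (fun j' => t * z j')
    have h5 : (fun i => y i + ∑ j', t * z j' * w j' i) = fun i => y i + t * u i := by
      funext i
      rw [hu]
      simp only []
      rw [mul_sum]
      congr 1
      exact sum_congr rfl (fun j _ => by ring)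
    rw [h5] at h4
    rw [h4]
  have hconst := Polynomial.eq_C_of_natDegree_eq_zero (Polynomial.derivative_eq_zero.mp hder)
  have h1 : Polynomial.eval 1 (aeval g P - Polynomial.C (∑ j, z j * c j) * Polynomial.X) =
      Polynomial.eval 0 (aeval g P - Polynomial.C (∑ j, z j * c j) * Polynomial.X) := by
    rw [hconst, Polynomial.eval_C, Polynomial.eval_C]
  rw [Polynomial.eval_sub, Polynomial.eval_sub, hline, hline] at h1
  simp only [zero_mul, add_zero, one_mul, Polynomial.eval_mul, Polynomial.eval_C, Polynomial.eval_X, mul_one,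
    mul_zero, sub_zero] at h1
  rw [← h1]
  ring

section lin

variable {κ : Type*} [Field κ] {s n : ℕ}

theorem fr_le (W : Submodule κ (Fin n → κ)) : finrank κ W ≤ n := by
  have := Submodule.finrank_le W
  rwa [Module.finrank_fintype_fun_eq_card, Fintype.card_fin] at this

theorem fr_quot {W W' : Submodule κ (Fin n → κ)} (h : W' ≤ W) :
    finrank κ (W ⧸ W'.submoduleOf W) = finrank κ W - finrank κ W' := by
  rw [Submodule.finrank_quotient, (Submodule.submoduleOfEquivOfLe h).finrank_eq]

/-- a space of smallest dimension which contains almost all of `T` -/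
theorem exists_min3 (T : Submodule κ (Fin s → Fin n → κ)) (q : ℕ) : ∃ W : Submodule κ (Fin n → κ),
    ct T W ≤ n * q ∧ ∀ W' : Submodule κ (Fin n → κ), W' ≤ W →
      ct T W' ≤ ct T W + (finrank κ W - finrank κ W') * q → W' = W := by
  classical
  set Pr : ℕ → Prop := fun m => ∃ W : Submodule κ (Fin n → κ), finrank κ W = m ∧ ct T W ≤ (n - m) * q with hPr
  have hex : ∃ m, Pr m := by
    refine ⟨finrank κ (⊤ : Submodule κ (Fin n → κ)), ⊤, rfl, ?_⟩
    have : ct T (⊤ : Submodule κ (Fin n → κ)) = 0 := by
      rw [ct, LinearMap.range_eq_bot.mpr, finrank_bot]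
      ext1 x
      have : x ∈ LinearMap.ker (qT T ⊤) := mem_ker_qT.mpr (fun k => Submodule.mem_top)
      exact this
    rw [this]
    exact Nat.zero_le _
  obtain ⟨W, hWm, hWc⟩ := Nat.find_spec hex
  have hle : finrank κ W ≤ n := fr_le W
  refine ⟨W, hWc.trans (Nat.mul_le_mul_right _ (Nat.sub_le _ _)), fun W' hW' hcd => ?_⟩
  by_contra hne
  have hlt := Submodule.finrank_lt_finrank_of_lt (lt_of_le_of_ne hW' hne)
  rw [← hWm] at hWc
  have h1 : Pr (finrank κ W') := by
    refine ⟨W', rfl, ?_⟩
    have h3 : (n - finrank κ W') * q = (n - finrank κ W) * q + (finrank κ W - finrank κ W') * q := by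
      rw [← add_mul]
      congr 1
      omega
    omega
  have := Nat.find_min' hex h1
  omega

/-- the cost of a smaller space -/
theorem cut {T : Submodule κ (Fin s → Fin n → κ)} {W W' : Submodule κ (Fin n → κ)} (hW' : W' ≤ W) {K : Finset (Fin s)}
    {c : ℕ} (hK : K.card ≤ c) (h : ∀ x ∈ T, (∀ k, x k ∈ W) → (∀ k ∈ K, x k ∈ W') → ∀ k, x k ∈ W') :
    ct T W' ≤ ct T W + (finrank κ W - finrank κ W') * c := by
  classical
  let θ : LinearMap.ker (qT T W) →ₗ[κ] (K → W ⧸ W'.submoduleOf W) :=
    LinearMap.pi (fun k => (W'.submoduleOf W).mkQ ∘ₗ LinearMap.codRestrict W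
      (LinearMap.proj (k : Fin s) ∘ₗ T.subtype ∘ₗ (LinearMap.ker (qT T W)).subtype)
      (fun x => mem_ker_qT.mp x.2 (k : Fin s)))
  have h1 := rank_two (qT T W) θ (qT T W') (by
    intro x hx
    have hxW := mem_ker_qT.mp x.2
    have hx1 : ∀ k ∈ K, ((x : T) : Fin s → Fin n → κ) k ∈ W' := by
      intro k hk
      have h2 := (Submodule.Quotient.mk_eq_zero (W'.submoduleOf W)).mp (congrFun hx ⟨k, hk⟩)
      exact h2
    exact LinearMap.mem_ker.mp (mem_ker_qT.mpr (h _ (x : T).2 hxW hx1)))
  have h2 : finrank κ (K → W ⧸ W'.submoduleOf W) ≤ (finrank κ W - finrank κ W') * c := by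
    haveI : Module.Free κ (W ⧸ W'.submoduleOf W) := Module.Free.of_divisionRing κ _
    rw [Module.finrank_pi_fintype κ, sum_const, card_univ, Fintype.card_coe, smul_eq_mul, fr_quot hW', mul_comm]
    exact Nat.mul_le_mul_left _ hK
  change finrank κ (LinearMap.range (qT T W')) ≤ finrank κ (LinearMap.range (qT T W)) + _
  omega

/-- the dimension of the space -/
theorem dim_W {T : Submodule κ (Fin s → Fin n → κ)} {W : Submodule κ (Fin n → κ)} {e q : ℕ} (hW : ct T W ≤ q)
    (hS : s * e + q < finrank κ T) : e < finrank κ W := by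
  let θ : LinearMap.ker (qT T W) →ₗ[κ] (Fin s → W) :=
    { toFun := fun x => fun k => ⟨((x : T) : Fin s → Fin n → κ) k, mem_ker_qT.mp x.2 k⟩
      map_add' := fun x x' => rfl
      map_smul' := fun a x => rfl }
  have h1 := rank_two (qT T W) θ T.subtype (by
    intro x hx
    funext k
    exact congrArg (fun z => (z k : Fin n → κ)) hx)
  have h2 : finrank κ (Fin s → W) = s * finrank κ W := by
    rw [Module.finrank_pi_fintype, sum_const, card_univ, Fintype.card_fin, smul_eq_mul]
  rw [Submodule.range_subtype, h2] at h1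
  have h4 : finrank κ (LinearMap.range (qT T W)) = ct T W := rfl
  by_contra hcon
  push Not at hcon
  have h5 : s * finrank κ W ≤ s * e := Nat.mul_le_mul_left _ hcon
  omega

/-- a basis in reduced form -/
theorem exists_w {W : Submodule κ (Fin n → κ)} {e : ℕ} (h : e < finrank κ W) :
    ∃ w : Fin (e + 1) → Fin n → κ, LinearIndependent κ w ∧ (∀ a, w a ∈ W) := by
  classical
  obtain ⟨J, w, hwW, hwJ, hJc, hJ0⟩ := pivot W
  obtain ⟨ι⟩ : Nonempty (Fin (e + 1) ↪ J) :=
    Function.Embedding.nonempty_of_card_le (by rw [Fintype.card_fin, Fintype.card_coe]; omega)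
  have hwli : LinearIndependent κ w := by
    rw [Fintype.linearIndependent_iff]
    intro g hg j
    have h1 := congrFun hg j
    rw [Finset.sum_apply] at h1
    simp only [Pi.smul_apply, hwJ, smul_eq_mul, mul_ite, mul_one, mul_zero] at h1
    simpa using h1
  exact ⟨fun a => w (ι a), hwli.comp ι ι.injective, fun a => hwW _⟩

end lin

/-- all the polynomials of the class `Q` with a value in `L` at `y` are affine on `y + U_C`, with slopes in `κ`, for a
subspace `U` of dimension `f` of `κ₀ ^ n`, and constant if the value is zero -/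
def Good (κ₀ κ : Type*) {C : Type*} [Field κ₀] [Field κ] [Field C] [Algebra κ₀ C] [Algebra κ C]
    (L : Submodule κ C) {n : ℕ} (Q : Set (MvPolynomial (Fin n) C)) (f : ℕ) (y : Fin n → C) : Prop :=
  ∃ w : Fin f → Fin n → κ₀, LinearIndependent κ₀ w ∧ ∀ P ∈ Q, eval y P ∈ L →
    ∃ c : Fin f → κ, (eval y P = 0 → c = 0) ∧ ∀ z : Fin f → C,
      eval (fun i => y i + ∑ a, z a * algebraMap κ₀ C (w a i)) P = eval y P + ∑ a, z a * algebraMap κ C (c a)

end Pool.Agent.D0H4.Lv
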