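import Pool.Agent.D0H4.Lv.Base
import Pool.Agent.D0H4.Tr.Ultra3

/-!
# Fixed polynomials which are affine on a translate: pairs of a space and a space of derivations
-/

set_option autoImplicit false

namespace Pool.Agent.D0H4.Lv

open Module Finset MvPolynomial
open Pool.Agent.D0H4.Rk (pivot)
open Pool.Agent.D0H4.Tr (Col2 Col3 vanish2 chain2)

section

variable {κ₀ κ C : Type*} [Field κ₀] [Field κ] [Field C] [CharZero C] [Algebra κ₀ C] [Algebra κ C] {S s n : ℕ}
  (Dr : Fin S → Derivation ℤ C C) (d₀ : Fin S → Derivation ℤ κ₀ κ₀)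

/-- a combination of the derivations -/
noncomputable def DD (a : Fin S → κ₀) : Derivation ℤ C C := ∑ q, algebraMap κ₀ C (a q) • Dr q

theorem DD_apply (a : Fin S → κ₀) (z : C) : DD Dr a z = ∑ q, algebraMap κ₀ C (a q) * Dr q z := by
  change (Derivation.coeFnAddMonoidHom (∑ q, algebraMap κ₀ C (a q) • Dr q)) z = _
  rw [map_sum, Finset.sum_apply]
  rfl

/-- the action on the vectors -/
noncomputable def dvl (w : Fin n → κ₀) : (Fin S → κ₀) →ₗ[κ₀] (Fin n → κ₀) where
  toFun := fun a i => ∑ q, a q * d₀ q (w i)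
  map_add' := by
    intro a a'
    funext i
    simp only [Pi.add_apply, add_mul, sum_add_distrib]
  map_smul' := by
    intro r a
    funext i
    simp only [Pi.smul_apply, smul_eq_mul, RingHom.id_apply, mul_sum]
    exact sum_congr rfl (fun q _ => by ring)

theorem dvl_apply (w : Fin n → κ₀) (a : Fin S → κ₀) (i : Fin n) : dvl d₀ w a i = ∑ q, a q * d₀ q (w i) := rfl

theorem dvl_add (w w' : Fin n → κ₀) (a : Fin S → κ₀) : dvl d₀ (w + w') a = dvl d₀ w a + dvl d₀ w' a := by
  funext i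
  simp only [dvl_apply, Pi.add_apply, map_add, mul_add, sum_add_distrib]

theorem dvl_smul (r : κ₀) (w : Fin n → κ₀) (a : Fin S → κ₀) :
    dvl d₀ (r • w) a = (∑ q, a q * d₀ q r) • w + r • dvl d₀ w a := by
  funext i
  simp only [dvl_apply, Pi.add_apply, Pi.smul_apply, smul_eq_mul, sum_mul, mul_sum, ← sum_add_distrib]
  refine sum_congr rfl (fun q _ => ?_)
  rw [(d₀ q).leibniz, smul_eq_mul, smul_eq_mul]
  ring

variable (b : Fin s → Fin n → κ₀)

/-- the derivations of `T` map the `b_k` to `W` and preserve `W` -/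
def IsPair (W : Submodule κ₀ (Fin n → κ₀)) (T : Submodule κ₀ (Fin S → κ₀)) : Prop :=
  (∀ a ∈ T, ∀ k, dvl d₀ (b k) a ∈ W) ∧ ∀ a ∈ T, ∀ w ∈ W, dvl d₀ w a ∈ W

/-- **Pairs with a space of smallest dimension.** -/
theorem exists_pair (c τ : ℕ) (T₀ : Submodule κ₀ (Fin S → κ₀)) (hT₀ : S ≤ finrank κ₀ T₀ + τ) :
    ∃ (W : Submodule κ₀ (Fin n → κ₀)) (T : Submodule κ₀ (Fin S → κ₀)), T ≤ T₀ ∧ IsPair d₀ b W T ∧
      S ≤ finrank κ₀ T + n * (c + n) + τ ∧ ∀ W' : Submodule κ₀ (Fin n → κ₀), W' ≤ W → ∀ K : Finset (Fin s),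
        K.card ≤ c → (∀ a ∈ T, (∀ k ∈ K, dvl d₀ (b k) a ∈ W') → ∀ k, dvl d₀ (b k) a ∈ W') → W' = W := by
  classical
  set Pr : ℕ → Prop := fun m => ∃ (W : Submodule κ₀ (Fin n → κ₀)) (T : Submodule κ₀ (Fin S → κ₀)),
    finrank κ₀ W = m ∧ T ≤ T₀ ∧ IsPair d₀ b W T ∧ S ≤ finrank κ₀ T + (n - m) * (c + n) + τ with hPr
  have hex : ∃ m, Pr m :=
    ⟨_, ⊤, T₀, rfl, le_rfl, ⟨fun _ _ _ => Submodule.mem_top, fun _ _ _ _ => Submodule.mem_top⟩, by omega⟩
  obtain ⟨W, T, hWm, hTT, hWT, hS⟩ := Nat.find_spec hex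
  have hle : finrank κ₀ W ≤ n := fr_le W
  refine ⟨W, T, hTT, hWT, ?_, fun W' hW' K hKc hKW => ?_⟩
  · have : (n - Nat.find hex) * (c + n) ≤ n * (c + n) := Nat.mul_le_mul_right _ (Nat.sub_le _ _)
    omega
  by_contra hne
  have hlt := Submodule.finrank_lt_finrank_of_lt (lt_of_le_of_ne hW' hne)
  rw [← hWm] at hS
  -- the smaller space of derivations
  let u := Module.finBasis κ₀ W'
  have huW : ∀ j, (u j : Fin n → κ₀) ∈ W := fun j => hW' (u j).2
  let θ : T →ₗ[κ₀] (K ⊕ Fin (finrank κ₀ W') → W ⧸ W'.submoduleOf W) := LinearMap.pi (Sum.elim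
    (fun k => (W'.submoduleOf W).mkQ ∘ₗ LinearMap.codRestrict W (dvl d₀ (b (k : Fin s)) ∘ₗ T.subtype)
      (fun a => hWT.1 _ a.2 _))
    (fun j => (W'.submoduleOf W).mkQ ∘ₗ LinearMap.codRestrict W (dvl d₀ (u j : Fin n → κ₀) ∘ₗ T.subtype)
      (fun a => hWT.2 _ a.2 _ (huW j))))
  have hθ : ∀ a : T, a ∈ LinearMap.ker θ → (∀ k ∈ K, dvl d₀ (b k) (a : Fin S → κ₀) ∈ W') ∧
      ∀ j, dvl d₀ (u j : Fin n → κ₀) (a : Fin S → κ₀) ∈ W' := by
    intro a ha
    rw [LinearMap.mem_ker] at ha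
    refine ⟨fun k hk => ?_, fun j => ?_⟩
    · exact (Submodule.Quotient.mk_eq_zero (W'.submoduleOf W)).mp (congrFun ha (Sum.inl ⟨k, hk⟩))
    · exact (Submodule.Quotient.mk_eq_zero (W'.submoduleOf W)).mp (congrFun ha (Sum.inr j))
  set T' := (LinearMap.ker θ).map T.subtype with hT'
  have hfr : finrank κ₀ T' = finrank κ₀ (LinearMap.ker θ) :=
    (Submodule.equivMapOfInjective T.subtype (Submodule.subtype_injective T) (LinearMap.ker θ)).finrank_eq.symm
  have h1 := LinearMap.finrank_range_add_finrank_ker θ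
  have h2 : finrank κ₀ (LinearMap.range θ) ≤ (finrank κ₀ W - finrank κ₀ W') * (c + n) := by
    refine (Submodule.finrank_le _).trans ?_
    have hfree : Module.Free κ₀ (W ⧸ W'.submoduleOf W) := Module.Free.of_divisionRing κ₀ _
    rw [Module.finrank_pi_fintype κ₀, sum_const, card_univ, Fintype.card_sum, Fintype.card_coe, Fintype.card_fin,
      smul_eq_mul, fr_quot hW', mul_comm]
    exact Nat.mul_le_mul_left _ (Nat.add_le_add hKc (fr_le W'))
  have h3 : Pr (finrank κ₀ W') := by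
    refine ⟨W', T', rfl, ?_, ⟨?_, ?_⟩, ?_⟩
    · rintro _ ⟨a, -, rfl⟩
      exact hTT a.2
    · rintro _ ⟨a, ha, rfl⟩
      exact hKW _ a.2 (hθ a ha).1
    · rintro _ ⟨a, ha, rfl⟩ w hw
      have h4 := (hθ a ha).2
      have h5 : w ∈ Submodule.span κ₀ (Set.range fun j => (u j : Fin n → κ₀)) := by
        have h6 := congrArg (fun z : W' => (z : Fin n → κ₀)) (u.sum_repr ⟨w, hw⟩)
        simp only [Submodule.coe_sum, Submodule.coe_smul] at h6
        rw [← h6]
        exact Submodule.sum_mem _ fun j _ => Submodule.smul_mem _ _ (Submodule.subset_span ⟨j, rfl⟩)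
      have h7 : Submodule.span κ₀ (Set.range fun j => (u j : Fin n → κ₀)) ≤ W' :=
        Submodule.span_le.mpr (by rintro _ ⟨j, rfl⟩; exact (u j).2)
      refine Submodule.span_induction (p := fun w _ => dvl d₀ w (a : Fin S → κ₀) ∈ W') ?_ ?_ ?_ ?_ h5
      · rintro _ ⟨j, rfl⟩
        exact h4 j
      · have : dvl d₀ (0 : Fin n → κ₀) (a : Fin S → κ₀) = 0 := by
          funext i
          simp only [dvl_apply, Pi.zero_apply, map_zero, mul_zero, sum_const_zero]
        rw [this]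
        exact W'.zero_mem
      · intro x x' _ _ hx hx'
        rw [dvl_add]
        exact W'.add_mem hx hx'
      · intro r x hx1 hx
        rw [dvl_smul]
        exact W'.add_mem (W'.smul_mem _ (h7 hx1)) (W'.smul_mem _ hx)
    · have h4 : (n - finrank κ₀ W') * (c + n) = (n - finrank κ₀ W) * (c + n) +
          (finrank κ₀ W - finrank κ₀ W') * (c + n) := by
        rw [← add_mul]
        congr 1
        omega
      omega
  have := Nat.find_min' hex h3
  omega

end

/-- **The main step for fixed polynomials.** -/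
theorem coreA {κ₀ κ C : Type*} [Field κ₀] [Field κ] [Field C] [CharZero C] [Algebra κ₀ C] [Algebra κ C]
    (hK : ∀ x : κ₀, ∃ x' : κ, algebraMap κ C x' = algebraMap κ₀ C x) {S s n c τ : ℕ}
    (Dr : Fin S → Derivation ℤ C C) (d₀ : Fin S → Derivation ℤ κ₀ κ₀)
    (hD1 : ∀ q (z : κ₀), Dr q (algebraMap κ₀ C z) = algebraMap κ₀ C (d₀ q z))
    (hD2 : ∀ q (z : κ), ∃ z' : κ, Dr q (algebraMap κ C z) = algebraMap κ C z') (l : Fin s → C)
    (hli : ∀ (c₀ : κ) (c : Fin s → κ), ∑ k, l k * algebraMap κ C (c k) = algebraMap κ C c₀ → c₀ = 0)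
    (L : Submodule κ C) (hL1 : ∀ z : κ, algebraMap κ C z ∈ L) (hcol2 : Col2 κ₀ κ C s n 0 c l)
    (hcol3 : Col3 κ₀ κ C L s n 0 c l) (b : Fin s → Fin n → κ₀) (y : Fin n → C)
    (hy : ∀ q i, Dr q (y i) = ∑ k, l k * algebraMap κ₀ C (d₀ q (b k i)))
    (hind : LinearIndependent κ₀ (fun (q : Fin S) (p : Fin s × Fin n) => d₀ q (b p.1 p.2)))
    (T₀ : Submodule κ₀ (Fin S → κ₀)) (hT₀ : S ≤ finrank κ₀ T₀ + τ) (Q : Set (MvPolynomial (Fin n) C))
    (hQ : ∀ P ∈ Q, (∀ a ∈ T₀, ∀ γ, DD Dr a (P.coeff γ) = 0) ∧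
      (eval y P ∈ L → ∀ a ∈ T₀, DD Dr a (eval y P) ∈ L))
    {e : ℕ} (hS : s * e + n * (c + n) + τ < S) : Good κ₀ κ L Q (e + 1) y := by
  classical
  obtain ⟨W, T, hTT, hWT, hdim, hmin⟩ := exists_pair d₀ b c τ T₀ hT₀
  -- the dimension
  have hdW : e < finrank κ₀ W := by
    let θ : T →ₗ[κ₀] (Fin s → W) := LinearMap.pi (fun k =>
      LinearMap.codRestrict W (dvl d₀ (b k) ∘ₗ T.subtype) (fun a => hWT.1 _ a.2 _))
    have hθ : Function.Injective θ := by
      rw [← LinearMap.ker_eq_bot, LinearMap.ker_eq_bot']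
      intro a ha
      have h1 : ∀ k i, ∑ q, (a : Fin S → κ₀) q * d₀ q (b k i) = 0 := by
        intro k i
        have h2 := congrArg (fun z : W => (z : Fin n → κ₀) i) (congrFun ha k)
        exact h2
      refine Subtype.ext (funext fun q => ?_)
      refine Fintype.linearIndependent_iff.mp hind (a : Fin S → κ₀) ?_ q
      funext p
      rw [Finset.sum_apply]
      exact h1 p.1 p.2
    have h1 := LinearMap.finrank_le_finrank_of_injective hθ
    rw [Module.finrank_pi_fintype, sum_const, card_univ, Fintype.card_fin, smul_eq_mul] at h1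
    by_contra hcon
    push Not at hcon
    have h5 : s * finrank κ₀ W ≤ s * e := Nat.mul_le_mul_left _ hcon
    omega
  -- the chain rule
  set QT : Set (MvPolynomial (Fin n) C) := {P | ∀ a ∈ T, ∀ γ, DD Dr a (P.coeff γ) = 0} with hQT
  have hx : ∀ (a : Fin S → κ₀) (i : Fin n), DD Dr a (y i) = ∑ k, l k * algebraMap κ₀ C (dvl d₀ (b k) a i) := by
    intro a i
    rw [DD_apply]
    simp only [hy, dvl_apply, map_sum, map_mul, mul_sum]
    rw [sum_comm]
    exact sum_congr rfl (fun k _ => sum_congr rfl (fun q _ => by ring))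
  have hchain : ∀ P ∈ QT, ∀ a ∈ T, DD Dr a (eval y P) =
      ∑ i, eval y (pderiv i P) * ∑ k, l k * algebraMap κ₀ C (dvl d₀ (b k) a i) := by
    intro P hP a ha
    rw [chain2 (DD Dr a) y P.support P (subset_refl _)]
    simp only [hP a ha, mul_zero, sum_const_zero, zero_add, hx]
  -- zeros
  have hstep0 : ∀ P ∈ QT, eval y P = 0 → ∀ w ∈ W, ∑ i, eval y (pderiv i P) * algebraMap κ₀ C (w i) = 0 := by
    intro P hP hP0 w hw
    set G : Fin n → C := fun i => eval y (pderiv i P) with hG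
    obtain ⟨K, hKc, hK2⟩ := hcol2 G Fin.elim0
    set W' : Submodule κ₀ (Fin n → κ₀) :=
      { carrier := {w | w ∈ W ∧ ∑ i, G i * algebraMap κ₀ C (w i) = 0}
        add_mem' := by
          rintro x x' ⟨h1, h2⟩ ⟨h3, h4⟩
          refine ⟨W.add_mem h1 h3, ?_⟩
          simp only [Pi.add_apply, map_add, mul_add, sum_add_distrib, h2, h4, add_zero]
        zero_mem' := ⟨W.zero_mem, by simp⟩
        smul_mem' := by
          rintro a x ⟨h1, h2⟩
          refine ⟨W.smul_mem _ h1, ?_⟩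
          have h3 : ∑ i, G i * algebraMap κ₀ C ((a • x) i) = algebraMap κ₀ C a * ∑ i, G i * algebraMap κ₀ C (x i) := by
            rw [mul_sum]
            refine sum_congr rfl (fun i _ => ?_)
            rw [Pi.smul_apply, smul_eq_mul, map_mul]
            ring
          rw [h3, h2, mul_zero] } with hW'
    have hW'm : ∀ x, x ∈ W' ↔ x ∈ W ∧ ∑ i, G i * algebraMap κ₀ C (x i) = 0 := fun x => Iff.rfl
    have h3 : W' = W := by
      refine hmin W' (fun x hx => ((hW'm x).mp hx).1) K hKc (fun a ha hk k => ?_)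
      have h4 := hchain P hP a ha
      rw [hP0, map_zero] at h4
      have h2 := hK2 (fun k => dvl d₀ (b k) a) ⟨Fin.elim0, by rw [← h4]; simp⟩ (fun k hk' => ((hW'm _).mp (hk k hk')).2)
      exact (hW'm _).mpr ⟨hWT.1 a ha k, h2 k⟩
    have h4 : w ∈ W' := by rw [h3]; exact hw
    exact ((hW'm w).mp h4).2
  -- values
  have hstep1 : ∀ P ∈ QT, (∀ a ∈ T, DD Dr a (eval y P) ∈ L) → ∀ w ∈ W,
      ∃ z : κ, ∑ i, eval y (pderiv i P) * algebraMap κ₀ C (w i) = algebraMap κ C z := by
    intro P hP hPL w hw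
    set G : Fin n → C := fun i => eval y (pderiv i P) with hG
    obtain ⟨K, hKc, hK2⟩ := hcol3 G Fin.elim0
    set W' : Submodule κ₀ (Fin n → κ₀) :=
      { carrier := {w | w ∈ W ∧ ∃ z : κ, ∑ i, G i * algebraMap κ₀ C (w i) = algebraMap κ C z}
        add_mem' := by
          rintro x x' ⟨h1, b, h2⟩ ⟨h3, b', h4⟩
          refine ⟨W.add_mem h1 h3, b + b', ?_⟩
          simp only [Pi.add_apply, map_add, mul_add, sum_add_distrib, h2, h4]
        zero_mem' := ⟨W.zero_mem, 0, by simp⟩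
        smul_mem' := by
          rintro a x ⟨h1, b, h2⟩
          obtain ⟨a', ha'⟩ := hK a
          refine ⟨W.smul_mem _ h1, a' * b, ?_⟩
          have h3 : ∑ i, G i * algebraMap κ₀ C ((a • x) i) = algebraMap κ₀ C a * ∑ i, G i * algebraMap κ₀ C (x i) := by
            rw [mul_sum]
            refine sum_congr rfl (fun i _ => ?_)
            rw [Pi.smul_apply, smul_eq_mul, map_mul]
            ring
          rw [h3, h2, map_mul, ha'] } with hW'
    have hW'm : ∀ x, x ∈ W' ↔ x ∈ W ∧ ∃ z : κ, ∑ i, G i * algebraMap κ₀ C (x i) = algebraMap κ C z :=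
      fun x => Iff.rfl
    have h3 : W' = W := by
      refine hmin W' (fun x hx => ((hW'm x).mp hx).1) K hKc (fun a ha hk k => ?_)
      have h4 := hchain P hP a ha
      have h2 := hK2 (fun k => dvl d₀ (b k) a) ⟨Fin.elim0, _, hPL a ha, by rw [h4]; simp; rfl⟩
        (fun k hk' => ((hW'm _).mp (hk k hk')).2)
      exact (hW'm _).mpr ⟨hWT.1 a ha k, h2 k⟩
    have h4 : w ∈ W' := by rw [h3]; exact hw
    exact ((hW'm w).mp h4).2
  -- a basis which is killed
  obtain ⟨J, w, hwW, hwJ, hJc, hJ0⟩ := pivot W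
  obtain ⟨ι⟩ : Nonempty (Fin (e + 1) ↪ J) :=
    Function.Embedding.nonempty_of_card_le (by rw [Fintype.card_fin, Fintype.card_coe]; omega)
  have hwli : LinearIndependent κ₀ w := by
    rw [Fintype.linearIndependent_iff]
    intro g hg j
    have h1 := congrFun hg j
    rw [Finset.sum_apply] at h1
    simp only [Pi.smul_apply, hwJ, smul_eq_mul, mul_ite, mul_one, mul_zero] at h1
    simpa using h1
  have hkill : ∀ a ∈ T, ∀ j, dvl d₀ (w j) a = 0 := by
    intro a ha j
    refine hJ0 _ (hWT.2 a ha _ (hwW j)) (fun j' => ?_)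
    rw [dvl_apply]
    refine sum_eq_zero (fun q _ => ?_)
    rw [hwJ]
    split_ifs
    · rw [(d₀ q).map_one_eq_zero, mul_zero]
    · rw [map_zero, mul_zero]
  have hkill' : ∀ a ∈ T, ∀ j i, DD Dr a (algebraMap κ₀ C (w j i)) = 0 := by
    intro a ha j i
    rw [DD_apply]
    simp only [hD1, ← map_mul, ← map_sum]
    have h1 := congrFun (hkill a ha j) i
    rw [dvl_apply] at h1
    rw [h1]
    exact map_zero _
  have hcl : ∀ P ∈ QT, ∀ j, (∑ i, MvPolynomial.C (algebraMap κ₀ C (w j i)) * pderiv i P) ∈ QT := by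
    intro P hP j a ha γ
    rw [coeff_sum, map_sum]
    refine sum_eq_zero (fun i _ => ?_)
    rw [coeff_C_mul, coeff_pderiv]
    have h1 : DD Dr a ((γ i : C) + 1) = 0 := by
      rw [map_add, (DD Dr a).map_one_eq_zero, add_zero]
      exact (DD Dr a).map_natCast _
    rw [(DD Dr a).leibniz, (DD Dr a).leibniz, hkill' a ha, h1, hP a ha]
    simp
  have hvan : ∀ P ∈ QT, eval y P = 0 → ∀ z : J → C,
      eval (fun i => y i + ∑ j, z j * algebraMap κ₀ C (w j i)) P = 0 := fun P hP hP0 z =>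
    vanish2 y (fun j i => algebraMap κ₀ C (w j i)) QT (fun f hf j => hcl f hf j)
      (fun f hf hf0 j => hstep0 f hf hf0 _ (hwW j)) _ P hP le_rfl hP0 z
  have hder : ∀ (v : Fin n → C) (P : MvPolynomial (Fin n) C) (j : J),
      eval v (∑ i, MvPolynomial.C (algebraMap κ₀ C (w j i)) * pderiv i P) =
        ∑ i, eval v (pderiv i P) * algebraMap κ₀ C (w j i) := by
    intro v P j
    rw [map_sum]
    refine sum_congr rfl (fun i _ => ?_)
    rw [map_mul, eval_C, mul_comm]
  refine ⟨fun a => w (ι a), hwli.comp ι ι.injective, fun P hPQ hPL => ?_⟩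
  have hP : P ∈ QT := fun a ha γ => (hQ P hPQ).1 a (hTT ha) γ
  choose v hv using fun j => hstep1 P hP (fun a ha => (hQ P hPQ).2 hPL a (hTT ha)) _ (hwW j)
  -- the slopes are killed
  have hvk : ∀ a ∈ T, ∀ j, DD Dr a (algebraMap κ C (v j)) = 0 := by
    intro a ha j
    have h1 : ∀ (a : Fin S → κ₀) (z : κ), ∃ z' : κ, DD Dr a (algebraMap κ C z) = algebraMap κ C z' := by
      intro a z
      choose z' hz' using fun q => hD2 q z
      choose a' ha' using fun q => hK (a q)
      refine ⟨∑ q, a' q * z' q, ?_⟩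
      rw [DD_apply, map_sum]
      exact sum_congr rfl (fun q _ => by rw [map_mul, ha', hz'])
    have h2 : eval y (∑ i, MvPolynomial.C (algebraMap κ₀ C (w j i)) * pderiv i P) = algebraMap κ C (v j) := by
      rw [hder, hv j]
    have h3 := hcl P hP j
    have h4 := hstep1 _ h3 (fun a ha => by
      rw [h2]
      obtain ⟨z', hz'⟩ := h1 a (v j)
      rw [hz']
      exact hL1 z')
    choose v' hv' using fun k => h4 _ (hWT.1 a ha k)
    have h5 := hchain _ h3 a ha
    rw [h2] at h5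
    obtain ⟨z', hz'⟩ := h1 a (v j)
    rw [hz'] at h5 ⊢
    have h6 : ∑ k, l k * algebraMap κ C (v' k) = algebraMap κ C z' := by
      rw [h5]
      simp only [← hv', mul_sum]
      rw [sum_comm]
      exact sum_congr rfl (fun i _ => sum_congr rfl (fun k _ => by ring))
    rw [hli z' v' h6, map_zero]
  have hgood : ∀ j : J, ∀ z : J → C,
      ∑ i, eval (fun i => y i + ∑ j, z j * algebraMap κ₀ C (w j i)) (pderiv i P) * algebraMap κ₀ C (w j i) =
        algebraMap κ C (v j) := by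
    intro j z
    have h3 : (∑ i, MvPolynomial.C (algebraMap κ₀ C (w j i)) * pderiv i P) - MvPolynomial.C (algebraMap κ C (v j)) ∈
        QT := by
      intro a ha γ
      rw [coeff_sub, map_sub, hcl P hP j a ha γ, coeff_C, zero_sub, neg_eq_zero]
      split_ifs
      · exact hvk a ha j
      · exact map_zero _
    have h4 := hvan _ h3 (by rw [map_sub, eval_C, hder, hv j, sub_self]) z
    rw [map_sub, eval_C, hder, sub_eq_zero] at h4
    exact h4
  refine ⟨fun a => v (ι a), fun hP0 => ?_, fun z => ?_⟩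
  · funext a
    have h2 := hstep0 P hP hP0 _ (hwW (ι a))
    rw [hv] at h2
    exact (algebraMap κ C).injective (by rw [h2, Pi.zero_apply, map_zero])
  · refine affine2 y (fun a i => algebraMap κ₀ C (w (ι a) i)) P (fun a => algebraMap κ C (v (ι a))) (fun a z => ?_) z
    have h5 := hgood (ι a) (fun j => ∑ a, if ι a = j then z a else 0)
    have h6 : (fun i => y i + ∑ j, (∑ a, if ι a = j then z a else 0) * algebraMap κ₀ C (w j i)) =
        fun i => y i + ∑ a, z a * algebraMap κ₀ C (w (ι a) i) := by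
      funext i
      congr 1
      simp only [sum_mul, ite_mul, zero_mul]
      rw [sum_comm]
      simp only [sum_ite_eq, mem_univ, if_true]
    rw [h6] at h5
    exact h5

end Pool.Agent.D0H4.Lv
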