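import Pool.Agent.D0H4.Lv.Base

/-!
# All polynomials with coefficients in a finite dimensional space are affine on a translate
-/

set_option autoImplicit false

namespace Pool.Agent.D0H4.Lv

open Module Finset MvPolynomial
open Pool.Agent.D0H4.Tr (qT mem_ker_qT ct Col2 Col3 vanish2 Cl)
open Pool.Agent.R350 (box mem_box support_box coeff_sum_mon support_sum_mon eq_sum_mon)

/-- an enumeration of the generators -/
theorem enum {κ C : Type*} [Field κ] [Field C] [Algebra κ C] {m n D : ℕ} (ω : Fin m → C) (y : Fin n → C) :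
    ∃ ω' : Fin (m * (D + 1) ^ n) → C, ∀ a : (Fin n →₀ ℕ) → Fin m → κ, ∃ a' : Fin (m * (D + 1) ^ n) → κ,
      ∑ γ ∈ box n D, (∏ i, y i ^ γ i) * ∑ t, algebraMap κ C (a γ t) * ω t = ∑ u, algebraMap κ C (a' u) * ω' u := by
  classical
  have hbox : (box n D).card ≤ (D + 1) ^ n := by
    unfold Pool.Agent.R350.box
    refine card_image_le.trans ?_
    rw [card_univ, Fintype.card_fun, Fintype.card_fin, Fintype.card_fin]
  obtain ⟨ι⟩ : Nonempty ((Fin m × (box n D)) ↪ Fin (m * (D + 1) ^ n)) :=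
    Function.Embedding.nonempty_of_card_le (by
      rw [Fintype.card_prod, Fintype.card_fin, Fintype.card_coe, Fintype.card_fin]
      exact Nat.mul_le_mul_left _ hbox)
  refine ⟨fun u => ∑ v : Fin m × (box n D), if ι v = u then (∏ i, y i ^ (v.2 : Fin n →₀ ℕ) i) * ω v.1 else 0,
    fun a => ⟨fun u => ∑ v : Fin m × (box n D), if ι v = u then a v.2 v.1 else 0, ?_⟩⟩
  have h1 : ∀ u, algebraMap κ C (∑ v : Fin m × (box n D), if ι v = u then a v.2 v.1 else 0) *
      (∑ v : Fin m × (box n D), if ι v = u then (∏ i, y i ^ (v.2 : Fin n →₀ ℕ) i) * ω v.1 else 0) =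
      ∑ v : Fin m × (box n D), if ι v = u then algebraMap κ C (a v.2 v.1) *
        ((∏ i, y i ^ (v.2 : Fin n →₀ ℕ) i) * ω v.1) else 0 := by
    intro u
    by_cases hu : ∃ v, ι v = u
    · obtain ⟨v, rfl⟩ := hu
      simp only [ι.injective.eq_iff, sum_ite_eq', mem_univ, if_true]
    · have h2 : ∀ v, ¬ ι v = u := fun v hv => hu ⟨v, hv⟩
      simp only [h2, if_false, sum_const_zero, mul_zero]
  simp only [h1]
  rw [sum_comm]
  simp only [sum_ite_eq, mem_univ, if_true]
  rw [Fintype.sum_prod_type, sum_comm, ← sum_coe_sort (box n D)]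
  refine sum_congr rfl (fun γ _ => ?_)
  rw [mul_sum]
  exact sum_congr rfl (fun t _ => by ring)

/-- the class is closed under derivatives -/
theorem Cl_pderiv {κ₀ κ C : Type*} [Field κ₀] [Field κ] [Field C] [Algebra κ₀ C] [Algebra κ C]
    (hK : ∀ x : κ₀, ∃ x' : κ, algebraMap κ C x' = algebraMap κ₀ C x) {n m D : ℕ} {ω : Fin m → C}
    {P : MvPolynomial (Fin n) C} (hP : P ∈ Cl κ D (n := n) ω) (w : Fin n → κ₀) :
    (∑ i, MvPolynomial.C (algebraMap κ₀ C (w i)) * pderiv i P) ∈ Cl κ D (n := n) ω := by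
  classical
  obtain ⟨hP1, hP2⟩ := hP
  choose w' hw' using fun i => hK (w i)
  choose a ha using hP2
  refine ⟨fun i => ?_, fun γ => ⟨fun t => ∑ i, w' i * (a (γ + Finsupp.single i 1) t * ((γ i + 1 : ℕ) : κ)), ?_⟩⟩
  · refine (degreeOf_sum_le _ _ _).trans (Finset.sup_le fun j _ => ?_)
    refine (degreeOf_C_mul_le _ _ _).trans ?_
    rw [degreeOf_le_iff]
    intro γ hγ
    rw [MvPolynomial.mem_support_iff, coeff_pderiv] at hγ
    have h1 : γ + Finsupp.single j 1 ∈ P.support := by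
      rw [MvPolynomial.mem_support_iff]
      exact left_ne_zero_of_mul hγ
    have h2 := degreeOf_le_iff.mp (hP1 i) _ h1
    rw [Finsupp.add_apply] at h2
    omega
  · rw [coeff_sum]
    simp only [coeff_C_mul, coeff_pderiv, ha, map_sum, map_mul, hw', map_natCast, sum_mul, mul_sum]
    rw [sum_comm]
    refine sum_congr rfl (fun t _ => sum_congr rfl (fun i _ => ?_))
    push_cast
    ring

/-- the class contains the constants -/
theorem Cl_sub_C {κ C : Type*} [Field κ] [Field C] [Algebra κ C] {n m D : ℕ} {ω : Fin m → C}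
    (h1 : ∃ a : Fin m → κ, ∑ t, algebraMap κ C (a t) * ω t = 1) {P : MvPolynomial (Fin n) C}
    (hP : P ∈ Cl κ D (n := n) ω) (c : κ) : P - MvPolynomial.C (algebraMap κ C c) ∈ Cl κ D (n := n) ω := by
  classical
  obtain ⟨hP1, hP2⟩ := hP
  obtain ⟨b, hb⟩ := h1
  refine ⟨fun i => ?_, fun γ => ?_⟩
  · refine (degreeOf_sub_le _ _ _).trans (max_le (hP1 i) ?_)
    rw [degreeOf_C]
    exact Nat.zero_le _
  · obtain ⟨a, ha⟩ := hP2 γ
    rw [coeff_sub, coeff_C, ha]
    split_ifs
    · refine ⟨fun t => a t - c * b t, ?_⟩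
      have h2 : algebraMap κ C c = ∑ t, algebraMap κ C (c * b t) * ω t := by
        simp only [map_mul, mul_assoc]
        rw [← mul_sum, hb, mul_one]
      rw [h2, ← sum_sub_distrib]
      refine sum_congr rfl (fun t _ => ?_)
      rw [map_sub]
      ring
    · exact ⟨a, by rw [sub_zero]⟩

/-- **The main step.** -/
theorem coreB {κ₀ κ C : Type*} [Field κ₀] [Field κ] [Field C] [CharZero C] [Algebra κ₀ C] [Algebra κ C]
    (hK : ∀ x : κ₀, ∃ x' : κ, algebraMap κ C x' = algebraMap κ₀ C x) {s n m D c : ℕ} (l : Fin s → C)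
    (L : Submodule κ C) (hcol2 : Col2 κ₀ κ C s n (m * (D + 1) ^ n) c l)
    (hcol3 : Col3 κ₀ κ C L s n (m * (D + 1) ^ n) c l) (ω : Fin m → C)
    (h1 : ∃ a : Fin m → κ, ∑ t, algebraMap κ C (a t) * ω t = 1) (y : Fin n → C)
    (T : Submodule κ₀ (Fin s → Fin n → κ₀))
    (hT : ∀ P ∈ Cl κ D (n := n) ω, eval y P ∈ L → ∀ x ∈ T, ∃ (a : (Fin n →₀ ℕ) → Fin m → κ) (h : C),
      h ∈ L ∧ (eval y P = 0 → h = 0) ∧ ∑ i, eval y (pderiv i P) * ∑ k, l k * algebraMap κ₀ C (x k i) =
        ∑ γ ∈ box n D, (∏ i, y i ^ γ i) * ∑ t, algebraMap κ C (a γ t) * ω t + h)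
    {e : ℕ} (hS : s * e + n * c < finrank κ₀ T) : Good κ₀ κ L (Cl κ D (n := n) ω) (e + 1) y := by
  classical
  obtain ⟨W, hWc, hWmin⟩ := exists_min3 T c
  obtain ⟨ω', hω'⟩ := enum (κ := κ) (D := D) ω y
  -- the derivatives of zeros
  have hstep0 : ∀ P ∈ Cl κ D (n := n) ω, eval y P = 0 → ∀ w ∈ W,
      ∑ i, eval y (pderiv i P) * algebraMap κ₀ C (w i) = 0 := by
    intro P hP hP0 w hw
    set G : Fin n → C := fun i => eval y (pderiv i P) with hG
    obtain ⟨K, hKc, hK2⟩ := hcol2 G ω'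
    set W' : Submodule κ₀ (Fin n → κ₀) :=
      { carrier := {w | w ∈ W ∧ ∑ i, G i * algebraMap κ₀ C (w i) = 0}
        add_mem' := by
          rintro x x' ⟨h1, h2⟩ ⟨h3, h4⟩
          refine ⟨W.add_mem h1 h3, ?_⟩
          simp only [Pi.add_apply, map_add, mul_add, sum_add_distrib, h2, h4, add_zero]
        zero_mem' := ⟨W.zero_mem, by simp⟩
        smul_mem' := by
          rintro a x ⟨h1, h2⟩
          refine ⟨W.smul_mem _ h1, ?_⟩
          have h3 : ∑ i, G i * algebraMap κ₀ C ((a • x) i) = algebraMap κ₀ C a * ∑ i, G i * algebraMap κ₀ C (x i) := by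
            rw [mul_sum]
            refine sum_congr rfl (fun i _ => ?_)
            rw [Pi.smul_apply, smul_eq_mul, map_mul]
            ring
          rw [h3, h2, mul_zero] } with hW'
    have hW'm : ∀ x, x ∈ W' ↔ x ∈ W ∧ ∑ i, G i * algebraMap κ₀ C (x i) = 0 := fun x => Iff.rfl
    have hle : W' ≤ W := fun x hx => ((hW'm x).mp hx).1
    have h3 : W' = W := by
      refine hWmin W' hle (cut hle hKc (fun x hx hxW hxK => ?_))
      obtain ⟨a, h, -, hh, ha⟩ := hT P hP (by rw [hP0]; exact L.zero_mem) x hx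
      obtain ⟨a', ha'⟩ := hω' a
      rw [hh hP0, add_zero, ha'] at ha
      have h2 := hK2 _ ⟨a', ha⟩ (fun k hk => ((hW'm _).mp (hxK k hk)).2)
      exact fun k => (hW'm _).mpr ⟨hxW k, h2 k⟩
    have h4 : w ∈ W' := by rw [h3]; exact hw
    exact ((hW'm w).mp h4).2
  -- the derivatives of polynomials with values in `L`
  have hstep1 : ∀ P ∈ Cl κ D (n := n) ω, eval y P ∈ L → ∀ w ∈ W,
      ∃ b : κ, ∑ i, eval y (pderiv i P) * algebraMap κ₀ C (w i) = algebraMap κ C b := by
    intro P hP hP0 w hw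
    set G : Fin n → C := fun i => eval y (pderiv i P) with hG
    obtain ⟨K, hKc, hK2⟩ := hcol3 G ω'
    set W' : Submodule κ₀ (Fin n → κ₀) :=
      { carrier := {w | w ∈ W ∧ ∃ b : κ, ∑ i, G i * algebraMap κ₀ C (w i) = algebraMap κ C b}
        add_mem' := by
          rintro x x' ⟨h1, b, h2⟩ ⟨h3, b', h4⟩
          refine ⟨W.add_mem h1 h3, b + b', ?_⟩
          simp only [Pi.add_apply, map_add, mul_add, sum_add_distrib, h2, h4]
        zero_mem' := ⟨W.zero_mem, 0, by simp⟩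
        smul_mem' := by
          rintro a x ⟨h1, b, h2⟩
          obtain ⟨a', ha'⟩ := hK a
          refine ⟨W.smul_mem _ h1, a' * b, ?_⟩
          have h3 : ∑ i, G i * algebraMap κ₀ C ((a • x) i) = algebraMap κ₀ C a * ∑ i, G i * algebraMap κ₀ C (x i) := by
            rw [mul_sum]
            refine sum_congr rfl (fun i _ => ?_)
            rw [Pi.smul_apply, smul_eq_mul, map_mul]
            ring
          rw [h3, h2, map_mul, ha'] } with hW'
    have hW'm : ∀ x, x ∈ W' ↔ x ∈ W ∧ ∃ b : κ, ∑ i, G i * algebraMap κ₀ C (x i) = algebraMap κ C b :=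
      fun x => Iff.rfl
    have hle : W' ≤ W := fun x hx => ((hW'm x).mp hx).1
    have h3 : W' = W := by
      refine hWmin W' hle (cut hle hKc (fun x hx hxW hxK => ?_))
      obtain ⟨a, h, hh, -, ha⟩ := hT P hP hP0 x hx
      obtain ⟨a', ha'⟩ := hω' a
      rw [ha'] at ha
      have h2 := hK2 _ ⟨a', h, hh, ha⟩ (fun k hk => ((hW'm _).mp (hxK k hk)).2)
      exact fun k => (hW'm _).mpr ⟨hxW k, h2 k⟩
    have h4 : w ∈ W' := by rw [h3]; exact hw
    exact ((hW'm w).mp h4).2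
  obtain ⟨w, hwli, hwW⟩ := exists_w (dim_W hWc hS)
  have hvan : ∀ P ∈ Cl κ D (n := n) ω, eval y P = 0 → ∀ z : Fin (e + 1) → C,
      eval (fun i => y i + ∑ a, z a * algebraMap κ₀ C (w a i)) P = 0 := fun P hP hP0 z =>
    vanish2 y (fun a i => algebraMap κ₀ C (w a i)) (Cl κ D (n := n) ω) (fun f hf a => Cl_pderiv hK hf _)
      (fun f hf hf0 a => hstep0 f hf hf0 _ (hwW _)) _ P hP le_rfl hP0 z
  refine ⟨w, hwli, fun P hP hPL => ?_⟩
  choose b hb using fun a => hstep1 P hP hPL _ (hwW a)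
  have hder : ∀ (v : Fin n → C) (a : Fin (e + 1)),
      eval v (∑ i, MvPolynomial.C (algebraMap κ₀ C (w a i)) * pderiv i P) =
        ∑ i, eval v (pderiv i P) * algebraMap κ₀ C (w a i) := by
    intro v a
    rw [map_sum]
    refine sum_congr rfl (fun i _ => ?_)
    rw [map_mul, eval_C, mul_comm]
  refine ⟨b, fun hP0 => ?_, ?_⟩
  · funext a
    have h2 := hstep0 P hP hP0 _ (hwW a)
    rw [hb a] at h2
    exact (algebraMap κ C).injective (by rw [h2, Pi.zero_apply, map_zero])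
  · intro z
    refine affine2 y (fun a i => algebraMap κ₀ C (w a i)) P (fun a => algebraMap κ C (b a)) (fun a z => ?_) z
    have h2 := hvan _ (Cl_sub_C h1 (Cl_pderiv hK hP (w a)) (b a)) (by
      rw [map_sub, eval_C, hder, hb a, sub_self]) z
    rw [map_sub, eval_C, hder, sub_eq_zero] at h2
    exact h2

end Pool.Agent.D0H4.Lv
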