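import Pool.Agent.D0H4.Lv.HypK

/-!
# The main step with sharp exponents
-/

set_option autoImplicit false

namespace Pool.Agent.D0H4.Lv

open Module Finset MvPolynomial
open Pool.Agent.W254.PA (Hyp)
open Pool.Agent.D0H4.Rk (pivot rank_two)
open Pool.Agent.D0H4.Tr (vanish2 chain2)

section pair

variable {K : Type*} [Field K] {S s n : ℕ} (d₀ : Fin S → Derivation ℤ K K) (b : Fin s → Fin n → K)

/-- the images of the vectors in the quotient -/
noncomputable def th {W : Submodule K (Fin n → K)} {T : Submodule K (Fin S → K)} (hWT : IsPair d₀ b W T)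
    (W' : Submodule K (Fin n → K)) : T →ₗ[K] (Fin s → W ⧸ W'.submoduleOf W) :=
  LinearMap.pi (fun k => (W'.submoduleOf W).mkQ ∘ₗ LinearMap.codRestrict W (dvl d₀ (b k) ∘ₗ T.subtype)
    (fun a => hWT.1 _ a.2 _))

/-- **Pairs with a space of smallest dimension.** -/
theorem exists_pairK (u τ : ℕ) (T₀ : Submodule K (Fin S → K)) (hT₀ : S ≤ finrank K T₀ + τ) :
    ∃ (W : Submodule K (Fin n → K)) (T : Submodule K (Fin S → K)) (hWT : IsPair d₀ b W T), T ≤ T₀ ∧
      S ≤ finrank K T + (n - finrank K W) * u + τ ∧ ∀ W' : Submodule K (Fin n → K), W' ≤ W →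
        (finrank K W' < finrank K W → finrank K (LinearMap.range (th d₀ b hWT W')) +
          finrank K W' * (finrank K W - finrank K W') ≤ (finrank K W - finrank K W') * u) → W' = W := by
  classical
  set Pr : ℕ → Prop := fun m => ∃ (W : Submodule K (Fin n → K)) (T : Submodule K (Fin S → K)),
    finrank K W = m ∧ T ≤ T₀ ∧ IsPair d₀ b W T ∧ S ≤ finrank K T + (n - m) * u + τ with hPr
  have hex : ∃ m, Pr m :=
    ⟨_, ⊤, T₀, rfl, le_rfl, ⟨fun _ _ _ => Submodule.mem_top, fun _ _ _ _ => Submodule.mem_top⟩, by omega⟩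
  obtain ⟨W, T, hWm, hTT, hWT, hS⟩ := Nat.find_spec hex
  have hle : finrank K W ≤ n := fr_le W
  refine ⟨W, T, hWT, hTT, by rw [hWm]; exact hS, fun W' hW' hrk => ?_⟩
  by_contra hne
  have hlt := Submodule.finrank_lt_finrank_of_lt (lt_of_le_of_ne hW' hne)
  have hrk := hrk hlt
  rw [← hWm] at hS
  -- the smaller space of derivations
  let w := Module.finBasis K W'
  have huW : ∀ j, (w j : Fin n → K) ∈ W := fun j => hW' (w j).2
  let θ₂ : T →ₗ[K] (Fin (finrank K W') → W ⧸ W'.submoduleOf W) := LinearMap.pi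
    (fun j => (W'.submoduleOf W).mkQ ∘ₗ LinearMap.codRestrict W (dvl d₀ (w j : Fin n → K) ∘ₗ T.subtype)
      (fun a => hWT.2 _ a.2 _ (huW j)))
  set θ := (th d₀ b hWT W').prod θ₂ with hθd
  have hθ : ∀ a : T, a ∈ LinearMap.ker θ → (∀ k, dvl d₀ (b k) (a : Fin S → K) ∈ W') ∧
      ∀ j, dvl d₀ (w j : Fin n → K) (a : Fin S → K) ∈ W' := by
    intro a ha
    rw [LinearMap.mem_ker, hθd] at ha
    have ha1 : th d₀ b hWT W' a = 0 := congrArg Prod.fst ha
    have ha2 : θ₂ a = 0 := congrArg Prod.snd ha
    refine ⟨fun k => ?_, fun j => ?_⟩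
    · exact (Submodule.Quotient.mk_eq_zero (W'.submoduleOf W)).mp (congrFun ha1 k)
    · exact (Submodule.Quotient.mk_eq_zero (W'.submoduleOf W)).mp (congrFun ha2 j)
  set T' := (LinearMap.ker θ).map T.subtype with hT'
  have hfr : finrank K T' = finrank K (LinearMap.ker θ) :=
    (Submodule.equivMapOfInjective T.subtype (Submodule.subtype_injective T) (LinearMap.ker θ)).finrank_eq.symm
  have h1 := LinearMap.finrank_range_add_finrank_ker θ
  have h2 : finrank K (LinearMap.range θ) ≤ finrank K (LinearMap.range (th d₀ b hWT W')) +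
      finrank K W' * (finrank K W - finrank K W') := by
    have h3 := rank_two (th d₀ b hWT W') (θ₂.domRestrict (LinearMap.ker (th d₀ b hWT W'))) θ (by
      intro m hm
      rw [hθd, LinearMap.prod_apply]
      exact Prod.ext m.2 hm)
    refine h3.trans (Nat.add_le_add_left (le_of_eq ?_) _)
    have hfree : Module.Free K (W ⧸ W'.submoduleOf W) := Module.Free.of_divisionRing K _
    rw [Module.finrank_pi_fintype K, sum_const, card_univ, Fintype.card_fin, smul_eq_mul, fr_quot hW']
  have h3 : Pr (finrank K W') := by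
    refine ⟨W', T', rfl, ?_, ⟨?_, ?_⟩, ?_⟩
    · rintro _ ⟨a, -, rfl⟩
      exact hTT a.2
    · rintro _ ⟨a, ha, rfl⟩
      exact (hθ a ha).1
    · rintro _ ⟨a, ha, rfl⟩ x hx
      have h4 := (hθ a ha).2
      have h5 : x ∈ Submodule.span K (Set.range fun j => (w j : Fin n → K)) := by
        have h6 := congrArg (fun z : W' => (z : Fin n → K)) (w.sum_repr ⟨x, hx⟩)
        simp only [Submodule.coe_sum, Submodule.coe_smul] at h6
        rw [← h6]
        exact Submodule.sum_mem _ fun j _ => Submodule.smul_mem _ _ (Submodule.subset_span ⟨j, rfl⟩)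
      have h7 : Submodule.span K (Set.range fun j => (w j : Fin n → K)) ≤ W' :=
        Submodule.span_le.mpr (by rintro _ ⟨j, rfl⟩; exact (w j).2)
      refine Submodule.span_induction (p := fun w _ => dvl d₀ w (a : Fin S → K) ∈ W') ?_ ?_ ?_ ?_ h5
      · rintro _ ⟨j, rfl⟩
        exact h4 j
      · have : dvl d₀ (0 : Fin n → K) (a : Fin S → K) = 0 := by
          funext i
          simp only [dvl_apply, Pi.zero_apply, map_zero, mul_zero, sum_const_zero]
        rw [this]
        exact W'.zero_mem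
      · intro x x' _ _ hx hx'
        rw [dvl_add]
        exact W'.add_mem hx hx'
      · intro r x hx1 hx
        rw [dvl_smul]
        exact W'.add_mem (W'.smul_mem _ (h7 hx1)) (W'.smul_mem _ hx)
    · have h4 : (n - finrank K W') * u = (n - finrank K W) * u + (finrank K W - finrank K W') * u := by
        rw [← add_mul]
        congr 1
        omega
      omega
  have := Nat.find_min' hex h3
  omega

/-- the dimension -/
theorem dim_pair {W : Submodule K (Fin n → K)} {T : Submodule K (Fin S → K)} (hWT : IsPair d₀ b W T)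
    (hind : LinearIndependent K (fun (q : Fin S) (p : Fin s × Fin n) => d₀ q (b p.1 p.2))) {u τ e : ℕ}
    (hS : S ≤ finrank K T + (n - finrank K W) * u + τ) (hS2 : s * e + (n - e) * u + τ < S) : e < finrank K W := by
  classical
  have h1 : finrank K T ≤ s * finrank K W := by
    let θ : T →ₗ[K] (Fin s → W) := LinearMap.pi (fun k =>
      LinearMap.codRestrict W (dvl d₀ (b k) ∘ₗ T.subtype) (fun a => hWT.1 _ a.2 _))
    have hθ : Function.Injective θ := by
      rw [← LinearMap.ker_eq_bot, LinearMap.ker_eq_bot']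
      intro a ha
      have h1 : ∀ k i, ∑ q, (a : Fin S → K) q * d₀ q (b k i) = 0 := by
        intro k i
        have h2 := congrArg (fun z : W => (z : Fin n → K) i) (congrFun ha k)
        exact h2
      refine Subtype.ext (funext fun q => ?_)
      refine Fintype.linearIndependent_iff.mp hind (a : Fin S → K) ?_ q
      funext p
      rw [Finset.sum_apply]
      exact h1 p.1 p.2
    have h1 := LinearMap.finrank_le_finrank_of_injective hθ
    rwa [Module.finrank_pi_fintype, sum_const, card_univ, Fintype.card_fin, smul_eq_mul] at h1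
  have h2 : S ≤ s * n := by
    have := hind.fintype_card_le_finrank
    rwa [Fintype.card_fin, Module.finrank_fintype_fun_eq_card, Fintype.card_prod, Fintype.card_fin,
      Fintype.card_fin] at this
  have h3 : finrank K W ≤ n := fr_le W
  by_contra hcon
  push Not at hcon
  rcases Nat.lt_or_ge e n with hen | hen
  · obtain ⟨r, rfl⟩ := Nat.exists_eq_add_of_le hen.le
    obtain ⟨r', hr'⟩ := Nat.exists_eq_add_of_le hcon
    have h4 : e + r - e = r := by omega
    have h5 : e + r - finrank K W = r + r' := by omega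
    rw [h4] at hS2
    rw [h5] at hS
    have h6 : u < s := by
      by_contra h7
      push Not at h7
      have h8 : s * r ≤ r * u := by rw [mul_comm]; exact Nat.mul_le_mul_left _ h7
      have h9 : s * (e + r) = s * e + s * r := by ring
      omega
    have h7 : r' * u ≤ s * r' := by rw [mul_comm s]; exact Nat.mul_le_mul_left _ h6.le
    have h8 : s * e = s * finrank K W + s * r' := by
      have : s * e = s * (finrank K W + r') := congrArg (fun x => s * x) hr'
      rw [this]
      ring
    have h9 : (r + r') * u = r * u + r' * u := by ring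
    omega
  · have h4 : s * n ≤ s * e := Nat.mul_le_mul_left _ hen
    omega

end pair

section steps

variable {K C : Type*} [Field K] [Field C] [Algebra K C] {S s n : ℕ}
  (Dr : Fin S → Derivation ℤ C C) (d₀ : Fin S → Derivation ℤ K K) (b : Fin s → Fin n → K) (l : Fin s → C)

/-- the functional of a vector on a space -/
noncomputable def gw (G : Fin n → C) (W : Submodule K (Fin n → K)) : W →ₗ[K] C where
  toFun := fun w => ∑ i, G i * algebraMap K C ((w : Fin n → K) i)
  map_add' := by
    intro w w'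
    simp only [Submodule.coe_add, Pi.add_apply, map_add, mul_add, sum_add_distrib]
  map_smul' := by
    intro a w
    simp only [Submodule.coe_smul, Pi.smul_apply, smul_eq_mul, map_mul, RingHom.id_apply, Algebra.smul_def, mul_sum]
    exact sum_congr rfl (fun i _ => by ring)

theorem gw_apply (G : Fin n → C) (W : Submodule K (Fin n → K)) (w : W) :
    gw G W w = ∑ i, G i * algebraMap K C ((w : Fin n → K) i) := rfl

/-- the zeros of the functional -/
noncomputable def w0 (G : Fin n → C) (W : Submodule K (Fin n → K)) : Submodule K (Fin n → K) :=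
  (LinearMap.ker (gw G W)).map W.subtype

theorem mem_w0 {G : Fin n → C} {W : Submodule K (Fin n → K)} {x : Fin n → K} :
    x ∈ w0 G W ↔ x ∈ W ∧ ∑ i, G i * algebraMap K C (x i) = 0 := by
  constructor
  · rintro ⟨w, hw, rfl⟩
    exact ⟨w.2, hw⟩
  · rintro ⟨h1, h2⟩
    exact ⟨⟨x, h1⟩, h2, rfl⟩

/-- the vectors at which the functional is a constant -/
noncomputable def w1 (G : Fin n → C) (W : Submodule K (Fin n → K)) : Submodule K (Fin n → K) :=
  ((Submodule.span K {(1 : C)}).comap (gw G W)).map W.subtype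

theorem mem_w1 {G : Fin n → C} {W : Submodule K (Fin n → K)} {x : Fin n → K} :
    x ∈ w1 G W ↔ x ∈ W ∧ ∃ z : K, ∑ i, G i * algebraMap K C (x i) = algebraMap K C z := by
  constructor
  · rintro ⟨w, hw, rfl⟩
    obtain ⟨z, hz⟩ := Submodule.mem_span_singleton.mp hw
    refine ⟨w.2, z, ?_⟩
    rw [Algebra.smul_def, mul_one] at hz
    exact hz.symm
  · rintro ⟨h1, z, h2⟩
    refine ⟨⟨x, h1⟩, ?_, rfl⟩
    change gw G W _ ∈ Submodule.span K {(1 : C)}
    rw [gw_apply, Submodule.mem_span_singleton]
    exact ⟨z, by rw [Algebra.smul_def, mul_one]; exact h2.symm⟩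

/-- **The cost for zeros.** -/
theorem cost0 {V : Submodule K C} (hV : Hyp V) (hl : ∀ k, l k ∈ V) (hli : LinearIndependent K l)
    {W : Submodule K (Fin n → K)} {T : Submodule K (Fin S → K)} (hWT : IsPair d₀ b W T) (G : Fin n → C)
    (hG : ∀ a ∈ T, ∑ i, G i * ∑ k, l k * algebraMap K C (dvl d₀ (b k) a i) = 0) :
    finrank K (LinearMap.range (th d₀ b hWT (w0 G W))) + finrank K (w0 G W) * (finrank K W - finrank K (w0 G W)) ≤
      (finrank K W - finrank K (w0 G W)) * (n - 1) := by
  classical
  set W' := w0 G W with hW'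
  have hle : W' ≤ W := fun x hx => (mem_w0.mp hx).1
  have hker : W'.submoduleOf W = LinearMap.ker (gw G W) := by
    ext w
    constructor
    · intro hw
      exact (mem_w0.mp hw).2
    · intro hw
      exact mem_w0.mpr ⟨w.2, hw⟩
  let Gb : (W ⧸ W'.submoduleOf W) →ₗ[K] C := Submodule.liftQ _ (gw G W) hker.le
  have hGb : Function.Injective Gb := by
    rw [← LinearMap.ker_eq_bot]
    exact Submodule.ker_liftQ_eq_bot _ _ _ hker.ge
  have h1 := hyp_count0 hV l hl hli Gb hGb (LinearMap.range (th d₀ b hWT W')) (by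
    rintro _ ⟨a, rfl⟩
    rw [← hG a a.2]
    have h2 : ∀ k, Gb (th d₀ b hWT W' a k) = ∑ i, G i * algebraMap K C (dvl d₀ (b k) (a : Fin S → K) i) := fun k => rfl
    simp only [h2, mul_sum]
    rw [sum_comm]
    exact sum_congr rfl (fun i _ => sum_congr rfl (fun k _ => by ring)))
  rw [fr_quot hle] at h1
  have h2 : finrank K W' ≤ finrank K W := Submodule.finrank_mono hle
  have h3 : finrank K W ≤ n := fr_le W
  obtain ⟨v, hv⟩ := Nat.exists_eq_add_of_le h2
  have h4 : finrank K W - finrank K W' = v := by omega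
  rw [h4] at h1 ⊢
  rcases Nat.eq_zero_or_pos v with h5 | h5
  · subst h5
    simp only [zero_mul, mul_zero, add_zero] at h1 ⊢
    exact h1
  · calc _ ≤ v * (v - 1) + finrank K W' * v := Nat.add_le_add_right h1 _
      _ = v * (v - 1 + finrank K W') := by ring
      _ ≤ v * (n - 1) := Nat.mul_le_mul_left _ (by omega)

/-- **The cost for values.** -/
theorem cost1 {V : Submodule K C} (hV : Hyp V) (hV1 : (1 : C) ∈ V) (hl : ∀ k, l k ∈ V)
    (hli : LinearIndependent K (Fin.cons 1 l : Fin (s + 1) → C)) {g : ℕ} (p : Fin g → C)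
    {W : Submodule K (Fin n → K)} {T : Submodule K (Fin S → K)} (hWT : IsPair d₀ b W T) (G : Fin n → C)
    (hG : ∀ a ∈ T, ∑ i, G i * ∑ k, l k * algebraMap K C (dvl d₀ (b k) a i) ∈ V ⊔ Submodule.span K (Set.range p))
    (hlt : finrank K (w1 G W) < finrank K W) :
    finrank K (LinearMap.range (th d₀ b hWT (w1 G W))) + finrank K (w1 G W) * (finrank K W - finrank K (w1 G W)) ≤
      (finrank K W - finrank K (w1 G W)) * (n + g ^ 2 + 3 * g + 1) := by
  classical
  set W' := w1 G W with hW'
  have hle : W' ≤ W := fun x hx => (mem_w1.mp hx).1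
  obtain ⟨σ, hσ⟩ := LinearMap.exists_rightInverse_of_surjective (W'.submoduleOf W).mkQ
    (LinearMap.range_eq_top.mpr (Submodule.mkQ_surjective _))
  have hσ' : ∀ x, (W'.submoduleOf W).mkQ (σ x) = x := fun x => by
    have := LinearMap.congr_fun hσ x
    exact this
  have h1 := hyp_count3 hV hV1 l hl hli p (gw G W ∘ₗ σ) (by
    rintro x ⟨c, hc⟩
    rw [← hσ' x]
    refine (Submodule.Quotient.mk_eq_zero _).mpr ?_
    exact mem_w1.mpr ⟨(σ x).2, c, hc⟩) (LinearMap.range (th d₀ b hWT W')) (by
    rintro _ ⟨a, rfl⟩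
    have h2 : ∀ k, ∃ c : K, gw G W (σ (th d₀ b hWT W' a k)) =
        ∑ i, G i * algebraMap K C (dvl d₀ (b k) (a : Fin S → K) i) + algebraMap K C c := by
      intro k
      set x : W := ⟨dvl d₀ (b k) (a : Fin S → K), hWT.1 _ a.2 k⟩ with hx
      have h3 : (W'.submoduleOf W).mkQ (σ (th d₀ b hWT W' a k)) = (W'.submoduleOf W).mkQ x := hσ' _
      have h4 : σ (th d₀ b hWT W' a k) - x ∈ W'.submoduleOf W := (Submodule.Quotient.eq _).mp h3
      obtain ⟨-, c, hc⟩ := mem_w1.mp h4
      refine ⟨c, ?_⟩
      have h5 : gw G W (σ (th d₀ b hWT W' a k) - x) = algebraMap K C c := hc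
      rw [map_sub, sub_eq_iff_eq_add, add_comm] at h5
      exact h5
    choose c hc using h2
    have h3 : ∑ k, l k * (gw G W ∘ₗ σ) (th d₀ b hWT W' a k) =
        ∑ i, G i * ∑ k, l k * algebraMap K C (dvl d₀ (b k) (a : Fin S → K) i) + ∑ k, l k * algebraMap K C (c k) := by
      simp only [LinearMap.comp_apply, hc, mul_add, sum_add_distrib, mul_sum]
      congr 1
      rw [sum_comm]
      exact sum_congr rfl (fun i _ => sum_congr rfl (fun k _ => by ring))
    rw [h3]
    exact Submodule.add_mem _ (hG a a.2) (Submodule.mem_sup_left (V.sum_mem fun k _ => V_alg (hl k) _)))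
  rw [fr_quot hle] at h1
  have h2 : finrank K W' ≤ finrank K W := Submodule.finrank_mono hle
  have h3 : finrank K W ≤ n := fr_le W
  obtain ⟨v, hv⟩ := Nat.exists_eq_add_of_le h2
  have h4 : finrank K W - finrank K W' = v := by omega
  rw [h4] at h1 ⊢
  have h5 : 1 ≤ v := by omega
  have h6 : finrank K W' * v + v * v ≤ v * n := by
    rw [mul_comm (finrank K W'), ← mul_add]
    exact Nat.mul_le_mul_left _ (by omega)
  have h7 : (v + g + 1) * (v + g) = v * v + v * (2 * g + 1) + g * (g + 1) := by ring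
  have h8 : g * (g + 1) ≤ v * (g * (g + 1)) := Nat.le_mul_of_pos_left _ h5
  have h9 : v * (n + g ^ 2 + 3 * g + 1) = v * n + v * (2 * g + 1) + v * (g * (g + 1)) := by ring
  omega

end steps

/-- the affine polynomials, for zeros -/
theorem coreK0 {K C : Type*} [Field K] [Field C] [CharZero C] [Algebra K C] {V : Submodule K C} (hV : Hyp V)
    {S s n τ : ℕ} (Dr : Fin S → Derivation ℤ C C) (d₀ : Fin S → Derivation ℤ K K)
    (hD1 : ∀ q (z : K), Dr q (algebraMap K C z) = algebraMap K C (d₀ q z)) (l : Fin s → C) (hl : ∀ k, l k ∈ V)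
    (hli : LinearIndependent K l) (b : Fin s → Fin n → K) (y : Fin n → C)
    (hy : ∀ q i, Dr q (y i) = ∑ k, l k * algebraMap K C (d₀ q (b k i)))
    (hind : LinearIndependent K (fun (q : Fin S) (p : Fin s × Fin n) => d₀ q (b p.1 p.2)))
    (T₀ : Submodule K (Fin S → K)) (hT₀ : S ≤ finrank K T₀ + τ) (Q : Set (MvPolynomial (Fin n) C))
    (hQ : ∀ P ∈ Q, ∀ a ∈ T₀, ∀ γ, DD Dr a (P.coeff γ) = 0)
    {e : ℕ} (hS : s * e + (n - e) * (n - 1) + τ < S) : Good K K (⊥ : Submodule K C) Q (e + 1) y := by
  classical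
  obtain ⟨W, T, hWT, hTT, hdim, hmin⟩ := exists_pairK d₀ b (n - 1) τ T₀ hT₀
  have hdW : e < finrank K W := dim_pair d₀ b hWT hind hdim hS
  set QT : Set (MvPolynomial (Fin n) C) := {P | ∀ a ∈ T, ∀ γ, DD Dr a (P.coeff γ) = 0} with hQT
  have hx : ∀ (a : Fin S → K) (i : Fin n), DD Dr a (y i) = ∑ k, l k * algebraMap K C (dvl d₀ (b k) a i) := by
    intro a i
    rw [DD_apply]
    simp only [hy, dvl_apply, map_sum, map_mul, mul_sum]
    rw [sum_comm]
    exact sum_congr rfl (fun k _ => sum_congr rfl (fun q _ => by ring))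
  have hchain : ∀ P ∈ QT, ∀ a ∈ T, DD Dr a (eval y P) =
      ∑ i, eval y (pderiv i P) * ∑ k, l k * algebraMap K C (dvl d₀ (b k) a i) := by
    intro P hP a ha
    rw [chain2 (DD Dr a) y P.support P (subset_refl _)]
    simp only [hP a ha, mul_zero, sum_const_zero, zero_add, hx]
  have hstep0 : ∀ P ∈ QT, eval y P = 0 → ∀ w ∈ W, ∑ i, eval y (pderiv i P) * algebraMap K C (w i) = 0 := by
    intro P hP hP0 w hw
    have h3 : w0 (fun i => eval y (pderiv i P)) W = W := by
      refine hmin _ (fun x hx => (mem_w0.mp hx).1) (fun _ => cost0 d₀ b l hV hl hli hWT _ (fun a ha => ?_))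
      have h4 := hchain P hP a ha
      rw [hP0, map_zero] at h4
      exact h4.symm
    have h4 : w ∈ w0 (fun i => eval y (pderiv i P)) W := by rw [h3]; exact hw
    exact (mem_w0.mp h4).2
  -- a basis which is killed
  obtain ⟨J, w, hwW, hwJ, hJc, hJ0⟩ := pivot W
  obtain ⟨ι⟩ : Nonempty (Fin (e + 1) ↪ J) :=
    Function.Embedding.nonempty_of_card_le (by rw [Fintype.card_fin, Fintype.card_coe]; omega)
  have hwli : LinearIndependent K w := by
    rw [Fintype.linearIndependent_iff]
    intro g hg j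
    have h1 := congrFun hg j
    rw [Finset.sum_apply] at h1
    simp only [Pi.smul_apply, hwJ, smul_eq_mul, mul_ite, mul_one, mul_zero] at h1
    simpa using h1
  have hkill : ∀ a ∈ T, ∀ j, dvl d₀ (w j) a = 0 := by
    intro a ha j
    refine hJ0 _ (hWT.2 a ha _ (hwW j)) (fun j' => ?_)
    rw [dvl_apply]
    refine sum_eq_zero (fun q _ => ?_)
    rw [hwJ]
    split_ifs
    · rw [(d₀ q).map_one_eq_zero, mul_zero]
    · rw [map_zero, mul_zero]
  have hkill' : ∀ a ∈ T, ∀ j i, DD Dr a (algebraMap K C (w j i)) = 0 := by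
    intro a ha j i
    rw [DD_apply]
    simp only [hD1, ← map_mul, ← map_sum]
    have h1 := congrFun (hkill a ha j) i
    rw [dvl_apply] at h1
    rw [h1]
    exact map_zero _
  have hcl : ∀ P ∈ QT, ∀ j, (∑ i, MvPolynomial.C (algebraMap K C (w j i)) * pderiv i P) ∈ QT := by
    intro P hP j a ha γ
    rw [coeff_sum, map_sum]
    refine sum_eq_zero (fun i _ => ?_)
    rw [coeff_C_mul, coeff_pderiv]
    have h1 : DD Dr a ((γ i : C) + 1) = 0 := by
      rw [map_add, (DD Dr a).map_one_eq_zero, add_zero]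
      exact (DD Dr a).map_natCast _
    rw [(DD Dr a).leibniz, (DD Dr a).leibniz, hkill' a ha, h1, hP a ha]
    simp
  refine ⟨fun a => w (ι a), hwli.comp ι ι.injective, fun P hPQ hPL => ⟨0, fun _ => rfl, fun z => ?_⟩⟩
  rw [Submodule.mem_bot] at hPL
  have h2 := vanish2 y (fun j i => algebraMap K C (w j i)) QT (fun f hf j => hcl f hf j)
      (fun f hf hf0 j => hstep0 f hf hf0 _ (hwW j)) _ P (fun a ha γ => hQ P hPQ a (hTT ha) γ) le_rfl hPL
      (fun j => ∑ a, if ι a = j then z a else 0)
  have h6 : (fun i => y i + ∑ j, (∑ a, if ι a = j then z a else 0) * algebraMap K C (w j i)) =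
      fun i => y i + ∑ a, z a * algebraMap K C (w (ι a) i) := by
    funext i
    congr 1
    simp only [sum_mul, ite_mul, zero_mul]
    rw [sum_comm]
    simp only [sum_ite_eq, mem_univ, if_true]
  rw [h6] at h2
  rw [h2, hPL]
  simp

/-- the affine polynomials, for values -/
theorem coreK1 {K C : Type*} [Field K] [Field C] [CharZero C] [Algebra K C] {V : Submodule K C} (hV : Hyp V)
    (hV1 : (1 : C) ∈ V) {S s n g τ : ℕ} (Dr : Fin S → Derivation ℤ C C) (d₀ : Fin S → Derivation ℤ K K)
    (hD1 : ∀ q (z : K), Dr q (algebraMap K C z) = algebraMap K C (d₀ q z)) (l : Fin s → C) (hl : ∀ k, l k ∈ V)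
    (hli : LinearIndependent K (Fin.cons 1 l : Fin (s + 1) → C)) (p : Fin g → C) (b : Fin s → Fin n → K)
    (y : Fin n → C) (hy : ∀ q i, Dr q (y i) = ∑ k, l k * algebraMap K C (d₀ q (b k i)))
    (hind : LinearIndependent K (fun (q : Fin S) (p : Fin s × Fin n) => d₀ q (b p.1 p.2)))
    (T₀ : Submodule K (Fin S → K)) (hT₀ : S ≤ finrank K T₀ + τ) (Q : Set (MvPolynomial (Fin n) C))
    (hQ : ∀ P ∈ Q, (∀ a ∈ T₀, ∀ γ, DD Dr a (P.coeff γ) = 0) ∧
      (eval y P ∈ V ⊔ Submodule.span K (Set.range p) → ∀ a ∈ T₀, DD Dr a (eval y P) ∈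
        V ⊔ Submodule.span K (Set.range p)))
    {e : ℕ} (hS : s * e + (n - e) * (n + g ^ 2 + 3 * g + 1) + τ < S) :
    Good K K (V ⊔ Submodule.span K (Set.range p)) Q (e + 1) y := by
  classical
  obtain ⟨W, T, hWT, hTT, hdim, hmin⟩ := exists_pairK d₀ b (n + g ^ 2 + 3 * g + 1) τ T₀ hT₀
  have hdW : e < finrank K W := dim_pair d₀ b hWT hind hdim hS
  have hli' : LinearIndependent K l := by
    have h1 := hli.comp Fin.succ (Fin.succ_injective _)
    exact h1
  have hL1 : ∀ z : K, algebraMap K C z ∈ V ⊔ Submodule.span K (Set.range p) := by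
    intro z
    refine Submodule.mem_sup_left ?_
    have := V.smul_mem z hV1
    rwa [Algebra.smul_def, mul_one] at this
  set L := V ⊔ Submodule.span K (Set.range p) with hL
  set QT : Set (MvPolynomial (Fin n) C) := {P | ∀ a ∈ T, ∀ γ, DD Dr a (P.coeff γ) = 0} with hQT
  have hx : ∀ (a : Fin S → K) (i : Fin n), DD Dr a (y i) = ∑ k, l k * algebraMap K C (dvl d₀ (b k) a i) := by
    intro a i
    rw [DD_apply]
    simp only [hy, dvl_apply, map_sum, map_mul, mul_sum]
    rw [sum_comm]
    exact sum_congr rfl (fun k _ => sum_congr rfl (fun q _ => by ring))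
  have hchain : ∀ P ∈ QT, ∀ a ∈ T, DD Dr a (eval y P) =
      ∑ i, eval y (pderiv i P) * ∑ k, l k * algebraMap K C (dvl d₀ (b k) a i) := by
    intro P hP a ha
    rw [chain2 (DD Dr a) y P.support P (subset_refl _)]
    simp only [hP a ha, mul_zero, sum_const_zero, zero_add, hx]
  have hstep0 : ∀ P ∈ QT, eval y P = 0 → ∀ w ∈ W, ∑ i, eval y (pderiv i P) * algebraMap K C (w i) = 0 := by
    intro P hP hP0 w hw
    have h3 : w0 (fun i => eval y (pderiv i P)) W = W := by
      refine hmin _ (fun x hx => (mem_w0.mp hx).1) (fun _ => (cost0 d₀ b l hV hl hli' hWT _ (fun a ha => ?_)).trans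
        (Nat.mul_le_mul_left _ (by omega)))
      have h4 := hchain P hP a ha
      rw [hP0, map_zero] at h4
      exact h4.symm
    have h4 : w ∈ w0 (fun i => eval y (pderiv i P)) W := by rw [h3]; exact hw
    exact (mem_w0.mp h4).2
  have hstep1 : ∀ P ∈ QT, (∀ a ∈ T, DD Dr a (eval y P) ∈ L) → ∀ w ∈ W,
      ∃ z : K, ∑ i, eval y (pderiv i P) * algebraMap K C (w i) = algebraMap K C z := by
    intro P hP hPL w hw
    have h3 : w1 (fun i => eval y (pderiv i P)) W = W := by
      refine hmin _ (fun x hx => (mem_w1.mp hx).1) (fun hlt => cost1 d₀ b l hV hV1 hl hli p hWT _ (fun a ha => ?_) hlt)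
      have h4 := hPL a ha
      rw [hchain P hP a ha] at h4
      exact h4
    have h4 : w ∈ w1 (fun i => eval y (pderiv i P)) W := by rw [h3]; exact hw
    exact (mem_w1.mp h4).2
  -- a basis which is killed
  obtain ⟨J, w, hwW, hwJ, hJc, hJ0⟩ := pivot W
  obtain ⟨ι⟩ : Nonempty (Fin (e + 1) ↪ J) :=
    Function.Embedding.nonempty_of_card_le (by rw [Fintype.card_fin, Fintype.card_coe]; omega)
  have hwli : LinearIndependent K w := by
    rw [Fintype.linearIndependent_iff]
    intro g hg j
    have h1 := congrFun hg j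
    rw [Finset.sum_apply] at h1
    simp only [Pi.smul_apply, hwJ, smul_eq_mul, mul_ite, mul_one, mul_zero] at h1
    simpa using h1
  have hkill : ∀ a ∈ T, ∀ j, dvl d₀ (w j) a = 0 := by
    intro a ha j
    refine hJ0 _ (hWT.2 a ha _ (hwW j)) (fun j' => ?_)
    rw [dvl_apply]
    refine sum_eq_zero (fun q _ => ?_)
    rw [hwJ]
    split_ifs
    · rw [(d₀ q).map_one_eq_zero, mul_zero]
    · rw [map_zero, mul_zero]
  have hkill' : ∀ a ∈ T, ∀ j i, DD Dr a (algebraMap K C (w j i)) = 0 := by
    intro a ha j i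
    rw [DD_apply]
    simp only [hD1, ← map_mul, ← map_sum]
    have h1 := congrFun (hkill a ha j) i
    rw [dvl_apply] at h1
    rw [h1]
    exact map_zero _
  have hcl : ∀ P ∈ QT, ∀ j, (∑ i, MvPolynomial.C (algebraMap K C (w j i)) * pderiv i P) ∈ QT := by
    intro P hP j a ha γ
    rw [coeff_sum, map_sum]
    refine sum_eq_zero (fun i _ => ?_)
    rw [coeff_C_mul, coeff_pderiv]
    have h1 : DD Dr a ((γ i : C) + 1) = 0 := by
      rw [map_add, (DD Dr a).map_one_eq_zero, add_zero]
      exact (DD Dr a).map_natCast _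
    rw [(DD Dr a).leibniz, (DD Dr a).leibniz, hkill' a ha, h1, hP a ha]
    simp
  have hvan : ∀ P ∈ QT, eval y P = 0 → ∀ z : J → C,
      eval (fun i => y i + ∑ j, z j * algebraMap K C (w j i)) P = 0 := fun P hP hP0 z =>
    vanish2 y (fun j i => algebraMap K C (w j i)) QT (fun f hf j => hcl f hf j)
      (fun f hf hf0 j => hstep0 f hf hf0 _ (hwW j)) _ P hP le_rfl hP0 z
  have hder : ∀ (v : Fin n → C) (P : MvPolynomial (Fin n) C) (j : J),
      eval v (∑ i, MvPolynomial.C (algebraMap K C (w j i)) * pderiv i P) =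
        ∑ i, eval v (pderiv i P) * algebraMap K C (w j i) := by
    intro v P j
    rw [map_sum]
    refine sum_congr rfl (fun i _ => ?_)
    rw [map_mul, eval_C, mul_comm]
  refine ⟨fun a => w (ι a), hwli.comp ι ι.injective, fun P hPQ hPL => ?_⟩
  have hP : P ∈ QT := fun a ha γ => (hQ P hPQ).1 a (hTT ha) γ
  choose v hv using fun j => hstep1 P hP (fun a ha => (hQ P hPQ).2 hPL a (hTT ha)) _ (hwW j)
  -- the slopes are killed
  have hDK : ∀ (a : Fin S → K) (z : K), DD Dr a (algebraMap K C z) = algebraMap K C (∑ q, a q * d₀ q z) := by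
    intro a z
    rw [DD_apply, map_sum]
    exact sum_congr rfl (fun q _ => by rw [map_mul, hD1])
  have hvk : ∀ a ∈ T, ∀ j, DD Dr a (algebraMap K C (v j)) = 0 := by
    intro a ha j
    have h2 : eval y (∑ i, MvPolynomial.C (algebraMap K C (w j i)) * pderiv i P) = algebraMap K C (v j) := by
      rw [hder, hv j]
    have h3 := hcl P hP j
    have h4 := hstep1 _ h3 (fun a ha => by
      rw [h2, hDK]
      exact hL1 _)
    choose v' hv' using fun k => h4 _ (hWT.1 a ha k)
    have h5 := hchain _ h3 a ha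
    rw [h2, hDK] at h5
    rw [hDK]
    set z' := ∑ q, a q * d₀ q (v j) with hz'
    have h6 : ∑ k, l k * algebraMap K C (v' k) = algebraMap K C z' := by
      rw [h5]
      simp only [← hv', mul_sum]
      rw [sum_comm]
      exact sum_congr rfl (fun i _ => sum_congr rfl (fun k _ => by ring))
    have h7 : z' = 0 := by
      have h8 := Fintype.linearIndependent_iff.mp hli (Fin.cons (-z') v') (by
        rw [Fin.sum_univ_succ]
        simp only [Fin.cons_zero, Fin.cons_succ]
        simp only [Algebra.smul_def, mul_one, map_neg]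
        rw [← h6, neg_add_eq_zero]
        exact sum_congr rfl fun k _ => mul_comm _ _) 0
      rw [Fin.cons_zero, neg_eq_zero] at h8
      exact h8
    rw [h7, map_zero]
  have hgood : ∀ j : J, ∀ z : J → C,
      ∑ i, eval (fun i => y i + ∑ j, z j * algebraMap K C (w j i)) (pderiv i P) * algebraMap K C (w j i) =
        algebraMap K C (v j) := by
    intro j z
    have h3 : (∑ i, MvPolynomial.C (algebraMap K C (w j i)) * pderiv i P) - MvPolynomial.C (algebraMap K C (v j)) ∈
        QT := by
      intro a ha γ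
      rw [coeff_sub, map_sub, hcl P hP j a ha γ, coeff_C, zero_sub, neg_eq_zero]
      split_ifs
      · exact hvk a ha j
      · exact map_zero _
    have h4 := hvan _ h3 (by rw [map_sub, eval_C, hder, hv j, sub_self]) z
    rw [map_sub, eval_C, hder, sub_eq_zero] at h4
    exact h4
  refine ⟨fun a => v (ι a), fun hP0 => ?_, fun z => ?_⟩
  · funext a
    have h2 := hstep0 P hP hP0 _ (hwW (ι a))
    rw [hv] at h2
    exact (algebraMap K C).injective (by rw [h2, Pi.zero_apply, map_zero])
  · refine affine2 y (fun a i => algebraMap K C (w (ι a) i)) P (fun a => algebraMap K C (v (ι a))) (fun a z => ?_) z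
    have h5 := hgood (ι a) (fun j => ∑ a, if ι a = j then z a else 0)
    have h6 : (fun i => y i + ∑ j, (∑ a, if ι a = j then z a else 0) * algebraMap K C (w j i)) =
        fun i => y i + ∑ a, z a * algebraMap K C (w (ι a) i) := by
      funext i
      congr 1
      simp only [sum_mul, ite_mul, zero_mul]
      rw [sum_comm]
      simp only [sum_ite_eq, mem_univ, if_true]
    rw [h6] at h5
    exact h5

end Pool.Agent.D0H4.Lv
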