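import Pool.Agent.D0H4.Lv.UltraB
import Pool.Agent.TH160.TowP.CFull

/-!
# Final form: all polynomials with coefficients in a finite dimensional space
-/

set_option autoImplicit false

namespace Pool.Agent.D0H4.Lv

open Module Finset
open Pool.Agent.W254.Ab (QA mem_QA)
open Pool.Agent.H301R2.SSE (Lt)
open Pool.Agent.TH160.TowP (hyp_lt)
open Pool.Agent.D0H4.Rk (pb pivot)
open Pool.Agent.D0H4.Tr (Cl Col2 Col3 col2_alg col2_rat col3_alg col3_more col3_rat)

theorem col2_mono {κ₀ κ C : Type*} [Field κ₀] [Field κ] [Field C] [Algebra κ₀ C] [Algebra κ C] {s n m c c' : ℕ}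
    {l : Fin s → C} (h : Col2 κ₀ κ C s n m c l) (hc : c ≤ c') : Col2 κ₀ κ C s n m c' l := by
  intro G ω
  obtain ⟨K, hK, hK2⟩ := h G ω
  exact ⟨K, hK.trans hc, hK2⟩

section

variable {s n m g : ℕ} {l : Fin s → ℂ}

theorem c2a (hl : ∀ k, l k ∈ Lt) (hli : LinearIndependent (QA ℂ) (Fin.cons 1 l : Fin (s + 1) → ℂ)) :
    Col2 (QA ℂ) (QA ℂ) ℂ s n m ((n + m + g + 1) ^ 2) l :=
  col2_mono (col2_alg hyp_lt (Submodule.subset_span (Or.inl rfl)) l hl hli) (Nat.pow_le_pow_left (by omega) 2)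

theorem c2r (hl : ∀ k, l k ∈ Lt) (hli : LinearIndependent (QA ℂ) (Fin.cons 1 l : Fin (s + 1) → ℂ)) :
    Col2 ℚ (QA ℂ) ℂ s n m ((n + m + g + 1) ^ 2) l :=
  col2_mono (col2_rat hyp_lt (Submodule.subset_span (Or.inl rfl)) l hl hli) (Nat.pow_le_pow_left (by omega) 2)

theorem c3a (hl : ∀ k, l k ∈ Lt) (hli : LinearIndependent (QA ℂ) (Fin.cons 1 l : Fin (s + 1) → ℂ))
    (p : Fin g → ℂ) : Col3 (QA ℂ) (QA ℂ) ℂ (Lt ⊔ Submodule.span (QA ℂ) (Set.range p)) s n m ((n + m + g + 1) ^ 2) l := by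
  refine col3_more ?_ p
  have h := col3_alg (n := n) (m := m + g) hyp_lt (Submodule.subset_span (Or.inl rfl)) l hl hli
  have h2 : n + (m + g) + 1 = n + m + g + 1 := by ring
  rw [h2] at h
  exact h

theorem c3r (hl : ∀ k, l k ∈ Lt) (hli : LinearIndependent (QA ℂ) (Fin.cons 1 l : Fin (s + 1) → ℂ))
    (p : Fin g → ℂ) : Col3 ℚ (QA ℂ) ℂ (Lt ⊔ Submodule.span (QA ℂ) (Set.range p)) s n m ((n + m + g + 1) ^ 2) l :=
  col3_rat (c3a hl hli p)

end

/-- the polynomials of degree at most `D` in each variable with coefficients in the span of the `ω_t` -/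
def Cls (D : ℕ) {m n : ℕ} (ω : Fin m → ℂ) : Set (MvPolynomial (Fin n) ℂ) :=
  {P | (∀ i, P.degreeOf i ≤ D) ∧ ∀ γ, P.coeff γ ∈ Submodule.span (QA ℂ) (Set.range ω)}

theorem cls_eq (D : ℕ) {m n : ℕ} (ω : Fin m → ℂ) : Cls D (n := n) ω = Cl (QA ℂ) D (n := n) ω := by
  have h1 : ∀ z : ℂ, z ∈ Submodule.span (QA ℂ) (Set.range ω) ↔
      ∃ a : Fin m → QA ℂ, z = ∑ t, algebraMap (QA ℂ) ℂ (a t) * ω t := by
    intro z
    rw [Submodule.mem_span_range_iff_exists_fun]
    constructor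
    · rintro ⟨c, rfl⟩
      exact ⟨c, sum_congr rfl fun t _ => Algebra.smul_def _ _⟩
    · rintro ⟨c, rfl⟩
      exact ⟨c, sum_congr rfl fun t _ => Algebra.smul_def _ _⟩
  ext P
  constructor
  · rintro ⟨h2, h3⟩
    exact ⟨h2, fun γ => (h1 _).mp (h3 γ)⟩
  · rintro ⟨h2, h3⟩
    exact ⟨h2, fun γ => (h1 _).mpr (h3 γ)⟩

/-- only linear polynomials in the `v_j`, `j` in `J`, have a value in `L` -/
def OnlyLin (L : Submodule (QA ℂ) ℂ) {n : ℕ} (Q : Set (MvPolynomial (Fin n) ℂ)) (J : Finset (Fin n))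
    (v : Fin n → ℂ) : Prop :=
  ∀ P ∈ Q, P.vars ⊆ J → MvPolynomial.eval v P ∈ L → (MvPolynomial.eval v P = 0 → P = 0) ∧
    ∃ (c₀ : ℂ) (c : Fin n → QA ℂ), P = MvPolynomial.C c₀ + ∑ j ∈ J, MvPolynomial.C (c j : ℂ) * MvPolynomial.X j

/-- free coordinates -/
theorem onlyLin_of_good {κ : Type} [Field κ] [Algebra κ ℂ] [Algebra κ (QA ℂ)] [IsScalarTower κ (QA ℂ) ℂ]
    {L : Submodule (QA ℂ) ℂ} {n f : ℕ}
    {Q : Set (MvPolynomial (Fin n) ℂ)} {v : Fin n → ℂ} (h : Good κ (QA ℂ) L Q f v) :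
    ∃ J : Finset (Fin n), J.card = f ∧ OnlyLin L Q J v := by
  classical
  obtain ⟨w, hw, h⟩ := h
  obtain ⟨J, w', hw'W, hw'J, hJc, -⟩ := pivot (Submodule.span κ (Set.range w))
  refine ⟨J, by rw [hJc, finrank_span_eq_card hw, Fintype.card_fin], fun P hPQ hPJ hPL => ?_⟩
  choose c hc using fun j => (Submodule.mem_span_range_iff_exists_fun κ).mp (hw'W j)
  obtain ⟨u, hu0, hu⟩ := h P hPQ hPL
  -- the value of `P` at any point
  have key : ∀ x : Fin n → ℂ, MvPolynomial.eval x P = MvPolynomial.eval v P +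
      ∑ a, (∑ j : J, (x j - v j) * algebraMap κ ℂ (c j a)) * (u a : ℂ) := by
    intro x
    have h1 := hu (fun a => ∑ j : J, (x j - v j) * algebraMap κ ℂ (c j a))
    have h2 : (fun i => v i + ∑ a, (∑ j : J, (x j - v j) * algebraMap κ ℂ (c j a)) * algebraMap κ ℂ (w a i)) =
        fun i => v i + ∑ j : J, (x j - v j) * algebraMap κ ℂ (w' j i) := by
      funext i
      congr 1
      simp only [sum_mul]
      rw [sum_comm]
      refine sum_congr rfl (fun j _ => ?_)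
      rw [← hc j, Finset.sum_apply, map_sum, mul_sum]
      refine sum_congr rfl (fun a _ => ?_)
      rw [Pi.smul_apply, smul_eq_mul, map_mul]
      ring
    rw [h2] at h1
    have h3 : MvPolynomial.eval x P = MvPolynomial.eval (fun i => v i + ∑ j : J, (x j - v j) *
        algebraMap κ ℂ (w' j i)) P := by
      refine MvPolynomial.eval₂Hom_congr' rfl (fun i hi _ => ?_) rfl
      have hiJ := hPJ hi
      have h3 : ∑ j : J, (x j - v j) * algebraMap κ ℂ (w' j i) = x i - v i := by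
        rw [Finset.sum_eq_single (⟨i, hiJ⟩ : J)]
        · have := hw'J ⟨i, hiJ⟩ ⟨i, hiJ⟩
          rw [if_pos rfl] at this
          rw [show w' ⟨i, hiJ⟩ i = 1 from this, map_one, mul_one]
        · intro j _ hj
          have := hw'J j ⟨i, hiJ⟩
          rw [if_neg hj] at this
          rw [show w' j i = 0 from this, map_zero, mul_zero]
        · intro h; exact absurd (mem_univ _) h
      rw [h3]
      ring
    rw [h3]
    exact h1
  refine ⟨fun h0 => ?_, ?_⟩
  · apply MvPolynomial.funext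
    intro x
    rw [key, h0, hu0 h0, map_zero]
    simp
  · set d : J → QA ℂ := fun j => ∑ a, algebraMap κ (QA ℂ) (c j a) * u a with hd
    have hd' : ∀ j, (d j : ℂ) = ∑ a, algebraMap κ ℂ (c j a) * (u a : ℂ) := by
      intro j
      change algebraMap (QA ℂ) ℂ (d j) = _
      rw [hd]
      simp only [map_sum, map_mul]
      refine sum_congr rfl (fun a _ => ?_)
      rw [← IsScalarTower.algebraMap_apply]
      rfl
    refine ⟨MvPolynomial.eval v P - ∑ j : J, v j * (d j : ℂ), fun i => if h : i ∈ J then d ⟨i, h⟩ else 0, ?_⟩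
    apply MvPolynomial.funext
    intro x
    rw [key, map_add, MvPolynomial.eval_C, map_sum]
    simp only [map_mul, MvPolynomial.eval_C, MvPolynomial.eval_X]
    rw [← sum_coe_sort J (fun i => ((if h : i ∈ J then d ⟨i, h⟩ else 0 : QA ℂ) : ℂ) * x i)]
    have h5 : ∀ j : J, (if h : (j : Fin n) ∈ J then d ⟨j, h⟩ else 0) = d j := by
      intro j
      rw [dif_pos j.2]
    simp only [h5, hd']
    simp only [sum_mul, mul_sum]
    rw [sum_comm, add_comm_sub, add_right_inj, eq_sub_iff_add_eq, ← sum_add_distrib]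
    refine sum_congr rfl (fun j _ => ?_)
    rw [← sum_add_distrib]
    exact sum_congr rfl (fun a _ => by ring)

section

variable {s n m D : ℕ}

/-- **Counting.** -/
theorem count_finalB (s n m g D e : ℕ) : ∃ C : ℕ, ∀ l : Fin s → ℂ, (∀ k, l k ∈ Lt) →
    LinearIndependent (QA ℂ) (Fin.cons 1 l : Fin (s + 1) → ℂ) → ∀ (p : Fin g → ℂ) (β : Fin n → ℂ) (ω : Fin m → ℂ),
    (1 : ℂ) ∈ Submodule.span (QA ℂ) (Set.range ω) → ∀ M : ℕ, 1 ≤ M →
    Set.ncard {x : Fin s → Fin n → ℤ | (∀ k i, |x k i| ≤ M) ∧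
      ¬ Good ℚ (QA ℂ) (Lt ⊔ Submodule.span (QA ℂ) (Set.range p)) (Cls D ω) (e + 1)
        (fun i => β i + ∑ k, l k * (x k i : ℂ))} ≤
      C * M ^ (s * e + n * (n + m * (D + 1) ^ n + g + 1) ^ 2) := by
  obtain ⟨K, hK⟩ := countB ℚ (QA ℂ) ℂ s n m D ((n + m * (D + 1) ^ n + g + 1) ^ 2) e
  refine ⟨K, fun l hl hli p β ω h1 M hM => ?_⟩
  rw [Submodule.mem_span_range_iff_exists_fun] at h1
  obtain ⟨a, ha⟩ := h1
  have h2 := hK { L := Lt ⊔ Submodule.span (QA ℂ) (Set.range p)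
                  l := l
                  ω := ω
                  β := β
                  hcol2 := c2r hl hli
                  hcol3 := c3r hl hli p
                  h1 := ⟨a, by rw [← ha]; exact sum_congr rfl fun t _ => (Algebra.smul_def _ _).symm⟩ } M hM
  simp only [cls_eq]
  exact h2

/-- **Dimension.** -/
theorem dim_finalB (s n m g D e S : ℕ) (hS : s * e + n * (n + m * (D + 1) ^ n + g + 1) ^ 2 < S) :
    ∃ E : ℕ, ∀ l : Fin s → ℂ, (∀ k, l k ∈ Lt) →
    LinearIndependent (QA ℂ) (Fin.cons 1 l : Fin (s + 1) → ℂ) → ∀ (p : Fin g → ℂ) (β : Fin n → ℂ) (ω : Fin m → ℂ),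
    (1 : ℂ) ∈ Submodule.span (QA ℂ) (Set.range ω) → ∀ φ : Fin S → Fin s × Fin n → QA ℂ,
    ∃ Δ : MvPolynomial (Fin S) (QA ℂ), Δ ≠ 0 ∧ Δ.totalDegree ≤ E ∧ ∀ b : Fin s × Fin n → QA ℂ,
      ¬ Good (QA ℂ) (QA ℂ) (Lt ⊔ Submodule.span (QA ℂ) (Set.range p)) (Cls D ω) (e + 1)
        (fun i => β i + ∑ k, l k * (b (k, i) : ℂ)) →
      MvPolynomial.eval (fun q => ∑ x, φ q x * b x) Δ = 0 := by
  obtain ⟨E, hE⟩ := dim_unifB (QA ℂ) (QA ℂ) ℂ s n m D ((n + m * (D + 1) ^ n + g + 1) ^ 2) e S hS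
  refine ⟨E, fun l hl hli p β ω h1 φ => ?_⟩
  rw [Submodule.mem_span_range_iff_exists_fun] at h1
  obtain ⟨a, ha⟩ := h1
  obtain ⟨Δ, h3, h4, h5⟩ := hE { L := Lt ⊔ Submodule.span (QA ℂ) (Set.range p)
                                 l := l
                                 ω := ω
                                 β := β
                                 hcol2 := c2a hl hli
                                 hcol3 := c3a hl hli p
                                 h1 := ⟨a, by rw [← ha]; exact sum_congr rfl fun t _ => (Algebra.smul_def _ _).symm⟩ } φ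
  refine ⟨Δ, h3, h4, fun b hb => h5 b ?_⟩
  rw [cls_eq] at hb
  exact hb

end

end Pool.Agent.D0H4.Lv
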