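import Pool.Agent.D0H4.Lv.UltraP
import Pool.Agent.D0H4.Lv.FinalB
import Pool.Agent.D0H4.Rk.Final

/-!
# Final form: families of fixed polynomials
-/

set_option autoImplicit false

namespace Pool.Agent.D0H4.Lv

open Module Finset
open Pool.Agent.W254.Ab (QA mem_QA)
open Pool.Agent.H301R2.SSE (Lt)
open Pool.Agent.TH160.TowP (hyp_lt)
open Pool.Agent.D0H4.Rk (pb box1 mem_box1)
open Pool.Agent.D0H4.Tr (Col2 Col3)

theorem ind_of_li {s : ℕ} {l : Fin s → ℂ} (hli : LinearIndependent (QA ℂ) (Fin.cons 1 l : Fin (s + 1) → ℂ))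
    (c₀ : QA ℂ) (c : Fin s → QA ℂ) (h : ∑ k, l k * algebraMap (QA ℂ) ℂ (c k) = algebraMap (QA ℂ) ℂ c₀) : c₀ = 0 := by
  have h1 := Fintype.linearIndependent_iff.mp hli (Fin.cons (-c₀) c) (by
    rw [Fin.sum_univ_succ]
    simp only [Fin.cons_zero, Fin.cons_succ]
    simp only [Algebra.smul_def, mul_one, map_neg]
    rw [← h, neg_add_eq_zero]
    exact sum_congr rfl fun k _ => mul_comm _ _) 0
  rw [Fin.cons_zero, neg_eq_zero] at h1
  exact h1

theorem lt_one {g : ℕ} (p : Fin g → ℂ) (z : QA ℂ) :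
    algebraMap (QA ℂ) ℂ z ∈ Lt ⊔ Submodule.span (QA ℂ) (Set.range p) := by
  refine Submodule.mem_sup_left ?_
  have h1 : (1 : ℂ) ∈ Lt := Submodule.subset_span (Or.inl rfl)
  have := Lt.smul_mem z h1
  rwa [Algebra.smul_def, mul_one] at this

theorem good_mono {κ₀ κ C : Type*} [Field κ₀] [Field κ] [Field C] [Algebra κ₀ C] [Algebra κ C]
    {L : Submodule κ C} {n : ℕ} {Q Q' : Set (MvPolynomial (Fin n) C)} (h : Q ⊆ Q') {f : ℕ} {y : Fin n → C}
    (hg : Good κ₀ κ L Q' f y) : Good κ₀ κ L Q f y := by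
  obtain ⟨w, hw, h1⟩ := hg
  exact ⟨w, hw, fun P hP => h1 P (h hP)⟩

/-- the family with the zero polynomial -/
noncomputable def fz {r n τ : ℕ} (F : Fin r → MvPolynomial (Fin n) (MvPolynomial (Fin τ) ℂ)) :
    Option (Fin r) → MvPolynomial (Fin n) (MvPolynomial (Fin τ) ℂ) := fun o => o.elim 0 F

theorem fz_bd {r n τ d : ℕ} {F : Fin r → MvPolynomial (Fin n) (MvPolynomial (Fin τ) ℂ)} (hF : ∀ j, Bd d (F j))
    (o : Option (Fin r)) : Bd d (fz F o) := by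
  rcases o with _ | j
  · refine ⟨fun i => ?_, fun γ i => ?_⟩
    · change MvPolynomial.degreeOf i (0 : MvPolynomial (Fin n) (MvPolynomial (Fin τ) ℂ)) ≤ d
      rw [MvPolynomial.degreeOf_zero]
      exact Nat.zero_le _
    · change MvPolynomial.degreeOf i (MvPolynomial.coeff γ (0 : MvPolynomial (Fin n) (MvPolynomial (Fin τ) ℂ))) ≤ d
      rw [MvPolynomial.coeff_zero, MvPolynomial.degreeOf_zero]
      exact Nat.zero_le _
  · exact hF j

theorem fz_sub {κ₀ : Type} [Field κ₀] [Algebra κ₀ ℂ] {r n τ : ℕ}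
    (F : Fin r → MvPolynomial (Fin n) (MvPolynomial (Fin τ) ℂ)) (t : Fin τ → κ₀) : Fam F t ⊆ Fam (fz F) t := by
  rintro P ⟨j, rfl⟩
  exact ⟨some j, rfl⟩

/-- **Counting.** -/
theorem count_finalA0 (κ₀ : Type) [Field κ₀] [CharZero κ₀] [Algebra κ₀ (QA ℂ)] [Algebra κ₀ ℂ]
    [IsScalarTower κ₀ (QA ℂ) ℂ] (s n τ g r d e : ℕ)
    (hc2 : ∀ l : Fin s → ℂ, (∀ k, l k ∈ Lt) → LinearIndependent (QA ℂ) (Fin.cons 1 l : Fin (s + 1) → ℂ) →
      Col2 κ₀ (QA ℂ) ℂ s n 0 ((n + g + 1) ^ 2) l)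
    (hc3 : ∀ l : Fin s → ℂ, (∀ k, l k ∈ Lt) → LinearIndependent (QA ℂ) (Fin.cons 1 l : Fin (s + 1) → ℂ) →
      ∀ p : Fin g → ℂ, Col3 κ₀ (QA ℂ) ℂ (Lt ⊔ Submodule.span (QA ℂ) (Set.range p)) s n 0 ((n + g + 1) ^ 2) l) :
    ∃ C : ℕ, ∀ l : Fin s → ℂ, (∀ k, l k ∈ Lt) →
    LinearIndependent (QA ℂ) (Fin.cons 1 l : Fin (s + 1) → ℂ) → ∀ (p : Fin g → ℂ) (β : Fin n → ℂ)
    (F : Fin r → MvPolynomial (Fin n) (MvPolynomial (Fin τ) ℂ)), (∀ j, Bd d (F j)) → ∀ M : ℕ, 1 ≤ M →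
    Set.ncard {x : Fin s → Fin n → ℤ | (∀ k i, |x k i| ≤ M) ∧ ∃ t : Fin τ → κ₀,
      ¬ Good κ₀ (QA ℂ) (Lt ⊔ Submodule.span (QA ℂ) (Set.range p)) (Fam F t) (e + 1)
        (fun i => β i + ∑ k, l k * (x k i : ℂ))} ≤
      C * M ^ (s * e + n * ((n + g + 1) ^ 2 + n) + τ) := by
  obtain ⟨K, hK⟩ := countA κ₀ (QA ℂ) ℂ s n τ d ((n + g + 1) ^ 2) e (Option (Fin r))
  refine ⟨K, fun l hl hli p β F hF M hM => ?_⟩
  have h2 := hK { L := Lt ⊔ Submodule.span (QA ℂ) (Set.range p)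
                  hL1 := lt_one p
                  l := l
                  hli := ind_of_li hli
                  F := fz F
                  hF := fz_bd hF
                  β := β
                  hcol2 := hc2 l hl hli
                  hcol3 := hc3 l hl hli p } M hM
  refine le_trans (Set.ncard_le_ncard ?_ ?_) h2
  · rintro x ⟨h3, t, h4⟩
    exact ⟨h3, t, fun h5 => h4 (good_mono (fz_sub F t) h5)⟩
  · have h1 : ((box1 (Fin s) n M : Finset (Fin s → Fin n → ℤ)) : Set (Fin s → Fin n → ℤ)).Finite :=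
      Finset.finite_toSet _
    exact h1.subset fun x hx => mem_coe.mpr ((mem_box1 x).mpr hx.1)

/-- **Counting, with further numbers.** -/
theorem count_finalA (κ₀ : Type) [Field κ₀] [CharZero κ₀] [Algebra κ₀ (QA ℂ)] [Algebra κ₀ ℂ]
    [IsScalarTower κ₀ (QA ℂ) ℂ] (s m n τ g r d e : ℕ)
    (hc2 : ∀ l : Fin s → ℂ, (∀ k, l k ∈ Lt) → LinearIndependent (QA ℂ) (Fin.cons 1 l : Fin (s + 1) → ℂ) →
      Col2 κ₀ (QA ℂ) ℂ s n 0 ((n + g + 1) ^ 2) l)
    (hc3 : ∀ l : Fin s → ℂ, (∀ k, l k ∈ Lt) → LinearIndependent (QA ℂ) (Fin.cons 1 l : Fin (s + 1) → ℂ) →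
      ∀ p : Fin g → ℂ, Col3 κ₀ (QA ℂ) ℂ (Lt ⊔ Submodule.span (QA ℂ) (Set.range p)) s n 0 ((n + g + 1) ^ 2) l) :
    ∃ C : ℕ, ∀ l : Fin s → ℂ, (∀ k, l k ∈ Lt) →
    LinearIndependent (QA ℂ) (Fin.cons 1 l : Fin (s + 1) → ℂ) → ∀ (q : Fin m → ℂ) (p : Fin g → ℂ) (β : Fin n → ℂ)
    (F : Fin r → MvPolynomial (Fin n) (MvPolynomial (Fin τ) ℂ)), (∀ j, Bd d (F j)) → ∀ M : ℕ, 1 ≤ M →
    Set.ncard {x : Fin s ⊕ Fin m → Fin n → ℤ | (∀ k i, |x k i| ≤ M) ∧ ∃ t : Fin τ → κ₀,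
      ¬ Good κ₀ (QA ℂ) (Lt ⊔ Submodule.span (QA ℂ) (Set.range p)) (Fam F t) (e + 1)
        (fun i => β i + ∑ k, l k * (x (Sum.inl k) i : ℂ) + ∑ k, q k * (x (Sum.inr k) i : ℂ))} ≤
      C * M ^ (s * e + m * n + n * ((n + g + 1) ^ 2 + n) + τ) := by
  classical
  obtain ⟨K, hK⟩ := count_finalA0 κ₀ s n τ g r d e hc2 hc3
  refine ⟨K * 3 ^ (m * n), fun l hl hli q p β F hF M hM => ?_⟩
  set T := {x : Fin s ⊕ Fin m → Fin n → ℤ | (∀ k i, |x k i| ≤ M) ∧ ∃ t : Fin τ → κ₀,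
      ¬ Good κ₀ (QA ℂ) (Lt ⊔ Submodule.span (QA ℂ) (Set.range p)) (Fam F t) (e + 1)
        (fun i => β i + ∑ k, l k * (x (Sum.inl k) i : ℂ) + ∑ k, q k * (x (Sum.inr k) i : ℂ))} with hT
  have hTf : T.Finite := by
    have h1 : ((box1 (Fin s ⊕ Fin m) n M : Finset (Fin s ⊕ Fin m → Fin n → ℤ)) :
        Set (Fin s ⊕ Fin m → Fin n → ℤ)).Finite := Finset.finite_toSet _
    exact h1.subset fun x hx => mem_coe.mpr ((mem_box1 x).mpr hx.1)
  rw [Set.ncard_eq_toFinset_card T hTf]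
  have h1 := Finset.card_le_mul_card_image_of_maps_to (s := hTf.toFinset) (t := box1 (Fin m) n M)
    (f := fun x k => x (Sum.inr k)) (by
      intro x hx
      rw [Set.Finite.mem_toFinset] at hx
      exact (mem_box1 _).mpr fun k i => hx.1 _ _) (K * M ^ (s * e + n * ((n + g + 1) ^ 2 + n) + τ)) (by
      intro x' hx'
      refine le_trans ?_ (hK l hl hli p (fun i => β i + ∑ k, q k * (x' k i : ℂ)) F hF M hM)
      set T' := {x : Fin s → Fin n → ℤ | (∀ k i, |x k i| ≤ M) ∧ ∃ t : Fin τ → κ₀,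
        ¬ Good κ₀ (QA ℂ) (Lt ⊔ Submodule.span (QA ℂ) (Set.range p)) (Fam F t) (e + 1)
          (fun i => β i + ∑ k, q k * (x' k i : ℂ) + ∑ k, l k * (x k i : ℂ))} with hT'
      have hT'f : T'.Finite := by
        have h1 : ((box1 (Fin s) n M : Finset (Fin s → Fin n → ℤ)) : Set (Fin s → Fin n → ℤ)).Finite :=
          Finset.finite_toSet _
        exact h1.subset fun x hx => mem_coe.mpr ((mem_box1 x).mpr hx.1)
      rw [Set.ncard_eq_toFinset_card T' hT'f]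
      refine card_le_card_of_injOn (fun x k => x (Sum.inl k)) ?_ ?_
      · intro x hx
        rw [mem_coe, mem_filter, Set.Finite.mem_toFinset] at hx
        obtain ⟨⟨h1, t, h2⟩, h4⟩ := hx
        rw [mem_coe, Set.Finite.mem_toFinset]
        have h5 : (fun i => β i + ∑ k, l k * (x (Sum.inl k) i : ℂ) + ∑ k, q k * (x (Sum.inr k) i : ℂ)) =
            fun i => β i + ∑ k, q k * (x' k i : ℂ) + ∑ k, l k * (x (Sum.inl k) i : ℂ) := by
          funext i
          rw [← h4]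
          ring
        rw [h5] at h2
        exact ⟨fun k i => h1 _ _, t, h2⟩
      · intro x hx y hy hxy
        rw [mem_coe, mem_filter] at hx hy
        funext k i
        rcases k with k | k
        · exact congrFun (congrFun hxy k) i
        · have h6 := hx.2.trans hy.2.symm
          exact congrFun (congrFun h6 k) i)
  have h2 : (box1 (Fin m) n M).card = (2 * M + 1) ^ (m * n) := by
    have h3 : ((M : ℤ) + 1 - -(M : ℤ)).toNat = 2 * M + 1 := by omega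
    rw [box1]
    simp only [Fintype.card_piFinset, prod_const, card_univ, Int.card_Icc, h3, Fintype.card_fin]
    rw [← pow_mul, Nat.mul_comm n m]
  rw [h2] at h1
  refine h1.trans ?_
  have h3 : (2 * M + 1) ^ (m * n) ≤ (3 * M) ^ (m * n) := Nat.pow_le_pow_left (by omega) _
  refine (Nat.mul_le_mul_left _ h3).trans (le_of_eq ?_)
  rw [mul_pow, pow_add, pow_add, pow_add, pow_add, pow_add]
  ring

/-- **Dimension.** -/
theorem dim_finalA (s n τ g r d e S : ℕ) (hS : s * e + n * ((n + g + 1) ^ 2 + n) + τ < S) :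
    ∃ E : ℕ, ∀ l : Fin s → ℂ, (∀ k, l k ∈ Lt) →
    LinearIndependent (QA ℂ) (Fin.cons 1 l : Fin (s + 1) → ℂ) → ∀ (p : Fin g → ℂ) (β : Fin n → ℂ)
    (F : Fin r → MvPolynomial (Fin n) (MvPolynomial (Fin τ) ℂ)), (∀ j, Bd d (F j)) →
    ∀ φ : Fin S → Fin s × Fin n → QA ℂ,
    ∃ Δ : MvPolynomial (Fin S) (QA ℂ), Δ ≠ 0 ∧ Δ.totalDegree ≤ E ∧ ∀ (b : Fin s × Fin n → QA ℂ) (t : Fin τ → QA ℂ),
      ¬ Good (QA ℂ) (QA ℂ) (Lt ⊔ Submodule.span (QA ℂ) (Set.range p)) (Fam F t) (e + 1)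
        (fun i => β i + ∑ k, l k * (b (k, i) : ℂ)) →
      MvPolynomial.eval (fun q => ∑ x, φ q x * b x) Δ = 0 := by
  obtain ⟨E, hE⟩ := dim_unifA (QA ℂ) (QA ℂ) ℂ s n τ d ((n + g + 1) ^ 2) e S (Option (Fin r)) hS
  refine ⟨E, fun l hl hli p β F hF φ => ?_⟩
  obtain ⟨Δ, h3, h4, h5⟩ := hE { L := Lt ⊔ Submodule.span (QA ℂ) (Set.range p)
                                 hL1 := lt_one p
                                 l := l
                                 hli := ind_of_li hli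
                                 F := fz F
                                 hF := fz_bd hF
                                 β := β
                                 hcol2 := c2a (m := 0) hl hli
                                 hcol3 := c3a (m := 0) hl hli p } φ
  refine ⟨Δ, h3, h4, fun b t hb => h5 b ⟨t, fun h6 => hb ?_⟩⟩
  exact good_mono (fz_sub F t) h6

end Pool.Agent.D0H4.Lv
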