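import Pool.Agent.D0H4.Lv.UltraK
import Pool.Agent.D0H4.Lv.FinalA
import Pool.Agent.W254.HP.PartC

/-!
# Final form, with sharp exponents, over algebraic fields
-/

set_option autoImplicit false

namespace Pool.Agent.D0H4.Lv

open Module Finset
open Pool.Agent.W254.PA (Hyp)
open Pool.Agent.W254.HP (LK hypP)
open Pool.Agent.D0H4.Rk (pb box1 mem_box1)

section field

theorem LK_mono {K K' : IntermediateField ℚ ℂ} (h : K ≤ K') {z : ℂ} (hz : z ∈ LK K) : z ∈ LK K' := by
  refine Submodule.span_induction (p := fun z _ => z ∈ LK K') ?_ ?_ ?_ ?_ hz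
  · intro x hx
    exact Submodule.subset_span hx
  · exact Submodule.zero_mem _
  · intro x y _ _ hx hy
    exact Submodule.add_mem _ hx hy
  · intro a x _ hx
    exact (LK K').smul_mem (⟨a, h a.2⟩ : K') hx

theorem LK_fin {K : IntermediateField ℚ ℂ} (hK : Algebra.IsAlgebraic ℚ K) {z : ℂ} (hz : z ∈ LK K) :
    ∃ K' : IntermediateField ℚ ℂ, FiniteDimensional ℚ K' ∧ K' ≤ K ∧ z ∈ LK K' := by
  refine Submodule.span_induction (p := fun z _ => ∃ K' : IntermediateField ℚ ℂ,
    FiniteDimensional ℚ K' ∧ K' ≤ K ∧ z ∈ LK K') ?_ ?_ ?_ ?_ hz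
  · intro x hx
    exact ⟨⊥, inferInstance, bot_le, Submodule.subset_span hx⟩
  · exact ⟨⊥, inferInstance, bot_le, Submodule.zero_mem _⟩
  · rintro x y _ _ ⟨K1, h1, h2, h3⟩ ⟨K2, h4, h5, h6⟩
    exact ⟨K1 ⊔ K2, IntermediateField.finiteDimensional_sup K1 K2, sup_le h2 h5,
      Submodule.add_mem _ (LK_mono le_sup_left h3) (LK_mono le_sup_right h6)⟩
  · rintro a x _ ⟨K1, h1, h2, h3⟩
    have h4 : IsIntegral ℚ (a : ℂ) := by
      have h5 : IsAlgebraic ℚ a := Algebra.IsAlgebraic.isAlgebraic a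
      exact (h5.algebraMap (A := ℂ)).isIntegral
    have h6 : FiniteDimensional ℚ (IntermediateField.adjoin ℚ {(a : ℂ)}) := IntermediateField.adjoin.finiteDimensional h4
    have h7 : (a : ℂ) ∈ K1 ⊔ IntermediateField.adjoin ℚ {(a : ℂ)} :=
      (le_sup_right : IntermediateField.adjoin ℚ {(a : ℂ)} ≤ _) (IntermediateField.mem_adjoin_simple_self ℚ (a : ℂ))
    refine ⟨K1 ⊔ IntermediateField.adjoin ℚ {(a : ℂ)}, IntermediateField.finiteDimensional_sup _ _, sup_le h2 ?_, ?_⟩
    · rw [IntermediateField.adjoin_simple_le_iff]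
      exact a.2
    · exact (LK (K1 ⊔ IntermediateField.adjoin ℚ {(a : ℂ)})).smul_mem (⟨a, h7⟩ : (K1 ⊔
        IntermediateField.adjoin ℚ {(a : ℂ)} : IntermediateField ℚ ℂ)) (LK_mono le_sup_left h3)

/-- the hyperplane property over an algebraic field -/
theorem hyp_LK (K : IntermediateField ℚ ℂ) (hK : Algebra.IsAlgebraic ℚ K) : Hyp (LK K) := by
  intro d l x a hx ha hxa hcol
  choose K' h1 h2 h3 using fun i j => LK_fin hK (ha i j)
  have hfd : FiniteDimensional ℚ (⨆ p : Fin d × Fin l, K' p.1 p.2 : IntermediateField ℚ ℂ) := by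
    have h4 : ∀ p : Fin d × Fin l, FiniteDimensional ℚ (K' p.1 p.2) := fun p => h1 p.1 p.2
    exact IntermediateField.finiteDimensional_iSup_of_finite
  have hle : (⨆ p : Fin d × Fin l, K' p.1 p.2 : IntermediateField ℚ ℂ) ≤ K := iSup_le fun p => h2 p.1 p.2
  refine hypP (⨆ p : Fin d × Fin l, K' p.1 p.2 : IntermediateField ℚ ℂ) d l x a ?_
    (fun i j => LK_mono (le_iSup (fun p : Fin d × Fin l => K' p.1 p.2) (i, j)) (h3 i j)) hxa ?_
  · intro c hc i
    have h4 := Fintype.linearIndependent_iff.mp hx (fun i => (⟨c i, hle (c i).2⟩ : K)) hc i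
    have h5 : (c i : ℂ) = 0 := congrArg (fun z : K => (z : ℂ)) h4
    exact Subtype.ext h5
  · intro c hc j
    have h4 := Fintype.linearIndependent_iff.mp hcol (fun j => (⟨c j, hle (c j).2⟩ : K)) (by
      funext i
      rw [Finset.sum_apply]
      exact hc i) j
    have h5 : (c j : ℂ) = 0 := congrArg (fun z : K => (z : ℂ)) h4
    exact Subtype.ext h5

theorem one_LK (K : IntermediateField ℚ ℂ) : (1 : ℂ) ∈ LK K := Submodule.subset_span (Or.inl rfl)

end field

/-- further numbers -/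
theorem count_more {s m n N A M : ℕ} (hM : 1 ≤ M) (Bad : (Fin n → ℂ) → Prop) (l : Fin s → ℂ) (q : Fin m → ℂ)
    (β : Fin n → ℂ) (h : ∀ β : Fin n → ℂ, Set.ncard {x : Fin s → Fin n → ℤ | (∀ k i, |x k i| ≤ M) ∧
      Bad (fun i => β i + ∑ k, l k * (x k i : ℂ))} ≤ N * M ^ A) :
    Set.ncard {x : Fin s ⊕ Fin m → Fin n → ℤ | (∀ k i, |x k i| ≤ M) ∧
      Bad (fun i => β i + ∑ k, l k * (x (Sum.inl k) i : ℂ) + ∑ k, q k * (x (Sum.inr k) i : ℂ))} ≤
      N * 3 ^ (m * n) * M ^ (m * n + A) := by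
  classical
  set T := {x : Fin s ⊕ Fin m → Fin n → ℤ | (∀ k i, |x k i| ≤ M) ∧
      Bad (fun i => β i + ∑ k, l k * (x (Sum.inl k) i : ℂ) + ∑ k, q k * (x (Sum.inr k) i : ℂ))} with hT
  have hTf : T.Finite := by
    have h1 : ((box1 (Fin s ⊕ Fin m) n M : Finset (Fin s ⊕ Fin m → Fin n → ℤ)) :
        Set (Fin s ⊕ Fin m → Fin n → ℤ)).Finite := Finset.finite_toSet _
    exact h1.subset fun x hx => mem_coe.mpr ((mem_box1 x).mpr hx.1)
  rw [Set.ncard_eq_toFinset_card T hTf]
  have h1 := Finset.card_le_mul_card_image_of_maps_to (s := hTf.toFinset) (t := box1 (Fin m) n M)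
    (f := fun x k => x (Sum.inr k)) (by
      intro x hx
      rw [Set.Finite.mem_toFinset] at hx
      exact (mem_box1 _).mpr fun k i => hx.1 _ _) (N * M ^ A) (by
      intro x' hx'
      refine le_trans ?_ (h (fun i => β i + ∑ k, q k * (x' k i : ℂ)))
      set T' := {x : Fin s → Fin n → ℤ | (∀ k i, |x k i| ≤ M) ∧
          Bad (fun i => β i + ∑ k, q k * (x' k i : ℂ) + ∑ k, l k * (x k i : ℂ))} with hT'
      have hT'f : T'.Finite := by
        have h1 : ((box1 (Fin s) n M : Finset (Fin s → Fin n → ℤ)) : Set (Fin s → Fin n → ℤ)).Finite :=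
          Finset.finite_toSet _
        exact h1.subset fun x hx => mem_coe.mpr ((mem_box1 x).mpr hx.1)
      rw [Set.ncard_eq_toFinset_card T' hT'f]
      refine card_le_card_of_injOn (fun x k => x (Sum.inl k)) ?_ ?_
      · intro x hx
        rw [mem_coe, mem_filter, Set.Finite.mem_toFinset] at hx
        obtain ⟨⟨h1, h2⟩, h4⟩ := hx
        rw [mem_coe, Set.Finite.mem_toFinset]
        have h5 : (fun i => β i + ∑ k, l k * (x (Sum.inl k) i : ℂ) + ∑ k, q k * (x (Sum.inr k) i : ℂ)) =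
            fun i => β i + ∑ k, q k * (x' k i : ℂ) + ∑ k, l k * (x (Sum.inl k) i : ℂ) := by
          funext i
          rw [← h4]
          ring
        rw [h5] at h2
        exact ⟨fun k i => h1 _ _, h2⟩
      · intro x hx y hy hxy
        rw [mem_coe, mem_filter] at hx hy
        funext k i
        rcases k with k | k
        · exact congrFun (congrFun hxy k) i
        · have h6 := hx.2.trans hy.2.symm
          exact congrFun (congrFun h6 k) i)
  have h2 : (box1 (Fin m) n M).card = (2 * M + 1) ^ (m * n) := by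
    have h3 : ((M : ℤ) + 1 - -(M : ℤ)).toNat = 2 * M + 1 := by omega
    rw [box1]
    simp only [Fintype.card_piFinset, prod_const, card_univ, Int.card_Icc, h3, Fintype.card_fin]
    rw [← pow_mul, Nat.mul_comm n m]
  rw [h2] at h1
  refine h1.trans ?_
  have h3 : (2 * M + 1) ^ (m * n) ≤ (3 * M) ^ (m * n) := Nat.pow_le_pow_left (by omega) _
  refine (Nat.mul_le_mul_left _ h3).trans (le_of_eq ?_)
  rw [mul_pow, pow_add]
  ring

section

variable (K : Type) [Field K] [CharZero K] [Algebra K ℂ]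

/-- **Counting, zeros.** -/
theorem count_finalK0 (s m n τ r d e : ℕ) : ∃ N : ℕ, ∀ (V : Submodule K ℂ), Hyp V → ∀ l : Fin s → ℂ, (∀ k, l k ∈ V) →
    LinearIndependent K l → ∀ (q : Fin m → ℂ) (β : Fin n → ℂ)
    (F : Fin r → MvPolynomial (Fin n) (MvPolynomial (Fin τ) ℂ)), (∀ j, Bd d (F j)) → ∀ M : ℕ, 1 ≤ M →
    Set.ncard {x : Fin s ⊕ Fin m → Fin n → ℤ | (∀ k i, |x k i| ≤ M) ∧ ∃ t : Fin τ → K,
      ¬ Good K K (⊥ : Submodule K ℂ) (Fam F t) (e + 1)
        (fun i => β i + ∑ k, l k * (x (Sum.inl k) i : ℂ) + ∑ k, q k * (x (Sum.inr k) i : ℂ))} ≤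
      N * M ^ (s * e + m * n + (n - e) * (n - 1) + τ) := by
  obtain ⟨N, hN⟩ := countK0 K ℂ s n τ d e (Option (Fin r))
  refine ⟨N * 3 ^ (m * n), fun V hV l hl hli q β F hF M hM => ?_⟩
  refine (count_more (A := s * e + (n - e) * (n - 1) + τ) (N := N) hM (fun v => ∃ t : Fin τ → K,
      ¬ Good K K (⊥ : Submodule K ℂ) (Fam F t) (e + 1) v) l q β (fun β => ?_)).trans (le_of_eq ?_)
  · have h2 := hN { V := V
                    hV := hV
                    l := l
                    hl := hl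
                    hli := hli
                    F := fz F
                    hF := fz_bd hF
                    β := β } M hM
    refine le_trans (Set.ncard_le_ncard ?_ ?_) h2
    · rintro x ⟨h3, t, h4⟩
      exact ⟨h3, t, fun h5 => h4 (good_mono (fz_sub F t) h5)⟩
    · have h1 : ((box1 (Fin s) n M : Finset (Fin s → Fin n → ℤ)) : Set (Fin s → Fin n → ℤ)).Finite :=
        Finset.finite_toSet _
      exact h1.subset fun x hx => mem_coe.mpr ((mem_box1 x).mpr hx.1)
  · congr 2
    ring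

/-- **Counting, values.** -/
theorem count_finalK1 (s m n τ g r d e : ℕ) : ∃ N : ℕ, ∀ (V : Submodule K ℂ), Hyp V → (1 : ℂ) ∈ V →
    ∀ l : Fin s → ℂ, (∀ k, l k ∈ V) → LinearIndependent K (Fin.cons 1 l : Fin (s + 1) → ℂ) →
    ∀ (q : Fin m → ℂ) (p : Fin g → ℂ) (β : Fin n → ℂ)
    (F : Fin r → MvPolynomial (Fin n) (MvPolynomial (Fin τ) ℂ)), (∀ j, Bd d (F j)) → ∀ M : ℕ, 1 ≤ M →
    Set.ncard {x : Fin s ⊕ Fin m → Fin n → ℤ | (∀ k i, |x k i| ≤ M) ∧ ∃ t : Fin τ → K,
      ¬ Good K K (V ⊔ Submodule.span K (Set.range p)) (Fam F t) (e + 1)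
        (fun i => β i + ∑ k, l k * (x (Sum.inl k) i : ℂ) + ∑ k, q k * (x (Sum.inr k) i : ℂ))} ≤
      N * M ^ (s * e + m * n + (n - e) * (n + g ^ 2 + 3 * g + 1) + τ) := by
  obtain ⟨N, hN⟩ := countK1 K ℂ s n g τ d e (Option (Fin r))
  refine ⟨N * 3 ^ (m * n), fun V hV hV1 l hl hli q p β F hF M hM => ?_⟩
  refine (count_more (A := s * e + (n - e) * (n + g ^ 2 + 3 * g + 1) + τ) (N := N) hM (fun v => ∃ t : Fin τ → K,
      ¬ Good K K (V ⊔ Submodule.span K (Set.range p)) (Fam F t) (e + 1) v) l q β (fun β => ?_)).trans (le_of_eq ?_)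
  · have h2 := hN { V := V
                    hV := hV
                    hV1 := hV1
                    l := l
                    hl := hl
                    hli := hli
                    p := p
                    F := fz F
                    hF := fz_bd hF
                    β := β } M hM
    refine le_trans (Set.ncard_le_ncard ?_ ?_) h2
    · rintro x ⟨h3, t, h4⟩
      exact ⟨h3, t, fun h5 => h4 (good_mono (fz_sub F t) h5)⟩
    · have h1 : ((box1 (Fin s) n M : Finset (Fin s → Fin n → ℤ)) : Set (Fin s → Fin n → ℤ)).Finite :=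
        Finset.finite_toSet _
      exact h1.subset fun x hx => mem_coe.mpr ((mem_box1 x).mpr hx.1)
  · congr 2
    ring

/-- **Dimension, zeros.** -/
theorem dim_finalK0 (s n τ r d e S : ℕ) (hS : s * e + (n - e) * (n - 1) + τ < S) :
    ∃ E : ℕ, ∀ (V : Submodule K ℂ), Hyp V → ∀ l : Fin s → ℂ, (∀ k, l k ∈ V) →
    LinearIndependent K l → ∀ (β : Fin n → ℂ)
    (F : Fin r → MvPolynomial (Fin n) (MvPolynomial (Fin τ) ℂ)), (∀ j, Bd d (F j)) →
    ∀ φ : Fin S → Fin s × Fin n → K,
    ∃ Δ : MvPolynomial (Fin S) K, Δ ≠ 0 ∧ Δ.totalDegree ≤ E ∧ ∀ (b : Fin s × Fin n → K) (t : Fin τ → K),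
      ¬ Good K K (⊥ : Submodule K ℂ) (Fam F t) (e + 1) (fun i => β i + ∑ k, l k * algebraMap K ℂ (b (k, i))) →
      MvPolynomial.eval (fun q => ∑ x, φ q x * b x) Δ = 0 := by
  obtain ⟨E, hE⟩ := dim_unifK0 K ℂ s n τ d e S (Option (Fin r)) hS
  refine ⟨E, fun V hV l hl hli β F hF φ => ?_⟩
  obtain ⟨Δ, h3, h4, h5⟩ := hE { V := V
                                 hV := hV
                                 l := l
                                 hl := hl
                                 hli := hli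
                                 F := fz F
                                 hF := fz_bd hF
                                 β := β } φ
  refine ⟨Δ, h3, h4, fun b t hb => h5 b ⟨t, fun h6 => hb ?_⟩⟩
  exact good_mono (fz_sub F t) h6

/-- **Dimension, values.** -/
theorem dim_finalK1 (s n τ g r d e S : ℕ) (hS : s * e + (n - e) * (n + g ^ 2 + 3 * g + 1) + τ < S) :
    ∃ E : ℕ, ∀ (V : Submodule K ℂ), Hyp V → (1 : ℂ) ∈ V → ∀ l : Fin s → ℂ, (∀ k, l k ∈ V) →
    LinearIndependent K (Fin.cons 1 l : Fin (s + 1) → ℂ) → ∀ (p : Fin g → ℂ) (β : Fin n → ℂ)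
    (F : Fin r → MvPolynomial (Fin n) (MvPolynomial (Fin τ) ℂ)), (∀ j, Bd d (F j)) →
    ∀ φ : Fin S → Fin s × Fin n → K,
    ∃ Δ : MvPolynomial (Fin S) K, Δ ≠ 0 ∧ Δ.totalDegree ≤ E ∧ ∀ (b : Fin s × Fin n → K) (t : Fin τ → K),
      ¬ Good K K (V ⊔ Submodule.span K (Set.range p)) (Fam F t) (e + 1)
        (fun i => β i + ∑ k, l k * algebraMap K ℂ (b (k, i))) →
      MvPolynomial.eval (fun q => ∑ x, φ q x * b x) Δ = 0 := by
  obtain ⟨E, hE⟩ := dim_unifK1 K ℂ s n g τ d e S (Option (Fin r)) hS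
  refine ⟨E, fun V hV hV1 l hl hli p β F hF φ => ?_⟩
  obtain ⟨Δ, h3, h4, h5⟩ := hE { V := V
                                 hV := hV
                                 hV1 := hV1
                                 l := l
                                 hl := hl
                                 hli := hli
                                 p := p
                                 F := fz F
                                 hF := fz_bd hF
                                 β := β } φ
  refine ⟨Δ, h3, h4, fun b t hb => h5 b ⟨t, fun h6 => hb ?_⟩⟩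
  exact good_mono (fz_sub F t) h6

end

end Pool.Agent.D0H4.Lv
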