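import Pool.Agent.D0H4.Lv.UltraA

/-!
# Generic points and uniformity
-/

set_option autoImplicit false

namespace Pool.Agent.D0H4.Lv

open Module Filter
open Pool.Agent.R350 (UP gr gr_eq gr_eq_zero gr_surj cst cst_apply algebraMap_gr gr_smul charZero_UP
  exists_ultra_gen coeff_sum_mon support_sum_mon eq_sum_mon eval_U count_mat)
open Pool.Agent.D0H4.Rk (gr_sum)
open Pool.Agent.D0H4.Tr (exists_der3)

/-- generic points of a set and derivations -/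
theorem fixed_gen {κ₀ κ C : Type} [Field κ₀] [CharZero κ₀] [Field κ] [CharZero κ] [Field C] [CharZero C]
    [Algebra κ₀ κ] [Algebra κ₀ C] [Algebra κ C] [IsScalarTower κ₀ κ C] {S : ℕ} {I : Type} [Fintype I]
    (φ : Fin S → I → κ₀) (Bad : Set (I → κ₀))
    (h : ∀ (𝒰 : Ultrafilter Bad) (Dr : Fin S → Derivation ℤ (UP 𝒰 C) (UP 𝒰 C))
      (d₀ : Fin S → Derivation ℤ (UP 𝒰 κ₀) (UP 𝒰 κ₀)),
      (∀ q (c : UP 𝒰 κ₀), Dr q (algebraMap _ _ c) = algebraMap _ _ (d₀ q c)) →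
      (∀ q (c : UP 𝒰 κ), ∃ c' : UP 𝒰 κ, Dr q (algebraMap _ _ c) = algebraMap _ _ c') →
      (∀ q (z : C), Dr q (cst 𝒰 C z) = 0) →
      LinearIndependent (UP 𝒰 κ₀) (fun (q : Fin S) (i : I) => d₀ q (gr 𝒰 κ₀ (fun b : Bad => b.1 i))) → False) :
    ∃ Δ : MvPolynomial (Fin S) κ₀, Δ ≠ 0 ∧ ∀ b ∈ Bad, MvPolynomial.eval (fun q => ∑ x, φ q x * b x) Δ = 0 := by
  classical
  by_contra hcon
  push Not at hcon
  obtain ⟨𝒰, hgen⟩ := exists_ultra_gen (ι := Bad) (fun b (q : Fin S) => ∑ x, φ q x * b.1 x) (by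
    intro Q hQ
    obtain ⟨b, h1, h2⟩ := hcon Q hQ
    exact ⟨⟨b, h1⟩, h2⟩)
  have hch1 : CharZero (UP 𝒰 κ₀) := charZero_UP 𝒰
  have hch2 : CharZero (UP 𝒰 C) := charZero_UP 𝒰
  choose Dr d₀ hD1 hD1' hD2 hD3 hD4 using fun q => exists_der3 (κ₀ := κ₀) (κ := κ) (C := C) 𝒰
    (fun q (b : Bad) => ∑ x, φ q x * b.1 x) hgen q
  refine h 𝒰 Dr d₀ hD1 hD2 hD3 ?_
  rw [Fintype.linearIndependent_iff]
  intro g hg q'
  have h1 : ∑ p : I, cst 𝒰 κ₀ (φ q' p) * (∑ q, g q • (fun i : I => d₀ q (gr 𝒰 κ₀ (fun b : Bad => b.1 i)))) p = 0 := by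
    rw [hg]
    simp
  have h2 : ∑ p : I, cst 𝒰 κ₀ (φ q' p) * (∑ q, g q • (fun i : I => d₀ q (gr 𝒰 κ₀ (fun b : Bad => b.1 i)))) p =
      ∑ q, g q * d₀ q (gr 𝒰 κ₀ (fun b : Bad => ∑ x, φ q' x * b.1 x)) := by
    have h3 : ∀ q, d₀ q (gr 𝒰 κ₀ (fun b : Bad => ∑ x, φ q' x * b.1 x)) =
        ∑ p : I, cst 𝒰 κ₀ (φ q' p) * d₀ q (gr 𝒰 κ₀ (fun b : Bad => b.1 p)) := by
      intro q
      rw [← gr_sum 𝒰 Finset.univ (fun (x : I) (b : Bad) => φ q' x * b.1 x), map_sum]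
      refine Finset.sum_congr rfl (fun p _ => ?_)
      have h4 : gr 𝒰 κ₀ (fun b : Bad => φ q' p * b.1 p) = cst 𝒰 κ₀ (φ q' p) * gr 𝒰 κ₀ (fun b : Bad => b.1 p) := by
        rw [cst_apply, ← map_mul]
        rfl
      rw [h4, (d₀ q).leibniz, hD1', smul_zero, add_zero, smul_eq_mul]
    simp only [h3, Finset.sum_apply, Pi.smul_apply, smul_eq_mul, Finset.mul_sum]
    rw [Finset.sum_comm]
    refine Finset.sum_congr rfl (fun q _ => Finset.sum_congr rfl (fun p _ => ?_))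
    ring
  rw [h2] at h1
  simp only [hD4] at h1
  simpa using h1

/-- a bound for the degree which is uniform in the data -/
theorem unif_gen (κ₀ : Type) [Field κ₀] {Dt : Type*} (S : ℕ) {I : Type} [Fintype I] (Bad : Dt → Set (I → κ₀))
    (h : ∀ (𝒰 : Ultrafilter ℕ) (d : ℕ → Dt) (φ : ℕ → Fin S → I → κ₀),
      ∃ Δ : MvPolynomial (Fin S) (UP 𝒰 κ₀), Δ ≠ 0 ∧ ∀ b : ℕ → I → κ₀, (∀ t, b t ∈ Bad (d t)) →
        MvPolynomial.eval (fun q => ∑ x, gr 𝒰 κ₀ (fun t => φ t q x) * gr 𝒰 κ₀ (fun t => b t x)) Δ = 0) :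
    ∃ E : ℕ, ∀ (d : Dt) (φ : Fin S → I → κ₀), ∃ Δ : MvPolynomial (Fin S) κ₀, Δ ≠ 0 ∧ Δ.totalDegree ≤ E ∧
      ∀ b ∈ Bad d, MvPolynomial.eval (fun q => ∑ x, φ q x * b x) Δ = 0 := by
  classical
  by_contra hcon
  push Not at hcon
  choose d φ hb using hcon
  let 𝒰 : Ultrafilter ℕ := Filter.hyperfilter ℕ
  obtain ⟨Δ, hΔ0, hΔ⟩ := h 𝒰 d φ
  choose δ hδ using fun γ => gr_surj 𝒰 (Δ.coeff γ)
  set Q : ℕ → MvPolynomial (Fin S) κ₀ := fun t =>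
    ∑ γ ∈ Δ.support, MvPolynomial.monomial γ (δ γ t) with hQ
  have hQdeg : ∀ t, (Q t).totalDegree ≤ Δ.totalDegree := by
    intro t
    have h1 : (Q t).support ⊆ Δ.support := by
      simp only [hQ]
      exact support_sum_mon Δ.support (fun γ => δ γ t)
    exact Finset.sup_mono h1
  have hΔQ : Δ = ∑ γ ∈ Δ.support, MvPolynomial.monomial γ (gr 𝒰 κ₀ (δ γ)) := by
    conv_lhs => rw [eq_sum_mon (subset_refl Δ.support)]
    exact Finset.sum_congr rfl fun γ _ => by rw [hδ]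
  have hQ0 : ∀ᶠ t in (𝒰 : Filter ℕ), Q t ≠ 0 := by
    obtain ⟨γ, hγ⟩ := MvPolynomial.ne_zero_iff.1 hΔ0
    have h1 : ¬ ∀ᶠ t in (𝒰 : Filter ℕ), δ γ t = 0 := fun h => hγ (by
      rw [← hδ γ, gr_eq_zero]; exact h)
    rw [← Ultrafilter.eventually_not] at h1
    refine h1.mono fun t ht h0 => ht ?_
    have h2 := congrArg (MvPolynomial.coeff γ) h0
    simp only [hQ] at h2
    rwa [coeff_sum_mon, if_pos (MvPolynomial.mem_support_iff.2 hγ), MvPolynomial.coeff_zero] at h2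
  have hdeg : ∀ᶠ t in (𝒰 : Filter ℕ), (Q t).totalDegree ≤ t := by
    have h1 : ∀ᶠ t in (Filter.atTop : Filter ℕ), Δ.totalDegree ≤ t :=
      Filter.eventually_ge_atTop _
    have h2 : ∀ᶠ t in (𝒰 : Filter ℕ), Δ.totalDegree ≤ t :=
      Filter.Eventually.filter_mono Nat.hyperfilter_le_atTop h1
    exact h2.mono fun t ht => (hQdeg t).trans ht
  have hbad : ∀ t, ∃ b : I → κ₀, b ∈ Bad (d t) ∧
      (Q t ≠ 0 → (Q t).totalDegree ≤ t → MvPolynomial.eval (fun q => ∑ x, φ t q x * b x) (Q t) ≠ 0) := by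
    intro t
    by_cases h : Q t ≠ 0 ∧ (Q t).totalDegree ≤ t
    · obtain ⟨b, h0, h1⟩ := hb t (Q t) h.1 h.2
      exact ⟨b, h0, fun _ _ => h1⟩
    · obtain ⟨b, hb, -⟩ := hb t 1 one_ne_zero (by rw [MvPolynomial.totalDegree_one]; exact Nat.zero_le _)
      exact ⟨b, hb, fun h1 h2 => absurd ⟨h1, h2⟩ h⟩
  choose b hbG hbad using hbad
  have hev2 : MvPolynomial.eval (fun q => ∑ x, gr 𝒰 κ₀ (fun t => φ t q x) *
      gr 𝒰 κ₀ (fun t => b t x)) Δ = gr 𝒰 κ₀ (fun t =>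
        MvPolynomial.eval (fun q => ∑ x, φ t q x * b t x) (Q t)) := by
    have h1 : (fun q => ∑ x, gr 𝒰 κ₀ (fun t => φ t q x) * gr 𝒰 κ₀ (fun t => b t x)) =
        fun q => gr 𝒰 κ₀ (fun t => ∑ x, φ t q x * b t x) := by
      funext q
      simp only [← map_mul]
      rw [← map_sum]
      congr 1
      funext t
      rw [Finset.sum_apply]
      rfl
    rw [h1]
    conv_lhs => rw [hΔQ]
    rw [eval_U]
  have hfin := hΔ b hbG
  rw [hev2, gr_eq_zero] at hfin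
  obtain ⟨t, ⟨ht1, ht2⟩, ht3⟩ := ((hfin.and hQ0).and hdeg).exists
  exact hbad t ht2 ht3 ht1

/-- counting integral points -/
theorem count_gen (κ₀ : Type) [Field κ₀] [CharZero κ₀] {Dt : Type*} (N s n : ℕ) (Bad : Dt → Set (Fin s × Fin n → κ₀))
    (h : ∃ E : ℕ, ∀ (d : Dt) (φ : Fin (N + 1) → Fin s × Fin n → κ₀), ∃ Δ : MvPolynomial (Fin (N + 1)) κ₀, Δ ≠ 0 ∧
      Δ.totalDegree ≤ E ∧ ∀ b ∈ Bad d, MvPolynomial.eval (fun q => ∑ x, φ q x * b x) Δ = 0) :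
    ∃ K : ℕ, ∀ (d : Dt) (M : ℕ), 1 ≤ M → Set.ncard {x : Fin s → Fin n → ℤ | (∀ k i, |x k i| ≤ M) ∧
      (fun p : Fin s × Fin n => (x p.1 p.2 : κ₀)) ∈ Bad d} ≤ K * M ^ N := by
  obtain ⟨E, hE⟩ := h
  obtain ⟨K, hK⟩ := count_mat κ₀ N E s n
  refine ⟨K, fun d M hM => ?_⟩
  exact hK (Bad d) (fun φ => by
    obtain ⟨Δ, h1, h2, h3⟩ := hE d φ
    exact ⟨Δ, h1, h2, fun b hb => h3 b hb⟩) M hM

end Pool.Agent.D0H4.Lv
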