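import Pool.Agent.D0H4.Lv.UltraP

/-!
# Spaces of vectors which are mapped to a space with the hyperplane property
-/

set_option autoImplicit false

namespace Pool.Agent.D0H4.Lv

open Module Finset
open Pool.Agent.W254.PA (Hyp)

section

variable {K C : Type*} [Field K] [Field C] [Algebra K C]

/-- the linear forms -/
noncomputable def vk {r : ℕ} (l : Fin r → C) (d : ℕ) : (Fin r → Fin d → K) →ₗ[K] (Fin d → C) where
  toFun := fun z q => ∑ k, l k * algebraMap K C (z k q)
  map_add' := by
    intro z z'
    funext q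
    simp only [Pi.add_apply, map_add, mul_add, sum_add_distrib]
  map_smul' := by
    intro a z
    funext q
    simp only [Pi.smul_apply, smul_eq_mul, map_mul, RingHom.id_apply, Algebra.smul_def, mul_sum]
    exact sum_congr rfl (fun k _ => by ring)

theorem vk_apply {r : ℕ} (l : Fin r → C) (d : ℕ) (z : Fin r → Fin d → K) (q : Fin d) :
    vk l d z q = ∑ k, l k * algebraMap K C (z k q) := rfl

theorem vk_inj {r : ℕ} {l : Fin r → C} (hl : LinearIndependent K l) {d : ℕ} {z : Fin r → Fin d → K}
    (h : vk l d z = 0) : z = 0 := by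
  funext k q
  have h1 := congrFun h q
  rw [vk_apply, Pi.zero_apply] at h1
  refine Fintype.linearIndependent_iff.mp hl (fun k => z k q) ?_ k
  rw [← h1]
  exact sum_congr rfl (fun k _ => by rw [Algebra.smul_def, mul_comm])

theorem V_alg {V : Submodule K C} {x : C} (hx : x ∈ V) (c : K) : x * algebraMap K C c ∈ V := by
  rw [mul_comm, ← Algebra.smul_def]
  exact V.smul_mem _ hx

/-- **Zeros.** -/
theorem hyp_count0 {V : Submodule K C} (hV : Hyp V) {s : ℕ} (l : Fin s → C) (hl : ∀ k, l k ∈ V)
    (hli : LinearIndependent K l) {Q : Type*} [AddCommGroup Q] [Module K Q] [FiniteDimensional K Q] (Gb : Q →ₗ[K] C)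
    (hG : Function.Injective Gb) (R : Submodule K (Fin s → Q)) (hR : ∀ ζ ∈ R, ∑ k, l k * Gb (ζ k) = 0) :
    finrank K R ≤ finrank K Q * (finrank K Q - 1) := by
  classical
  let b := Module.finBasis K Q
  let ζ := Module.finBasis K R
  let Ψ : (Fin s → Q) →ₗ[K] (Fin s → Fin (finrank K Q) → K) :=
    LinearMap.pi (fun k => b.equivFun.toLinearMap ∘ₗ LinearMap.proj k)
  have hΨ : ∀ z k j, Ψ z k j = b.equivFun (z k) j := fun _ _ _ => rfl
  refine hV (finrank K Q) (finrank K R) (fun j => Gb (b j)) (fun j q => vk l _ (Ψ (ζ q : Fin s → Q)) j) ?_ ?_ ?_ ?_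
  · exact b.linearIndependent.map' Gb (LinearMap.ker_eq_bot.mpr hG)
  · intro j q
    simp only [vk_apply]
    exact V.sum_mem (fun k _ => V_alg (hl k) _)
  · intro q
    simp only [vk_apply, hΨ]
    rw [← hR _ (ζ q).2]
    simp only [mul_sum]
    rw [sum_comm]
    refine sum_congr rfl (fun k _ => ?_)
    conv_rhs => rw [← b.sum_equivFun ((ζ q : Fin s → Q) k), map_sum]
    rw [mul_sum]
    refine sum_congr rfl (fun j _ => ?_)
    rw [map_smul, Algebra.smul_def]
    ring
  · have h1 := ζ.linearIndependent.map' ((vk l (finrank K Q) ∘ₗ Ψ) ∘ₗ R.subtype) (by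
      rw [LinearMap.ker_eq_bot']
      intro z hz
      have h2 := vk_inj hli (z := Ψ (z : Fin s → Q)) hz
      refine Subtype.ext (funext fun k => ?_)
      have h3 := congrFun h2 k
      exact b.equivFun.injective (by
        rw [ZeroMemClass.coe_zero, Pi.zero_apply, map_zero]
        exact h3))
    exact h1

/-- coordinates modulo the constants -/
theorem exists_coordK {I : Type*} [Fintype I] (a : I → C) :
    ∃ (d : ℕ) (e : Fin d → C) (M : I → Fin d → K) (r : I → K), d ≤ Fintype.card I ∧
      LinearIndependent K (Fin.cons 1 e : Fin (d + 1) → C) ∧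
      ∀ i, a i = ∑ q, algebraMap K C (M i q) * e q + algebraMap K C (r i) := by
  classical
  set N1 : Submodule K C := Submodule.span K {1} with hN1
  set A : Submodule K (C ⧸ N1) := Submodule.span K (Set.range (fun i => N1.mkQ (a i))) with hA
  have hfd : FiniteDimensional K A := FiniteDimensional.span_of_finite K (Set.finite_range _)
  let b := Module.finBasis K A
  choose e he using fun q => N1.mkQ_surjective (b q : C ⧸ N1)
  have hm : ∀ i, N1.mkQ (a i) ∈ A := fun i => Submodule.subset_span ⟨i, rfl⟩
  have hbli : LinearIndependent K (fun q => (b q : C ⧸ N1)) := b.linearIndependent.map' A.subtype A.ker_subtype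
  have h1 : ∀ i, a i - ∑ q, b.repr ⟨_, hm i⟩ q • e q ∈ N1 := by
    intro i
    rw [← Submodule.Quotient.mk_eq_zero, ← Submodule.mkQ_apply, map_sub, map_sum]
    simp only [map_smul, he]
    have h := b.sum_repr ⟨_, hm i⟩
    have h2 := congrArg (fun z : A => (z : C ⧸ N1)) h
    simp only [Submodule.coe_sum, Submodule.coe_smul] at h2
    rw [h2, sub_self]
  choose r hr using fun i => Submodule.mem_span_singleton.mp (h1 i)
  refine ⟨finrank K A, e, fun i q => b.repr ⟨_, hm i⟩ q, r, ?_, ?_, ?_⟩
  · exact finrank_range_le_card (fun i => N1.mkQ (a i))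
  · rw [Fintype.linearIndependent_iff]
    intro g hg
    rw [Fin.sum_univ_succ] at hg
    simp only [Fin.cons_zero, Fin.cons_succ] at hg
    have h3 : ∑ q, g q.succ • (b q : C ⧸ N1) = 0 := by
      have h4 := congrArg N1.mkQ hg
      rw [map_add, map_sum, map_zero] at h4
      have h5 : N1.mkQ (g 0 • (1 : C)) = 0 := by
        rw [Submodule.mkQ_apply, Submodule.Quotient.mk_eq_zero]
        exact N1.smul_mem _ (Submodule.mem_span_singleton_self 1)
      rw [h5, zero_add] at h4
      rw [← h4]
      exact sum_congr rfl (fun q _ => by rw [map_smul, he])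
    have h6 := Fintype.linearIndependent_iff.mp hbli _ h3
    intro i
    refine Fin.cases ?_ (fun q => h6 q) i
    simp only [h6, zero_smul, sum_const_zero, add_zero] at hg
    exact (smul_eq_zero.mp hg).resolve_right one_ne_zero
  · intro i
    have h2 := hr i
    rw [eq_sub_iff_add_eq, add_comm] at h2
    rw [← h2]
    simp only [Algebra.smul_def, mul_one]

/-- **Values.** -/
theorem hyp_count3 {V : Submodule K C} (hV : Hyp V) (h1 : (1 : C) ∈ V) {s g : ℕ} (l : Fin s → C) (hl : ∀ k, l k ∈ V)
    (hli : LinearIndependent K (Fin.cons 1 l : Fin (s + 1) → C)) (p : Fin g → C)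
    {Q : Type*} [AddCommGroup Q] [Module K Q] [FiniteDimensional K Q] (Gb : Q →ₗ[K] C)
    (hG : ∀ x : Q, (∃ c : K, Gb x = algebraMap K C c) → x = 0) (R : Submodule K (Fin s → Q))
    (hR : ∀ ζ ∈ R, ∑ k, l k * Gb (ζ k) ∈ V ⊔ Submodule.span K (Set.range p)) :
    finrank K R ≤ (finrank K Q + g + 1) * (finrank K Q + g) := by
  classical
  let b := Module.finBasis K Q
  obtain ⟨d, e, M, r, hd, he, hM⟩ := exists_coordK (K := K)
    (Sum.elim (fun j : Fin (finrank K Q) => Gb (b j)) p)
  rw [Fintype.card_sum, Fintype.card_fin, Fintype.card_fin] at hd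
  set l' : Fin (s + 1) → C := Fin.cons 1 l with hl'
  have hl'V : ∀ k, l' k ∈ V := by
    intro k
    refine Fin.cases ?_ (fun k => ?_) k
    · rw [hl', Fin.cons_zero]; exact h1
    · rw [hl', Fin.cons_succ]; exact hl k
  have hKV : ∀ z : K, algebraMap K C z ∈ V := by
    intro z
    have := V.smul_mem z h1
    rwa [Algebra.smul_def, mul_one] at this
  set ev : (Fin (s + 1) → Fin d → K) →ₗ[K] C :=
    { toFun := fun z => ∑ q, e q * vk l' d z q
      map_add' := by
        intro z z'
        rw [map_add, ← sum_add_distrib]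
        exact sum_congr rfl (fun q _ => by rw [Pi.add_apply, mul_add])
      map_smul' := by
        intro a z
        rw [map_smul, RingHom.id_apply, smul_sum]
        exact sum_congr rfl (fun q _ => by rw [Pi.smul_apply, mul_smul_comm]) } with hev
  set Z := V.comap ev with hZ
  have hvlV : ∀ (z : Fin (s + 1) → Fin d → K) q, vk l' d z q ∈ V := by
    intro z q
    rw [vk_apply]
    exact V.sum_mem (fun k _ => V_alg (hl'V k) _)
  have hZr : finrank K Z ≤ (d + 1) * d := by
    let ζ := Module.finBasis K Z
    refine hV (d + 1) (finrank K Z) (Fin.cons 1 e : Fin (d + 1) → C) (fun i q =>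
      (Fin.cons (- ev (ζ q : Fin (s + 1) → Fin d → K)) (vk l' d (ζ q : Fin (s + 1) → Fin d → K)) :
        Fin (d + 1) → C) i) he ?_ ?_ ?_
    · intro i q
      refine Fin.cases ?_ (fun j => ?_) i
      · exact V.neg_mem (ζ q).2
      · exact hvlV _ j
    · intro q
      rw [Fin.sum_univ_succ]
      simp only [Fin.cons_zero, Fin.cons_succ, one_mul]
      change - ev _ + ev _ = 0
      exact neg_add_cancel _
    · have h1 := ζ.linearIndependent.map' (vk l' d ∘ₗ Z.subtype) (by
        rw [LinearMap.ker_eq_bot']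
        intro x hx
        exact Subtype.ext (vk_inj hli hx))
      refine LinearIndependent.of_comp (LinearMap.funLeft K C (Fin.succ : Fin d → Fin (d + 1))) ?_
      exact h1
  set pr : (Fin (s + 1) → Fin d → K) →ₗ[K] (Fin s → Fin d → K) :=
    LinearMap.pi (fun k => LinearMap.proj k.succ) with hpr
  -- the coordinates of the elements of `R`
  let Ψ : R →ₗ[K] (Fin s → Fin d → K) :=
    { toFun := fun ζ k q => ∑ j, M (Sum.inl j) q * b.equivFun ((ζ : Fin s → Q) k) j
      map_add' := by
        intro z z'
        funext k q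
        simp only [Submodule.coe_add, Pi.add_apply, map_add, mul_add, sum_add_distrib]
      map_smul' := by
        intro a z
        funext k q
        simp only [Submodule.coe_smul, Pi.smul_apply, map_smul, smul_eq_mul, RingHom.id_apply, mul_sum]
        exact sum_congr rfl (fun j _ => by ring) }
  have hval : ∀ x : Q, Gb x = ∑ q, algebraMap K C (∑ j, M (Sum.inl j) q * b.equivFun x j) * e q +
      algebraMap K C (∑ j, r (Sum.inl j) * b.equivFun x j) := by
    intro x
    conv_lhs => rw [← b.sum_equivFun x, map_sum]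
    have h2 : ∀ j, Gb (b j) = ∑ q, algebraMap K C (M (Sum.inl j) q) * e q + algebraMap K C (r (Sum.inl j)) :=
      fun j => hM (Sum.inl j)
    simp only [map_smul, h2, Algebra.smul_def, map_sum, map_mul, mul_add, sum_add_distrib, sum_mul, mul_sum]
    congr 1
    · rw [sum_comm]
      exact sum_congr rfl (fun q _ => sum_congr rfl (fun j _ => by ring))
    · exact sum_congr rfl (fun j _ => by ring)
  have hΨinj : Function.Injective Ψ := by
    rw [← LinearMap.ker_eq_bot, LinearMap.ker_eq_bot']
    intro z hz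
    refine Subtype.ext (funext fun k => ?_)
    refine hG _ ⟨∑ j, r (Sum.inl j) * b.equivFun ((z : Fin s → Q) k) j, ?_⟩
    rw [hval]
    have h2 : ∀ q, ∑ j, M (Sum.inl j) q * b.equivFun ((z : Fin s → Q) k) j = 0 := fun q =>
      congrFun (congrFun hz k) q
    simp only [h2, map_zero, zero_mul, sum_const_zero, zero_add]
  have hΨr : LinearMap.range Ψ ≤ Z.map pr := by
    rintro _ ⟨ζ, rfl⟩
    obtain ⟨h, hh, u, hu, hsum⟩ := Submodule.mem_sup.mp (hR _ ζ.2)
    obtain ⟨a, rfl⟩ := (Submodule.mem_span_range_iff_exists_fun K).mp hu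
    refine ⟨Fin.cons (fun q => - ∑ t, M (Sum.inr t) q * a t) (Ψ ζ), ?_, ?_⟩
    · change ev _ ∈ V
      have h5 : ev (Fin.cons (fun q => - ∑ t, M (Sum.inr t) q * a t) (Ψ ζ)) =
          (∑ k, l k * Gb ((ζ : Fin s → Q) k) - ∑ t, a t • p t) -
          (∑ k, l k * algebraMap K C (∑ j, r (Sum.inl j) * b.equivFun ((ζ : Fin s → Q) k) j) -
            algebraMap K C (∑ t, r (Sum.inr t) * a t)) := by
        have h6 : ∀ t, p t = ∑ q, algebraMap K C (M (Sum.inr t) q) * e q + algebraMap K C (r (Sum.inr t)) :=
          fun t => hM (Sum.inr t)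
        have h7 : ∑ t, a t • p t = ∑ q, e q * algebraMap K C (∑ t, M (Sum.inr t) q * a t) +
            algebraMap K C (∑ t, r (Sum.inr t) * a t) := by
          simp only [Algebra.smul_def, h6, mul_add, sum_add_distrib, map_sum, map_mul, mul_sum]
          congr 1
          · rw [sum_comm]
            exact sum_congr rfl (fun q _ => sum_congr rfl (fun t _ => by ring))
          · exact sum_congr rfl (fun t _ => by ring)
        have h8 : ∑ k, l k * Gb ((ζ : Fin s → Q) k) =
            ∑ q, e q * ∑ k, l k * algebraMap K C (∑ j, M (Sum.inl j) q * b.equivFun ((ζ : Fin s → Q) k) j) +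
            ∑ k, l k * algebraMap K C (∑ j, r (Sum.inl j) * b.equivFun ((ζ : Fin s → Q) k) j) := by
          simp only [hval, mul_add, sum_add_distrib, mul_sum]
          congr 1
          rw [sum_comm]
          exact sum_congr rfl (fun q _ => sum_congr rfl (fun k _ => by ring))
        have h9 : ev (Fin.cons (fun q => - ∑ t, M (Sum.inr t) q * a t) (Ψ ζ)) =
            ∑ q, e q * (algebraMap K C (- ∑ t, M (Sum.inr t) q * a t) +
              ∑ k, l k * algebraMap K C (∑ j, M (Sum.inl j) q * b.equivFun ((ζ : Fin s → Q) k) j)) := by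
          change ∑ q, e q * vk l' d _ q = _
          refine sum_congr rfl (fun q _ => ?_)
          rw [vk_apply, Fin.sum_univ_succ]
          simp only [hl', Fin.cons_zero, Fin.cons_succ, one_mul]
          rfl
        rw [h9, h7, h8]
        simp only [mul_add, sum_add_distrib, map_neg, mul_neg, sum_neg_distrib]
        ring
      rw [h5, ← hsum, add_sub_cancel_right]
      refine V.sub_mem hh (V.sub_mem (V.sum_mem fun k _ => V_alg (hl k) _) (hKV _))
    · rfl
  have h2 : finrank K R ≤ finrank K Z := by
    rw [← LinearMap.finrank_range_of_inj hΨinj]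
    exact (Submodule.finrank_mono hΨr).trans (Submodule.finrank_map_le pr Z)
  refine h2.trans (hZr.trans (Nat.mul_le_mul (by omega) (by omega)))

end

open Pool.Agent.R350 (UP gr gr_eq gr_eq_zero gr_surj gr_smul li_ev)
open Pool.Agent.D0H4.Rk (gr_sum)

/-- the hyperplane property of an ultraproduct -/
theorem hyp_LI {ι : Type} (𝒰 : Ultrafilter ι) {K C : Type} [Field K] [Field C] [Algebra K C]
    {V : ι → Submodule K C} (hV : ∀ t, Hyp (V t)) : Hyp (LI 𝒰 V) := by
  intro d N x a hx ha hxa hcol
  choose x' hx' using fun i => gr_surj 𝒰 (x i)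
  choose a' ha' haa using fun i j => ha i j
  have h1 : ∀ᶠ t in (𝒰 : Filter ι), LinearIndependent K (fun j i => a' i j t) := by
    refine li_ev 𝒰 (fun j i => a' i j) ?_
    have h2 : (fun j i => gr 𝒰 C (a' i j)) = fun j i => a i j := by
      funext j i
      exact haa i j
    rw [h2]
    exact hcol
  have h2 : ∀ᶠ t in (𝒰 : Filter ι), LinearIndependent K (fun i => x' i t) := by
    have h3 := li_ev 𝒰 (κ := K) (C := C) (τ := Unit) (fun i _ => x' i) (by
      have h4 : (fun (j : Fin d) (_ : Unit) => gr 𝒰 C (x' j)) = fun j _ => x j := by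
        funext j _
        exact hx' j
      rw [h4]
      refine LinearIndependent.of_comp (LinearMap.proj ()) ?_
      exact hx)
    refine h3.mono (fun t ht => ?_)
    rw [Fintype.linearIndependent_iff] at ht ⊢
    intro c hc
    refine ht c ?_
    funext u
    rw [Finset.sum_apply]
    exact hc
  have h3 : ∀ᶠ t in (𝒰 : Filter ι), ∀ j, ∑ i, x' i t * a' i j t = 0 := by
    rw [Filter.eventually_all]
    intro j
    rw [← gr_eq_zero 𝒰, ← hxa j]
    symm
    rw [← gr_sum]
    refine Finset.sum_congr rfl (fun i _ => ?_)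
    rw [← hx' i, ← haa i j, ← map_mul]
    rfl
  obtain ⟨t, ⟨h4, h5⟩, h6⟩ := ((h1.and h2).and h3).exists
  exact hV t d N (fun i => x' i t) (fun i j => a' i j t) h5 (fun i j => ha' i j t) h6 h4

end Pool.Agent.D0H4.Lv
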