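import Pool.Agent.D0H4.Lv.CoreB
import Pool.Agent.D0H4.Tr.Ultra3
import Pool.Agent.R350.HB

/-!
# Transfer to ultraproducts: spaces of values
-/

set_option autoImplicit false

namespace Pool.Agent.D0H4.Lv

open Module Filter
open Pool.Agent.R350 (UP gr gr_eq gr_eq_zero gr_surj cst cst_apply algebraMap_gr gr_smul LU LU_of_fin)
open Pool.Agent.D0H4.Rk (ev_exists gr_sum li_evK)
open Pool.Agent.D0H4.Tr (Col2 Col3 gr_comb gr_comb')

section

variable {ι : Type} (𝒰 : Ultrafilter ι)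

/-- the internal space of a family of spaces -/
noncomputable def LI {κ C : Type} [Field κ] [Field C] [Algebra κ C] (L : ι → Submodule κ C) :
    Submodule (UP 𝒰 κ) (UP 𝒰 C) where
  carrier := {z | ∃ f : ι → C, (∀ t, f t ∈ L t) ∧ gr 𝒰 C f = z}
  add_mem' := by
    rintro _ _ ⟨f, hf, rfl⟩ ⟨g, hg, rfl⟩
    exact ⟨f + g, fun t => (L t).add_mem (hf t) (hg t), map_add _ _ _⟩
  zero_mem' := ⟨0, fun t => (L t).zero_mem, map_zero _⟩
  smul_mem' := by
    rintro c _ ⟨f, hf, rfl⟩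
    obtain ⟨a, rfl⟩ := gr_surj 𝒰 c
    exact ⟨fun t => a t • f t, fun t => (L t).smul_mem _ (hf t), (gr_smul 𝒰 a f).symm⟩

theorem mem_LI {κ C : Type} [Field κ] [Field C] [Algebra κ C] {L : ι → Submodule κ C} {f : ι → C} :
    gr 𝒰 C f ∈ LI 𝒰 L ↔ ∀ᶠ t in (𝒰 : Filter ι), f t ∈ L t := by
  classical
  constructor
  · rintro ⟨g, hg, h⟩
    rw [gr_eq] at h
    exact h.mono fun t ht => by rw [← ht]; exact hg t
  · intro h
    refine ⟨fun t => if f t ∈ L t then f t else 0, fun t => ?_, ?_⟩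
    · simp only []
      split_ifs with h1
      · exact h1
      · exact (L t).zero_mem
    · rw [gr_eq]
      exact h.mono fun t ht => by simp only [ht, if_true]

theorem LU_le_LI {κ C : Type} [Field κ] [Field C] [Algebra κ C] {V L : Submodule κ C} (h : V ≤ L) :
    LU 𝒰 V ≤ LI 𝒰 (fun _ => L) := by
  unfold LU
  refine Submodule.span_le.mpr ?_
  rintro _ ⟨z, hz, rfl⟩
  exact ⟨fun _ => z, fun _ => h hz, rfl⟩

/-- values of internal polynomials in a finite dimensional space -/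
theorem mem_fin {κ C : Type} [Field κ] [Field C] [Algebra κ C] {L V : Submodule κ C} [FiniteDimensional κ V]
    {f : ι → C} (hf : ∀ t, f t ∈ V) (h : gr 𝒰 C f ∈ LI 𝒰 (fun _ => L)) : gr 𝒰 C f ∈ LU 𝒰 (V ⊓ L) := by
  classical
  rw [mem_LI] at h
  have hfd : FiniteDimensional κ (V ⊓ L : Submodule κ C) :=
    Submodule.finiteDimensional_of_le (inf_le_left : V ⊓ L ≤ V)
  have h1 : gr 𝒰 C f = gr 𝒰 C (fun t => if f t ∈ L then f t else 0) := by
    rw [gr_eq]
    exact h.mono fun t ht => by simp only [ht, if_true]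
  rw [h1]
  refine LU_of_fin 𝒰 _ (fun t => ?_)
  split_ifs with h2
  · exact ⟨hf t, h2⟩
  · exact Submodule.zero_mem _

/-- a derivation which is zero on the constants preserves the space -/
theorem der_LU {κ C : Type} [Field κ] [Field C] [Algebra κ C] (D : Derivation ℤ (UP 𝒰 C) (UP 𝒰 C))
    (hD1 : ∀ c : UP 𝒰 κ, ∃ c' : UP 𝒰 κ, D (algebraMap _ _ c) = algebraMap _ _ c')
    (hD2 : ∀ z : C, D (cst 𝒰 C z) = 0) (V : Submodule κ C) {w : UP 𝒰 C} (hw : w ∈ LU 𝒰 V) : D w ∈ LU 𝒰 V := by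
  refine Submodule.span_induction (p := fun w _ => D w ∈ LU 𝒰 V) ?_ ?_ ?_ ?_ hw
  · rintro _ ⟨z, hz, rfl⟩
    rw [hD2]
    exact Submodule.zero_mem _
  · rw [map_zero]
    exact Submodule.zero_mem _
  · intro a b _ _ ha hb
    rw [map_add]
    exact Submodule.add_mem _ ha hb
  · intro c a ha' ha
    obtain ⟨c', hc'⟩ := hD1 c
    rw [Algebra.smul_def, D.leibniz, hc', smul_eq_mul, smul_eq_mul, mul_comm a,
      ← Algebra.smul_def, ← Algebra.smul_def]
    exact Submodule.add_mem _ (Submodule.smul_mem _ _ ha) (Submodule.smul_mem _ _ ha')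

/-- the property `Col3` of an ultraproduct -/
theorem col3_U {κ₀ κ C : Type} [Field κ₀] [Field κ] [Field C] [Algebra κ₀ C] [Algebra κ C] {s n m c : ℕ}
    (L : ι → Submodule κ C) (l : ι → Fin s → C) (h : ∀ t, Col3 κ₀ κ C (L t) s n m c (l t)) :
    Col3 (UP 𝒰 κ₀) (UP 𝒰 κ) (UP 𝒰 C) (LI 𝒰 L) s n m c (fun k => gr 𝒰 C (fun t => l t k)) := by
  classical
  intro G ω
  choose G' hG' using fun i => gr_surj 𝒰 (G i)
  choose ω' hω' using fun i => gr_surj 𝒰 (ω i)
  choose K hK hK2 using fun t => h t (fun i => G' i t) (fun i => ω' i t)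
  obtain ⟨K₀, hK₀⟩ := ev_exists 𝒰 (J := Finset (Fin s)) (p := fun t j => K t = j)
    (Filter.Eventually.of_forall fun t => ⟨K t, rfl⟩)
  refine ⟨K₀, ?_, fun x hx hxK => ?_⟩
  · obtain ⟨t, ht⟩ := hK₀.exists
    rw [← ht]
    exact hK t
  · obtain ⟨a, h, ⟨h', hh', rfl⟩, ha⟩ := hx
    choose x' hx' using fun k i => gr_surj 𝒰 (x k i)
    choose a' ha' using fun i => gr_surj 𝒰 (a i)
    have h1 : ∀ k, ∑ i, G i * algebraMap (UP 𝒰 κ₀) (UP 𝒰 C) (x k i) =
        gr 𝒰 C (fun t => ∑ i, G' i t * algebraMap κ₀ C (x' k i t)) := by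
      intro k
      simp only [← hG', ← hx']
      exact gr_comb 𝒰 _ _ _
    have h2 : ∑ i, G i * ∑ k, gr 𝒰 C (fun t => l t k) * algebraMap (UP 𝒰 κ₀) (UP 𝒰 C) (x k i) =
        gr 𝒰 C (fun t => ∑ i, G' i t * ∑ k, l t k * algebraMap κ₀ C (x' k i t)) := by
      rw [← gr_sum]
      refine Finset.sum_congr rfl (fun i _ => ?_)
      simp only [← hG', ← hx']
      rw [gr_comb, ← map_mul]
      rfl
    have h3 : ∑ t, algebraMap (UP 𝒰 κ) (UP 𝒰 C) (a t) * ω t + gr 𝒰 C h' =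
        gr 𝒰 C (fun u => ∑ t, algebraMap κ C (a' t u) * ω' t u + h' u) := by
      simp only [← ha', ← hω']
      rw [gr_comb', ← map_add]
      rfl
    rw [h2, h3, gr_eq] at ha
    have h4 : ∀ᶠ t in (𝒰 : Filter ι), ∀ k : K₀, ∃ b : κ, ∑ i, G' i t * algebraMap κ₀ C (x' k i t) =
        algebraMap κ C b := by
      rw [Filter.eventually_all]
      intro k
      obtain ⟨b, hb⟩ := hxK k k.2
      obtain ⟨b, rfl⟩ := gr_surj 𝒰 b
      rw [h1, algebraMap_gr, gr_eq] at hb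
      exact hb.mono fun t ht => ⟨b t, ht⟩
    have h5 : ∀ᶠ t in (𝒰 : Filter ι), ∀ k, ∃ b : κ, ∑ i, G' i t * algebraMap κ₀ C (x' k i t) =
        algebraMap κ C b := by
      refine ((ha.and h4).and hK₀).mono (fun t ht => ?_)
      obtain ⟨⟨h6, h7⟩, h8⟩ := ht
      exact hK2 t (fun k i => x' k i t) ⟨fun i => a' i t, h' t, hh' t, h6⟩
        (fun k hk => h7 ⟨k, by rw [← h8]; exact hk⟩)
    intro k
    have h6 : ∀ t, ∃ b : κ, (∃ b : κ, ∑ i, G' i t * algebraMap κ₀ C (x' k i t) = algebraMap κ C b) →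
        ∑ i, G' i t * algebraMap κ₀ C (x' k i t) = algebraMap κ C b := by
      intro t
      by_cases h : ∃ b : κ, ∑ i, G' i t * algebraMap κ₀ C (x' k i t) = algebraMap κ C b
      · obtain ⟨b, hb⟩ := h
        exact ⟨b, fun _ => hb⟩
      · exact ⟨0, fun h' => absurd h' h⟩
    choose b hb using h6
    refine ⟨gr 𝒰 κ b, ?_⟩
    rw [h1, algebraMap_gr, gr_eq]
    exact h5.mono fun t ht => hb t (ht k)

/-- the property `Good` of an ultraproduct -/
theorem notGood_U {κ₀ κ C : Type} [Field κ₀] [Field κ] [Field C] [CharZero C]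
    [Algebra κ₀ C] [Algebra κ C] {n f : ℕ} (L : ι → Submodule κ C) (Q : ι → Set (MvPolynomial (Fin n) C))
    (QU : Set (MvPolynomial (Fin n) (UP 𝒰 C))) (hne : ∀ t, (Q t).Nonempty)
    (hQ : ∀ P : ι → MvPolynomial (Fin n) C, (∀ t, P t ∈ Q t) → ∃ PU ∈ QU, ∀ v : Fin n → ι → C,
      MvPolynomial.eval (fun i => gr 𝒰 C (v i)) PU = gr 𝒰 C (fun t => MvPolynomial.eval (fun i => v i t) (P t)))
    (y : ι → Fin n → C) (h : ∀ t, ¬ Good κ₀ κ (L t) (Q t) f (y t)) :
    ¬ Good (UP 𝒰 κ₀) (UP 𝒰 κ) (LI 𝒰 L) QU f (fun i => gr 𝒰 C (fun t => y t i)) := by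
  classical
  rintro ⟨w, hw, hP⟩
  choose w' hw' using fun a i => gr_surj 𝒰 (w a i)
  have hwe : (fun a => fun i => gr 𝒰 κ₀ (w' a i)) = w := by
    funext a i
    exact hw' a i
  rw [← hwe] at hw
  have hli := li_evK (C := C) 𝒰 w' hw
  have h1 : ∀ t : ι, ∃ P : MvPolynomial (Fin n) C, P ∈ Q t ∧ (LinearIndependent κ₀ (fun a => fun i => w' a i t) →
      MvPolynomial.eval (y t) P ∈ L t ∧ ∀ c : Fin f → κ, ¬ ((MvPolynomial.eval (y t) P = 0 → c = 0) ∧
        ∀ z : Fin f → C, MvPolynomial.eval (fun i => y t i + ∑ a, z a * algebraMap κ₀ C (w' a i t)) P =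
          MvPolynomial.eval (y t) P + ∑ a, z a * algebraMap κ C (c a))) := by
    intro t
    by_cases ht : LinearIndependent κ₀ (fun a => fun i => w' a i t)
    · have h2 := h t
      by_contra hcon
      push Not at hcon
      refine h2 ⟨fun a i => w' a i t, ht, fun P hP0 hP1 => ?_⟩
      obtain ⟨-, h3⟩ := hcon P hP0
      obtain ⟨c, h4, h5⟩ := h3 hP1
      exact ⟨c, h4, h5⟩
    · obtain ⟨P, hP⟩ := hne t
      exact ⟨P, hP, fun h' => absurd h' ht⟩
  choose P hP1 hP2 using h1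
  obtain ⟨PU, hPU, hev⟩ := hQ P hP1
  have hv : gr 𝒰 C (fun t => MvPolynomial.eval (y t) (P t)) ∈ LI 𝒰 L := by
    rw [mem_LI]
    exact hli.mono fun t ht => (hP2 t ht).1
  have hev0 : MvPolynomial.eval (fun i => gr 𝒰 C (fun t => y t i)) PU =
      gr 𝒰 C (fun t => MvPolynomial.eval (y t) (P t)) := hev (fun i t => y t i)
  obtain ⟨c, hc0, hc⟩ := hP PU hPU (by rw [hev0]; exact hv)
  choose c' hc' using fun a => gr_surj 𝒰 (c a)
  -- the witness of the failure
  have h3 : ∀ t, ∃ z : Fin f → C, (¬ ∀ z : Fin f → C,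
      MvPolynomial.eval (fun i => y t i + ∑ a, z a * algebraMap κ₀ C (w' a i t)) (P t) =
        MvPolynomial.eval (y t) (P t) + ∑ a, z a * algebraMap κ C (c' a t)) →
      ¬ MvPolynomial.eval (fun i => y t i + ∑ a, z a * algebraMap κ₀ C (w' a i t)) (P t) =
        MvPolynomial.eval (y t) (P t) + ∑ a, z a * algebraMap κ C (c' a t) := by
    intro t
    by_cases h4 : ∀ z : Fin f → C,
      MvPolynomial.eval (fun i => y t i + ∑ a, z a * algebraMap κ₀ C (w' a i t)) (P t) =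
        MvPolynomial.eval (y t) (P t) + ∑ a, z a * algebraMap κ C (c' a t)
    · exact ⟨0, fun h5 => absurd h4 h5⟩
    · have h5 := h4
      push Not at h5
      obtain ⟨z, hz⟩ := h5
      exact ⟨z, fun _ => hz⟩
  choose z hz using h3
  have h4 := hc (fun a => gr 𝒰 C (fun t => z t a))
  have h5 : (fun i => gr 𝒰 C (fun t => y t i) + ∑ a, gr 𝒰 C (fun t => z t a) *
      algebraMap (UP 𝒰 κ₀) (UP 𝒰 C) (w a i)) =
      fun i => gr 𝒰 C (fun t => y t i + ∑ a, z t a * algebraMap κ₀ C (w' a i t)) := by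
    funext i
    simp only [← hw']
    rw [gr_comb, ← map_add]
    rfl
  have h6 : gr 𝒰 C (fun t => MvPolynomial.eval (y t) (P t)) + ∑ a, gr 𝒰 C (fun t => z t a) *
      algebraMap (UP 𝒰 κ) (UP 𝒰 C) (c a) =
      gr 𝒰 C (fun t => MvPolynomial.eval (y t) (P t) + ∑ a, z t a * algebraMap κ C (c' a t)) := by
    simp only [← hc']
    rw [gr_comb, ← map_add]
    rfl
  rw [h5, hev, hev0, h6, gr_eq] at h4
  -- the zeros
  have h7 : ∀ᶠ t in (𝒰 : Filter ι), MvPolynomial.eval (y t) (P t) = 0 → (fun a => c' a t) = 0 := by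
    by_cases h8 : gr 𝒰 C (fun t => MvPolynomial.eval (y t) (P t)) = 0
    · have h9 := hc0 (by rw [hev0]; exact h8)
      have h10 : ∀ᶠ t in (𝒰 : Filter ι), ∀ a, c' a t = 0 := by
        rw [Filter.eventually_all]
        intro a
        rw [← gr_eq_zero 𝒰, hc', h9]
        rfl
      exact h10.mono fun t ht _ => funext ht
    · have h9 : ∀ᶠ t in (𝒰 : Filter ι), ¬ MvPolynomial.eval (y t) (P t) = 0 := by
        rw [Ultrafilter.eventually_not, ← gr_eq_zero 𝒰]
        exact h8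
      exact h9.mono fun t ht h => absurd h ht
  obtain ⟨t, ⟨ht1, ht2⟩, ht3⟩ := ((h4.and h7).and hli).exists
  refine (hP2 t ht3).2 (fun a => c' a t) ⟨ht2, ?_⟩
  by_contra hcon
  exact hz t hcon ht1

end

end Pool.Agent.D0H4.Lv
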