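import Pool.Agent.D0H4.Lv.Gen

/-!
# Dimension and counting for all polynomials with coefficients in a finite dimensional space
-/

set_option autoImplicit false

namespace Pool.Agent.D0H4.Lv

open Module Filter
open Pool.Agent.R350 (UP gr gr_eq gr_eq_zero gr_surj cst cst_apply algebraMap_gr gr_smul charZero_UP
  mem_box support_box coeff_sum_mon support_sum_mon eq_sum_mon eval_U eval_box degreeOf_box
  finite_mul finite_pow prod_mem_pow)
open Pool.Agent.D0H4.Rk (gr_sum pb)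
open Pool.Agent.D0H4.Tr (Cl Col2 Col3 col2_U chain2 gr_comb gr_comb')

section

variable {ι : Type} (𝒰 : Ultrafilter ι)

theorem Cl_U {κ C : Type} [Field κ] [Field C] [Algebra κ C] {D m n : ℕ} (ω : ι → Fin m → C)
    (P : ι → MvPolynomial (Fin n) C) (hP : ∀ t, P t ∈ Cl κ D (n := n) (ω t)) :
    ∃ PU ∈ Cl (UP 𝒰 κ) D (n := n) (fun u => gr 𝒰 C (fun t => ω t u)), ∀ v : Fin n → ι → C,
      MvPolynomial.eval (fun i => gr 𝒰 C (v i)) PU = gr 𝒰 C (fun t => MvPolynomial.eval (fun i => v i t) (P t)) := by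
  classical
  refine ⟨∑ γ ∈ Pool.Agent.R350.box n D, MvPolynomial.monomial γ (gr 𝒰 C (fun t => (P t).coeff γ)),
    ⟨fun i => degreeOf_box (support_sum_mon _ _) i, fun γ => ?_⟩, fun v => ?_⟩
  · rw [coeff_sum_mon]
    split_ifs
    · choose a ha using fun t => (hP t).2 γ
      refine ⟨fun u => gr 𝒰 κ (fun t => a t u), ?_⟩
      rw [gr_comb']
      congr 1
      funext t
      exact ha t
    · exact ⟨0, by simp⟩
  · rw [eval_U]
    congr 1
    funext t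
    rw [← eq_sum_mon (support_box (hP t).1)]

/-- the values are in a finite dimensional space -/
theorem value_fin {κ C : Type} [Field κ] [Field C] [Algebra κ C] {D m n : ℕ} (V0 : Submodule κ C)
    [FiniteDimensional κ V0] (h1 : (1 : C) ∈ V0) (ω : Fin m → C) (y : ι → Fin n → C) (hy : ∀ t i, y t i ∈ V0)
    (P : MvPolynomial (Fin n) (UP 𝒰 C)) (hP : P ∈ Cl (UP 𝒰 κ) D (n := n) (fun u => gr 𝒰 C (fun _ => ω u))) :
    ∃ (V : Submodule κ C) (f : ι → C), FiniteDimensional κ V ∧ (∀ t, f t ∈ V) ∧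
      MvPolynomial.eval (fun i => gr 𝒰 C (fun t => y t i)) P = gr 𝒰 C f := by
  classical
  obtain ⟨hP1, hP2⟩ := hP
  choose a ha using hP2
  choose a' ha' using fun γ u => gr_surj 𝒰 (a γ u)
  have hco : ∀ γ, P.coeff γ = gr 𝒰 C (fun t => ∑ u, algebraMap κ C (a' γ u t) * ω u) := by
    intro γ
    rw [ha]
    simp only [← ha']
    exact gr_comb' 𝒰 _ _ _
  have hfd0 : FiniteDimensional κ (V0 ^ D : Submodule κ C) := finite_pow V0 D
  have hfd1 : FiniteDimensional κ ((V0 ^ D) ^ n : Submodule κ C) := finite_pow _ n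
  have hfd2 : FiniteDimensional κ (Submodule.span κ (Set.range ω)) :=
    FiniteDimensional.span_of_finite κ (Set.finite_range ω)
  refine ⟨(V0 ^ D) ^ n * Submodule.span κ (Set.range ω), fun t => MvPolynomial.eval (fun i => y t i)
    (∑ γ ∈ Pool.Agent.R350.box n D, MvPolynomial.monomial γ (∑ u, algebraMap κ C (a' γ u t) * ω u)),
    finite_mul _ _, fun t => ?_, ?_⟩
  · simp only []
    rw [eval_box (support_sum_mon _ _)]
    refine Submodule.sum_mem _ (fun γ hγ => ?_)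
    rw [coeff_sum_mon, if_pos hγ]
    refine Submodule.mul_mem_mul (prod_mem_pow V0 h1 _ (fun i => hy t i) γ (mem_box.1 hγ))
      (Submodule.sum_mem _ fun u _ => ?_)
    rw [← Algebra.smul_def]
    exact Submodule.smul_mem _ _ (Submodule.subset_span ⟨u, rfl⟩)
  · conv_lhs => rw [eq_sum_mon (support_box hP1)]
    simp only [hco]
    exact eval_U 𝒰 _ _ _

end

/-- a finite dimensional space which contains the coordinates of the points -/
theorem pb_fin {κ₀ κ C : Type} [Field κ₀] [Field κ] [Field C] [Algebra κ₀ κ] [Algebra κ₀ C] [Algebra κ C]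
    [IsScalarTower κ₀ κ C] {s n : ℕ} (l : Fin s → C) (β : Fin n → C) :
    ∃ V0 : Submodule κ C, FiniteDimensional κ V0 ∧ (1 : C) ∈ V0 ∧ ∀ (b : Fin s × Fin n → κ₀) i, pb l β b i ∈ V0 := by
  refine ⟨Submodule.span κ (insert 1 (Set.range β ∪ Set.range l)), FiniteDimensional.span_of_finite _
    (((Set.finite_range β).union (Set.finite_range l)).insert 1), Submodule.subset_span (Set.mem_insert _ _),
    fun b i => ?_⟩
  refine Submodule.add_mem _ (Submodule.subset_span (Set.mem_insert_of_mem _ (Or.inl ⟨i, rfl⟩)))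
    (Submodule.sum_mem _ fun k _ => ?_)
  rw [IsScalarTower.algebraMap_apply κ₀ κ C, mul_comm, ← Algebra.smul_def]
  exact Submodule.smul_mem _ _ (Submodule.subset_span (Set.mem_insert_of_mem _ (Or.inr ⟨k, rfl⟩)))

/-- the tower of the ultrapowers -/
theorem tower_U {ι : Type} (𝒰 : Ultrafilter ι) {κ₀ κ C : Type} [Field κ₀] [Field κ] [Field C] [Algebra κ₀ κ]
    [Algebra κ₀ C] [Algebra κ C] [IsScalarTower κ₀ κ C] : IsScalarTower (UP 𝒰 κ₀) (UP 𝒰 κ) (UP 𝒰 C) := by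
  refine IsScalarTower.of_algebraMap_eq (fun a => ?_)
  obtain ⟨a, rfl⟩ := gr_surj 𝒰 a
  rw [algebraMap_gr, algebraMap_gr, algebraMap_gr]
  congr 1
  funext t
  exact IsScalarTower.algebraMap_apply κ₀ κ C _

/-- the coordinates of a generic point -/
theorem pb_U {ι : Type} (𝒰 : Ultrafilter ι) {κ₀ C : Type} [Field κ₀] [Field C] [Algebra κ₀ C] {s n : ℕ}
    (l : ι → Fin s → C) (β : ι → Fin n → C) (b : ι → Fin s × Fin n → κ₀) (i : Fin n) :
    gr 𝒰 C (fun t => pb (l t) (β t) (b t) i) = gr 𝒰 C (fun t => β t i) + ∑ k, gr 𝒰 C (fun t => l t k) *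
      algebraMap (UP 𝒰 κ₀) (UP 𝒰 C) (gr 𝒰 κ₀ (fun t => b t (k, i))) := by
  rw [gr_comb, ← map_add]
  rfl

/-- the derivative of the coordinates -/
theorem der_pb {ι : Type} (𝒰 : Ultrafilter ι) {κ₀ C : Type} [Field κ₀] [Field C] [Algebra κ₀ C] {s n : ℕ}
    (l : Fin s → C) (β : Fin n → C) (b : ι → Fin s × Fin n → κ₀) (D : Derivation ℤ (UP 𝒰 C) (UP 𝒰 C))
    (d : Derivation ℤ (UP 𝒰 κ₀) (UP 𝒰 κ₀)) (h1 : ∀ c : UP 𝒰 κ₀, D (algebraMap _ _ c) = algebraMap _ _ (d c))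
    (h2 : ∀ z : C, D (cst 𝒰 C z) = 0) (i : Fin n) :
    D (gr 𝒰 C (fun t => pb l β (b t) i)) = ∑ k, gr 𝒰 C (fun _ => l k) *
      algebraMap (UP 𝒰 κ₀) (UP 𝒰 C) (d (gr 𝒰 κ₀ (fun t => b t (k, i)))) := by
  rw [pb_U 𝒰 (fun _ => l) (fun _ => β) b, map_add]
  have h3 : ∀ z : C, D (gr 𝒰 C (fun _ => z)) = 0 := h2
  rw [h3, zero_add, map_sum]
  refine Finset.sum_congr rfl (fun k _ => ?_)
  rw [D.leibniz, h3, smul_zero, add_zero, smul_eq_mul, h1]

/-- **Dimension, fixed data.** -/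
theorem dim_fixedB {κ₀ κ C : Type} [Field κ₀] [CharZero κ₀] [Field κ] [CharZero κ] [Field C] [CharZero C]
    [Algebra κ₀ κ] [Algebra κ₀ C] [Algebra κ C] [IsScalarTower κ₀ κ C] {s n m D c : ℕ} (L : Submodule κ C)
    (l : Fin s → C) (hcol2 : Col2 κ₀ κ C s n (m * (D + 1) ^ n) c l)
    (hcol3 : Col3 κ₀ κ C L s n (m * (D + 1) ^ n) c l) (β : Fin n → C) (ω : Fin m → C)
    (h1 : ∃ a : Fin m → κ, ∑ t, algebraMap κ C (a t) * ω t = 1) {e S : ℕ}
    (hS : s * e + n * c < S) (φ : Fin S → Fin s × Fin n → κ₀) :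
    ∃ Δ : MvPolynomial (Fin S) κ₀, Δ ≠ 0 ∧ ∀ b ∈ {b | ¬ Good κ₀ κ L (Cl κ D (n := n) ω) (e + 1) (pb l β b)},
      MvPolynomial.eval (fun q => ∑ x, φ q x * b x) Δ = 0 := by
  classical
  refine fixed_gen (κ := κ) (C := C) φ _ (fun 𝒰 Dr d₀ hD1 hD2 hD3 hli => ?_)
  have hch1 : CharZero (UP 𝒰 κ₀) := charZero_UP 𝒰
  have hch2 : CharZero (UP 𝒰 C) := charZero_UP 𝒰
  have htow : IsScalarTower (UP 𝒰 κ₀) (UP 𝒰 κ) (UP 𝒰 C) := tower_U 𝒰
  refine notGood_U 𝒰 (κ₀ := κ₀) (κ := κ) (f := e + 1) (fun _ => L) (fun _ => Cl κ D (n := n) ω)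
    (Cl (UP 𝒰 κ) D (n := n) (fun u => gr 𝒰 C (fun _ => ω u)))
    (fun _ => ⟨0, fun i => by rw [MvPolynomial.degreeOf_zero]; exact Nat.zero_le _, fun γ => ⟨0, by simp⟩⟩)
    (fun P hP => Cl_U 𝒰 (fun _ => ω) P hP) (fun b => pb l β b.1) (fun b => b.2) ?_
  set x : Fin S → Fin s → Fin n → UP 𝒰 κ₀ := fun q k i => d₀ q (gr 𝒰 κ₀ (fun b => b.1 (k, i))) with hx
  set T : Submodule (UP 𝒰 κ₀) (Fin s → Fin n → UP 𝒰 κ₀) := Submodule.span _ (Set.range x) with hT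
  have hxli : LinearIndependent (UP 𝒰 κ₀) x := by
    rw [Fintype.linearIndependent_iff] at hli ⊢
    intro g hg
    refine hli g ?_
    funext p
    have h2 := congrFun (congrFun hg p.1) p.2
    simp only [Finset.sum_apply, Pi.smul_apply, hx] at h2 ⊢
    exact h2
  have hTr : finrank (UP 𝒰 κ₀) T = S := by
    rw [hT, finrank_span_eq_card hxli, Fintype.card_fin]
  refine coreB (κ₀ := UP 𝒰 κ₀) (κ := UP 𝒰 κ) (C := UP 𝒰 C) (c := c)
    (fun a => ⟨algebraMap (UP 𝒰 κ₀) (UP 𝒰 κ) a, (IsScalarTower.algebraMap_apply _ _ _ _).symm⟩)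
    (fun k => gr 𝒰 C (fun _ => l k)) (LI 𝒰 (fun _ => L)) (col2_U 𝒰 (fun _ => l) (fun _ => hcol2))
    (col3_U 𝒰 (fun _ => L) (fun _ => l) (fun _ => hcol3)) (fun u => gr 𝒰 C (fun _ => ω u)) ?_
    (fun i => gr 𝒰 C (fun b => pb l β b.1 i)) T ?_ (by rw [hTr]; exact hS)
  · obtain ⟨a, ha⟩ := h1
    refine ⟨fun t => gr 𝒰 κ (fun _ => a t), ?_⟩
    rw [gr_comb', ← map_one (gr 𝒰 C)]
    congr 1
    funext t
    exact ha
  · intro P hP hPL v hv
    refine Submodule.span_induction (p := fun v _ => ∃ (a : (Fin n →₀ ℕ) → Fin m → UP 𝒰 κ) (h : UP 𝒰 C),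
      h ∈ LI 𝒰 (fun _ => L) ∧ (MvPolynomial.eval (fun i => gr 𝒰 C (fun b => pb l β b.1 i)) P = 0 → h = 0) ∧
      ∑ i, MvPolynomial.eval (fun i => gr 𝒰 C (fun b => pb l β b.1 i)) (MvPolynomial.pderiv i P) *
        ∑ k, gr 𝒰 C (fun _ => l k) * algebraMap (UP 𝒰 κ₀) (UP 𝒰 C) (v k i) =
        ∑ γ ∈ Pool.Agent.R350.box n D, (∏ i, (gr 𝒰 C (fun b => pb l β b.1 i)) ^ γ i) *
          ∑ t, algebraMap (UP 𝒰 κ) (UP 𝒰 C) (a γ t) * gr 𝒰 C (fun _ => ω t) + h) ?_ ?_ ?_ ?_ hv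
    · rintro _ ⟨q, rfl⟩
      -- the derivative of the value
      obtain ⟨V0, hV0, h1V0, hyV0⟩ := pb_fin (κ₀ := κ₀) (κ := κ) l β
      obtain ⟨V, f, hV, hfV, hf⟩ := value_fin 𝒰 V0 h1V0 ω (fun b => pb l β b.1) (fun b i => hyV0 _ i) P hP
      have hval : Dr q (MvPolynomial.eval (fun i => gr 𝒰 C (fun b => pb l β b.1 i)) P) ∈ LI 𝒰 (fun _ => L) := by
        refine LU_le_LI 𝒰 (inf_le_right : V ⊓ L ≤ L) (der_LU 𝒰 (Dr q) (hD2 q) (hD3 q) (V ⊓ L) ?_)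
        rw [hf] at hPL ⊢
        exact mem_fin 𝒰 hfV hPL
      obtain ⟨hP1, hP2⟩ := hP
      choose a ha using hP2
      choose a' ha' using fun c => hD2 q c
      refine ⟨fun γ t => - a' (a γ t), Dr q (MvPolynomial.eval (fun i => gr 𝒰 C (fun b => pb l β b.1 i)) P),
        hval, fun h0 => by rw [h0, map_zero], ?_⟩
      have h1 := chain2 (Dr q) (fun i => gr 𝒰 C (fun b => pb l β b.1 i)) (Pool.Agent.R350.box n D) P
        (support_box hP1)
      have h2 : ∀ γ, Dr q (P.coeff γ) = ∑ t, algebraMap (UP 𝒰 κ) (UP 𝒰 C) (a' (a γ t)) *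
          gr 𝒰 C (fun _ => ω t) := by
        intro γ
        rw [ha, map_sum]
        refine Finset.sum_congr rfl (fun t _ => ?_)
        have h3 : Dr q (gr 𝒰 C (fun _ => ω t)) = 0 := hD3 q (ω t)
        rw [(Dr q).leibniz, h3, smul_zero, zero_add, smul_eq_mul, ha', mul_comm]
      have h3 : ∀ i, Dr q (gr 𝒰 C (fun b => pb l β b.1 i)) = ∑ k, gr 𝒰 C (fun _ => l k) *
          algebraMap (UP 𝒰 κ₀) (UP 𝒰 C) (x q k i) := fun i => der_pb 𝒰 l β _ (Dr q) (d₀ q) (hD1 q) (hD3 q) i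
      simp only [h2, h3] at h1
      rw [h1]
      simp only [map_neg, neg_mul, Finset.sum_neg_distrib, mul_neg]
      ring
    · exact ⟨0, 0, Submodule.zero_mem _, fun _ => rfl, by simp⟩
    · rintro v v' _ _ ⟨a, h, hh, hh0, ha⟩ ⟨a', h', hh', hh0', ha'⟩
      refine ⟨a + a', h + h', Submodule.add_mem _ hh hh', fun h0 => by rw [hh0 h0, hh0' h0, add_zero], ?_⟩
      simp only [Pi.add_apply, map_add, mul_add, add_mul, Finset.sum_add_distrib, ha, ha']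
      ring
    · rintro g v _ ⟨a, h, hh, hh0, ha⟩
      have hg' : algebraMap (UP 𝒰 κ) (UP 𝒰 C) (algebraMap (UP 𝒰 κ₀) (UP 𝒰 κ) g) =
          algebraMap (UP 𝒰 κ₀) (UP 𝒰 C) g := (IsScalarTower.algebraMap_apply _ _ _ _).symm
      set g' : UP 𝒰 κ := algebraMap (UP 𝒰 κ₀) (UP 𝒰 κ) g with hg'd
      refine ⟨fun γ t => g' * a γ t, algebraMap (UP 𝒰 κ₀) (UP 𝒰 C) g * h, ?_, fun h0 => by rw [hh0 h0, mul_zero], ?_⟩
      · rw [← hg', ← Algebra.smul_def]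
        exact Submodule.smul_mem _ _ hh
      have h1 : ∀ i, ∑ k, gr 𝒰 C (fun _ => l k) * algebraMap (UP 𝒰 κ₀) (UP 𝒰 C) ((g • v) k i) =
          algebraMap (UP 𝒰 κ₀) (UP 𝒰 C) g * ∑ k, gr 𝒰 C (fun _ => l k) *
            algebraMap (UP 𝒰 κ₀) (UP 𝒰 C) (v k i) := by
        intro i
        rw [Finset.mul_sum]
        refine Finset.sum_congr rfl (fun k _ => ?_)
        rw [Pi.smul_apply, Pi.smul_apply, smul_eq_mul, map_mul]
        ring
      simp only [h1]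
      have h2 : ∀ i, MvPolynomial.eval (fun i => gr 𝒰 C (fun b => pb l β b.1 i)) (MvPolynomial.pderiv i P) *
          (algebraMap (UP 𝒰 κ₀) (UP 𝒰 C) g * ∑ k, gr 𝒰 C (fun _ => l k) *
            algebraMap (UP 𝒰 κ₀) (UP 𝒰 C) (v k i)) = algebraMap (UP 𝒰 κ₀) (UP 𝒰 C) g *
          (MvPolynomial.eval (fun i => gr 𝒰 C (fun b => pb l β b.1 i)) (MvPolynomial.pderiv i P) *
          (∑ k, gr 𝒰 C (fun _ => l k) * algebraMap (UP 𝒰 κ₀) (UP 𝒰 C) (v k i))) := by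
        intro i
        ring
      simp only [h2]
      rw [← Finset.mul_sum, ha, mul_add, Finset.mul_sum]
      congr 1
      refine Finset.sum_congr rfl (fun γ _ => ?_)
      simp only [map_mul, hg', Finset.mul_sum]
      refine Finset.sum_congr rfl (fun t _ => ?_)
      ring

/-- the data of the theorem -/
structure DataB (κ₀ κ C : Type) [Field κ₀] [Field κ] [Field C] [Algebra κ₀ C] [Algebra κ C] (s n m D c : ℕ) where
  /-- the space of the values -/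
  L : Submodule κ C
  /-- the logarithms -/
  l : Fin s → C
  /-- the generators -/
  ω : Fin m → C
  /-- the shift -/
  β : Fin n → C
  hcol2 : Col2 κ₀ κ C s n (m * (D + 1) ^ n) c l
  hcol3 : Col3 κ₀ κ C L s n (m * (D + 1) ^ n) c l
  h1 : ∃ a : Fin m → κ, ∑ t, algebraMap κ C (a t) * ω t = 1

/-- **Dimension, uniform.** -/
theorem dim_unifB (κ₀ κ C : Type) [Field κ₀] [CharZero κ₀] [Field κ] [CharZero κ] [Field C] [CharZero C]
    [Algebra κ₀ κ] [Algebra κ₀ C] [Algebra κ C] [IsScalarTower κ₀ κ C] (s n m D c e S : ℕ)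
    (hS : s * e + n * c < S) :
    ∃ E : ℕ, ∀ (d : DataB κ₀ κ C s n m D c) (φ : Fin S → Fin s × Fin n → κ₀),
      ∃ Δ : MvPolynomial (Fin S) κ₀, Δ ≠ 0 ∧ Δ.totalDegree ≤ E ∧
      ∀ b ∈ {b | ¬ Good κ₀ κ d.L (Cl κ D (n := n) d.ω) (e + 1) (pb d.l d.β b)},
        MvPolynomial.eval (fun q => ∑ x, φ q x * b x) Δ = 0 := by
  classical
  refine unif_gen κ₀ S (fun d : DataB κ₀ κ C s n m D c =>
    {b | ¬ Good κ₀ κ d.L (Cl κ D (n := n) d.ω) (e + 1) (pb d.l d.β b)}) (fun 𝒰 d φ => ?_)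
  have hch1 : CharZero (UP 𝒰 κ₀) := charZero_UP 𝒰
  have hch2 : CharZero (UP 𝒰 C) := charZero_UP 𝒰
  have hch3 : CharZero (UP 𝒰 κ) := charZero_UP 𝒰
  have htow : IsScalarTower (UP 𝒰 κ₀) (UP 𝒰 κ) (UP 𝒰 C) := tower_U 𝒰
  obtain ⟨Δ, hΔ0, hΔ⟩ := dim_fixedB (κ₀ := UP 𝒰 κ₀) (κ := UP 𝒰 κ) (C := UP 𝒰 C) (LI 𝒰 (fun t => (d t).L))
    (fun k => gr 𝒰 C (fun t => (d t).l k)) (col2_U 𝒰 (fun t => (d t).l) (fun t => (d t).hcol2))
    (col3_U 𝒰 (fun t => (d t).L) (fun t => (d t).l) (fun t => (d t).hcol3)) (fun i => gr 𝒰 C (fun t => (d t).β i))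
    (fun u => gr 𝒰 C (fun t => (d t).ω u)) (by
      choose a ha using fun t => (d t).h1
      refine ⟨fun u => gr 𝒰 κ (fun t => a t u), ?_⟩
      rw [gr_comb', ← map_one (gr 𝒰 C)]
      congr 1
      funext t
      exact ha t) hS (fun q x => gr 𝒰 κ₀ (fun t => φ t q x))
  refine ⟨Δ, hΔ0, fun b hb => hΔ (fun x => gr 𝒰 κ₀ (fun t => b t x)) ?_⟩
  have hpt : pb (fun k => gr 𝒰 C (fun t => (d t).l k)) (fun i => gr 𝒰 C (fun t => (d t).β i))
      (fun x => gr 𝒰 κ₀ (fun t => b t x)) = fun i => gr 𝒰 C (fun t => pb (d t).l (d t).β (b t) i) := by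
    funext i
    exact (pb_U 𝒰 (fun t => (d t).l) (fun t => (d t).β) b i).symm
  change ¬ Good _ _ _ _ _ (pb _ _ _)
  rw [hpt]
  exact notGood_U 𝒰 (κ₀ := κ₀) (κ := κ) (f := e + 1) (fun t => (d t).L) (fun t => Cl κ D (n := n) (d t).ω)
    (Cl (UP 𝒰 κ) D (n := n) (fun u => gr 𝒰 C (fun t => (d t).ω u)))
    (fun _ => ⟨0, fun i => by rw [MvPolynomial.degreeOf_zero]; exact Nat.zero_le _, fun γ => ⟨0, by simp⟩⟩)
    (fun P hP => Cl_U 𝒰 (fun t => (d t).ω) P hP) (fun t => pb (d t).l (d t).β (b t)) (fun t => hb t)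

/-- **Counting.** -/
theorem countB (κ₀ κ C : Type) [Field κ₀] [CharZero κ₀] [Field κ] [CharZero κ] [Field C] [CharZero C]
    [Algebra κ₀ κ] [Algebra κ₀ C] [Algebra κ C] [IsScalarTower κ₀ κ C] (s n m D c e : ℕ) :
    ∃ K : ℕ, ∀ (d : DataB κ₀ κ C s n m D c) (M : ℕ), 1 ≤ M →
      Set.ncard {x : Fin s → Fin n → ℤ | (∀ k i, |x k i| ≤ M) ∧
        ¬ Good κ₀ κ d.L (Cl κ D (n := n) d.ω) (e + 1) (fun i => d.β i + ∑ k, d.l k * (x k i : C))} ≤
        K * M ^ (s * e + n * c) := by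
  obtain ⟨K, hK⟩ := count_gen κ₀ (s * e + n * c) s n (fun d : DataB κ₀ κ C s n m D c =>
    {b | ¬ Good κ₀ κ d.L (Cl κ D (n := n) d.ω) (e + 1) (pb d.l d.β b)})
    (dim_unifB κ₀ κ C s n m D c e (s * e + n * c + 1) (Nat.lt_succ_self _))
  refine ⟨K, fun d M hM => ?_⟩
  have h1 := hK d M hM
  have h3 : ∀ x : Fin s → Fin n → ℤ, pb d.l d.β (fun y : Fin s × Fin n => (x y.1 y.2 : κ₀)) =
      fun i => d.β i + ∑ k, d.l k * (x k i : C) := by
    intro x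
    funext i
    simp only [pb, map_intCast]
  simp only [Set.mem_ofPred_eq, h3] at h1
  exact h1

end Pool.Agent.D0H4.Lv
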