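import Pool.Agent.D0H4.Lv.CoreK

/-!
# Dimension and counting with sharp exponents
-/

set_option autoImplicit false

namespace Pool.Agent.D0H4.Lv

open Module Filter MvPolynomial
open Pool.Agent.W254.PA (Hyp)
open Pool.Agent.R350 (UP gr gr_eq gr_eq_zero gr_surj cst cst_apply algebraMap_gr gr_smul charZero_UP
  box mem_box support_box coeff_sum_mon support_sum_mon eq_sum_mon eval_U eval_box LU)
open Pool.Agent.D0H4.Rk (gr_sum pb ev_exists)
open Pool.Agent.D0H4.Tr (chain2 gr_comb gr_comb')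

section ultra

variable {ι : Type} (𝒰 : Ultrafilter ι) {K C : Type} [Field K] [Field C] [Algebra K C]

theorem LI_bot : LI 𝒰 (fun _ : ι => (⊥ : Submodule K C)) = ⊥ := by
  rw [eq_bot_iff]
  rintro _ ⟨f, hf, rfl⟩
  have h1 : f = 0 := funext fun t => (Submodule.mem_bot K).mp (hf t)
  rw [h1, map_zero]
  exact Submodule.zero_mem _

theorem LI_sup {g : ℕ} (V : ι → Submodule K C) (p : ι → Fin g → C) :
    LI 𝒰 (fun t => V t ⊔ Submodule.span K (Set.range (p t))) =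
      LI 𝒰 V ⊔ Submodule.span (UP 𝒰 K) (Set.range fun j => gr 𝒰 C (fun t => p t j)) := by
  apply le_antisymm
  · rintro _ ⟨f, hf, rfl⟩
    have h1 : ∀ t, ∃ h ∈ V t, ∃ a : Fin g → K, h + ∑ j, a j • p t j = f t := by
      intro t
      obtain ⟨h, hh, u, hu, hsum⟩ := Submodule.mem_sup.mp (hf t)
      obtain ⟨a, rfl⟩ := (Submodule.mem_span_range_iff_exists_fun K).mp hu
      exact ⟨h, hh, a, hsum⟩
    choose h hh a ha using h1
    have h2 : gr 𝒰 C f = gr 𝒰 C h + ∑ j, gr 𝒰 K (fun t => a t j) • gr 𝒰 C (fun t => p t j) := by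
      simp only [gr_smul]
      rw [gr_sum, ← map_add]
      congr 1
      funext t
      exact (ha t).symm
    rw [h2]
    exact Submodule.add_mem_sup ⟨h, hh, rfl⟩
      (Submodule.sum_mem _ fun j _ => Submodule.smul_mem _ _ (Submodule.subset_span ⟨j, rfl⟩))
  · refine sup_le ?_ ?_
    · rintro _ ⟨f, hf, rfl⟩
      exact ⟨f, fun t => Submodule.mem_sup_left (hf t), rfl⟩
    · refine Submodule.span_le.mpr ?_
      rintro _ ⟨j, rfl⟩
      exact ⟨fun t => p t j, fun t => Submodule.mem_sup_right (Submodule.subset_span ⟨j, rfl⟩), rfl⟩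

theorem li_gr {s : ℕ} (l : ι → Fin s → C) (h : ∀ t, LinearIndependent K (l t)) :
    LinearIndependent (UP 𝒰 K) (fun k => gr 𝒰 C (fun t => l t k)) := by
  rw [Fintype.linearIndependent_iff]
  intro c hc
  choose c' hc' using fun k => gr_surj 𝒰 (c k)
  have h1 : ∀ᶠ t in (𝒰 : Filter ι), ∑ k, c' k t • l t k = 0 := by
    rw [← gr_eq_zero 𝒰, ← hc]
    simp only [← hc', gr_smul]
    exact (gr_sum 𝒰 Finset.univ (fun k t => c' k t • l t k)).symm
  have h2 : ∀ᶠ t in (𝒰 : Filter ι), ∀ k, c' k t = 0 :=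
    h1.mono fun t ht => Fintype.linearIndependent_iff.mp (h t) _ ht
  intro k
  rw [← hc' k, gr_eq_zero]
  exact h2.mono fun t ht => ht k

theorem li_gr1 {s : ℕ} (l : ι → Fin s → C) (h : ∀ t, LinearIndependent K (Fin.cons 1 (l t) : Fin (s + 1) → C)) :
    LinearIndependent (UP 𝒰 K) (Fin.cons 1 (fun k => gr 𝒰 C (fun t => l t k)) : Fin (s + 1) → UP 𝒰 C) := by
  have h1 := li_gr 𝒰 (fun t => (Fin.cons 1 (l t) : Fin (s + 1) → C)) h
  have h2 : (fun k => gr 𝒰 C (fun t => (Fin.cons 1 (l t) : Fin (s + 1) → C) k)) =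
      (Fin.cons 1 (fun k => gr 𝒰 C (fun t => l t k)) : Fin (s + 1) → UP 𝒰 C) := by
    funext k
    refine Fin.cases ?_ (fun k => ?_) k
    · simp only [Fin.cons_zero]
      exact map_one (gr 𝒰 C)
    · simp only [Fin.cons_succ]
  rw [← h2]
  exact h1

end ultra

/-- the coefficients and the values of the members of a family -/
theorem famK {ι : Type} (𝒰 : Ultrafilter ι) {K C : Type} [Field K] [CharZero K] [Field C] [CharZero C] [Algebra K C]
    {s n τ d S : ℕ} {J : Type} (L : Submodule K C) (l : Fin s → C) (β : Fin n → C)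
    (F : J → MvPolynomial (Fin n) (MvPolynomial (Fin τ) C)) (hF : ∀ j, Bd d (F j)) (b : ι → Fin s × Fin n → K)
    (z : ι → Fin τ → K) (Dr : Fin S → Derivation ℤ (UP 𝒰 C) (UP 𝒰 C)) (d₀ : Fin S → Derivation ℤ (UP 𝒰 K) (UP 𝒰 K))
    (hD1 : ∀ q (c : UP 𝒰 K), Dr q (algebraMap _ _ c) = algebraMap _ _ (d₀ q c))
    (hD3 : ∀ q (z : C), Dr q (cst 𝒰 C z) = 0) (P : MvPolynomial (Fin n) (UP 𝒰 C))
    (hP : P ∈ Fam (fun j => FU 𝒰 d (fun _ => F j)) (fun i => gr 𝒰 K (fun t => z t i))) :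
    (∀ a ∈ LinearMap.ker (dvl d₀ (fun i : Fin τ => gr 𝒰 K (fun t => z t i))), ∀ γ, DD Dr a (P.coeff γ) = 0) ∧
    (eval (fun i => gr 𝒰 C (fun t => pb l β (b t) i)) P ∈ LI 𝒰 (fun _ => L) → ∀ a : Fin S → UP 𝒰 K,
      DD Dr a (eval (fun i => gr 𝒰 C (fun t => pb l β (b t) i)) P) ∈ LI 𝒰 (fun _ => L)) := by
  classical
  have hch2 : CharZero (UP 𝒰 C) := charZero_UP 𝒰
  obtain ⟨j, rfl⟩ := hP
  refine ⟨fun a ha γ => ?_, fun hPL a => ?_⟩
  · have ha' : ∀ i, DD Dr a (algebraMap (UP 𝒰 K) (UP 𝒰 C) (gr 𝒰 K (fun b => z b i))) = 0 := by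
      intro i
      rw [DD_apply]
      simp only [hD1, ← map_mul, ← map_sum]
      have h1 := congrFun (LinearMap.mem_ker.mp ha) i
      rw [dvl_apply] at h1
      rw [h1]
      exact map_zero _
    have hc : ∀ x : C, DD Dr a (gr 𝒰 C (fun _ => x)) = 0 := by
      intro x
      rw [DD_apply]
      refine Finset.sum_eq_zero (fun q _ => ?_)
      have h1 : Dr q (gr 𝒰 C (fun _ => x)) = 0 := hD3 q x
      rw [h1, mul_zero]
    rw [coeff_sp, coeff_FU]
    split_ifs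
    · rw [chain2 (DD Dr a) _ (box τ d) _ (support_sum_mon _ _)]
      simp only [ha', mul_zero, Finset.sum_const_zero, add_zero]
      refine Finset.sum_eq_zero (fun δ hδ => ?_)
      rw [coeff_sum_mon, if_pos hδ, hc, mul_zero]
    · rw [map_zero, map_zero]
  · obtain ⟨V0, hV0, h1V0, hyV0⟩ := pb_fin (κ₀ := K) (κ := K) l β
    obtain ⟨V, hV, hVF⟩ := value_finA V0 h1V0 (F j) (hF j)
    have hval : eval (fun i => gr 𝒰 C (fun t => pb l β (b t) i)) (sp (fun i => algebraMap (UP 𝒰 K) (UP 𝒰 C)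
        (gr 𝒰 K (fun t => z t i))) (FU 𝒰 d (fun _ => F j))) =
        gr 𝒰 C (fun t => eval (pb l β (b t)) (sp (fun i => algebraMap K C (z t i)) (F j))) := by
      simp only [algebraMap_gr]
      exact eval_FU 𝒰 (fun _ => hF j) (fun i t => pb l β (b t) i) (fun i t => algebraMap K C (z t i))
    rw [hval] at hPL ⊢
    have h1 := mem_fin 𝒰 (L := L) (V := V) (f := fun t => eval (pb l β (b t))
      (sp (fun i => algebraMap K C (z t i)) (F j))) (fun t => hVF (pb l β (b t)) (hyV0 (b t)) (z t)) hPL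
    rw [DD_apply]
    refine Submodule.sum_mem _ (fun q _ => ?_)
    have h3 := LU_le_LI 𝒰 (inf_le_right : V ⊓ L ≤ L)
      (der_LU 𝒰 (Dr q) (fun c => ⟨d₀ q c, hD1 q c⟩) (hD3 q) (V ⊓ L) h1)
    rw [← Algebra.smul_def]
    exact Submodule.smul_mem _ _ h3

theorem T0_dim {K : Type*} [Field K] {S τ : ℕ} (θ : (Fin S → K) →ₗ[K] (Fin τ → K)) :
    S ≤ finrank K (LinearMap.ker θ) + τ := by
  have h1 := LinearMap.finrank_range_add_finrank_ker θ
  have h2 := Submodule.finrank_le (LinearMap.range θ)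
  rw [Module.finrank_fintype_fun_eq_card, Fintype.card_fin] at h1 h2
  omega

/-- **Dimension, fixed data, zeros.** -/
theorem dim_fixedK0 {K C : Type} [Field K] [CharZero K] [Field C] [CharZero C] [Algebra K C] {s n τ d : ℕ} {J : Type}
    [Finite J] [Nonempty J] (V : Submodule K C) (hV : Hyp V) (l : Fin s → C) (hl : ∀ k, l k ∈ V)
    (hli : LinearIndependent K l) (β : Fin n → C) (F : J → MvPolynomial (Fin n) (MvPolynomial (Fin τ) C))
    (hF : ∀ j, Bd d (F j)) {e S : ℕ} (hS : s * e + (n - e) * (n - 1) + τ < S) (φ : Fin S → Fin s × Fin n → K) :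
    ∃ Δ : MvPolynomial (Fin S) K, Δ ≠ 0 ∧
      ∀ b ∈ {b : Fin s × Fin n → K | ∃ t : Fin τ → K, ¬ Good K K (⊥ : Submodule K C) (Fam F t) (e + 1) (pb l β b)},
      eval (fun q => ∑ x, φ q x * b x) Δ = 0 := by
  classical
  refine fixed_gen (κ := K) (C := C) φ _ (fun 𝒰 Dr d₀ hD1 hD2 hD3 hind => ?_)
  have hch1 : CharZero (UP 𝒰 K) := charZero_UP 𝒰
  have hch2 : CharZero (UP 𝒰 C) := charZero_UP 𝒰
  choose z hz using fun b : {b : Fin s × Fin n → K | ∃ t : Fin τ → K,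
    ¬ Good K K (⊥ : Submodule K C) (Fam F t) (e + 1) (pb l β b)} => b.2
  refine notGood_U 𝒰 (κ₀ := K) (κ := K) (f := e + 1) (fun _ => ⊥) (fun b => Fam F (z b))
    (Fam (fun j => FU 𝒰 d (fun _ => F j)) (fun i => gr 𝒰 K (fun b => z b i)))
    (fun _ => ⟨_, Classical.arbitrary J, rfl⟩)
    (fun P hP => Fam_U 𝒰 (fun _ => F) (fun _ => hF) z P hP) (fun b => pb l β b.1) (fun b => hz b) ?_
  rw [LI_bot]
  refine coreK0 (hyp_LI 𝒰 (fun _ => hV)) Dr d₀ hD1 (fun k => gr 𝒰 C (fun _ => l k)) (fun k => ⟨fun _ => l k, fun _ => hl k, rfl⟩)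
    (li_gr 𝒰 (fun _ => l) (fun _ => hli)) (fun k i => gr 𝒰 K (fun b => b.1 (k, i)))
    (fun i => gr 𝒰 C (fun b => pb l β b.1 i)) (fun q i => der_pb 𝒰 l β _ (Dr q) (d₀ q) (hD1 q) (hD3 q) i) hind
    _ (T0_dim (dvl d₀ (fun i : Fin τ => gr 𝒰 K (fun b => z b i)))) _ ?_ hS
  intro P hP a ha γ
  exact (famK 𝒰 (⊥ : Submodule K C) l β F hF (fun b => b.1) z Dr d₀ hD1 hD3 P hP).1 a ha γ

/-- **Dimension, fixed data, values.** -/
theorem dim_fixedK1 {K C : Type} [Field K] [CharZero K] [Field C] [CharZero C] [Algebra K C] {s n g τ d : ℕ} {J : Type}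
    [Finite J] [Nonempty J] (V : Submodule K C) (hV : Hyp V) (hV1 : (1 : C) ∈ V) (l : Fin s → C) (hl : ∀ k, l k ∈ V)
    (hli : LinearIndependent K (Fin.cons 1 l : Fin (s + 1) → C)) (p : Fin g → C) (β : Fin n → C)
    (F : J → MvPolynomial (Fin n) (MvPolynomial (Fin τ) C)) (hF : ∀ j, Bd d (F j)) {e S : ℕ}
    (hS : s * e + (n - e) * (n + g ^ 2 + 3 * g + 1) + τ < S) (φ : Fin S → Fin s × Fin n → K) :
    ∃ Δ : MvPolynomial (Fin S) K, Δ ≠ 0 ∧
      ∀ b ∈ {b : Fin s × Fin n → K | ∃ t : Fin τ → K,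
        ¬ Good K K (V ⊔ Submodule.span K (Set.range p)) (Fam F t) (e + 1) (pb l β b)},
      eval (fun q => ∑ x, φ q x * b x) Δ = 0 := by
  classical
  refine fixed_gen (κ := K) (C := C) φ _ (fun 𝒰 Dr d₀ hD1 hD2 hD3 hind => ?_)
  have hch1 : CharZero (UP 𝒰 K) := charZero_UP 𝒰
  have hch2 : CharZero (UP 𝒰 C) := charZero_UP 𝒰
  choose z hz using fun b : {b : Fin s × Fin n → K | ∃ t : Fin τ → K,
    ¬ Good K K (V ⊔ Submodule.span K (Set.range p)) (Fam F t) (e + 1) (pb l β b)} => b.2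
  refine notGood_U 𝒰 (κ₀ := K) (κ := K) (f := e + 1) (fun _ => V ⊔ Submodule.span K (Set.range p))
    (fun b => Fam F (z b)) (Fam (fun j => FU 𝒰 d (fun _ => F j)) (fun i => gr 𝒰 K (fun b => z b i)))
    (fun _ => ⟨_, Classical.arbitrary J, rfl⟩)
    (fun P hP => Fam_U 𝒰 (fun _ => F) (fun _ => hF) z P hP) (fun b => pb l β b.1) (fun b => hz b) ?_
  have hLI := LI_sup 𝒰 (fun _ => V) (fun _ => p)
  have h1 : ∀ P ∈ Fam (fun j => FU 𝒰 d (fun _ => F j)) (fun i => gr 𝒰 K (fun b => z b i)), _ := fun P hP =>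
    famK 𝒰 (V ⊔ Submodule.span K (Set.range p)) l β F hF (fun b => b.1) z Dr d₀ hD1 hD3 P hP
  rw [hLI] at h1 ⊢
  refine coreK1 (hyp_LI 𝒰 (fun _ => hV)) ⟨fun _ => 1, fun _ => hV1, map_one (gr 𝒰 C)⟩ Dr d₀ hD1
    (fun k => gr 𝒰 C (fun _ => l k)) (fun k => ⟨fun _ => l k, fun _ => hl k, rfl⟩)
    (li_gr1 𝒰 (fun _ => l) (fun _ => hli)) (fun j => gr 𝒰 C (fun _ => p j)) (fun k i => gr 𝒰 K (fun b => b.1 (k, i)))
    (fun i => gr 𝒰 C (fun b => pb l β b.1 i)) (fun q i => der_pb 𝒰 l β _ (Dr q) (d₀ q) (hD1 q) (hD3 q) i) hind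
    _ (T0_dim (dvl d₀ (fun i : Fin τ => gr 𝒰 K (fun b => z b i)))) _ (fun P hP => ?_) hS
  exact ⟨(h1 P hP).1, fun hPL a _ => (h1 P hP).2 hPL a⟩

/-- the data of the theorem, for zeros -/
structure DataK0 (K C : Type) [Field K] [Field C] [Algebra K C] (s n τ d : ℕ) (J : Type) where
  /-- the space of logarithms -/
  V : Submodule K C
  hV : Hyp V
  /-- the logarithms -/
  l : Fin s → C
  hl : ∀ k, l k ∈ V
  hli : LinearIndependent K l
  /-- the polynomials -/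
  F : J → MvPolynomial (Fin n) (MvPolynomial (Fin τ) C)
  hF : ∀ j, Bd d (F j)
  /-- the shift -/
  β : Fin n → C

/-- the data of the theorem, for values -/
structure DataK1 (K C : Type) [Field K] [Field C] [Algebra K C] (s n g τ d : ℕ) (J : Type) where
  /-- the space of logarithms -/
  V : Submodule K C
  hV : Hyp V
  hV1 : (1 : C) ∈ V
  /-- the logarithms -/
  l : Fin s → C
  hl : ∀ k, l k ∈ V
  hli : LinearIndependent K (Fin.cons 1 l : Fin (s + 1) → C)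
  /-- the further numbers -/
  p : Fin g → C
  /-- the polynomials -/
  F : J → MvPolynomial (Fin n) (MvPolynomial (Fin τ) C)
  hF : ∀ j, Bd d (F j)
  /-- the shift -/
  β : Fin n → C

/-- **Dimension, uniform, zeros.** -/
theorem dim_unifK0 (K C : Type) [Field K] [CharZero K] [Field C] [CharZero C] [Algebra K C] (s n τ d e S : ℕ)
    (J : Type) [Finite J] [Nonempty J] (hS : s * e + (n - e) * (n - 1) + τ < S) :
    ∃ E : ℕ, ∀ (dt : DataK0 K C s n τ d J) (φ : Fin S → Fin s × Fin n → K),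
      ∃ Δ : MvPolynomial (Fin S) K, Δ ≠ 0 ∧ Δ.totalDegree ≤ E ∧
      ∀ b ∈ {b : Fin s × Fin n → K | ∃ t : Fin τ → K,
        ¬ Good K K (⊥ : Submodule K C) (Fam dt.F t) (e + 1) (pb dt.l dt.β b)},
        eval (fun q => ∑ x, φ q x * b x) Δ = 0 := by
  classical
  refine unif_gen K S (fun dt : DataK0 K C s n τ d J =>
    {b : Fin s × Fin n → K | ∃ t : Fin τ → K, ¬ Good K K (⊥ : Submodule K C) (Fam dt.F t) (e + 1)
      (pb dt.l dt.β b)}) (fun 𝒰 dt φ => ?_)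
  have hch1 : CharZero (UP 𝒰 K) := charZero_UP 𝒰
  have hch2 : CharZero (UP 𝒰 C) := charZero_UP 𝒰
  obtain ⟨Δ, hΔ0, hΔ⟩ := dim_fixedK0 (K := UP 𝒰 K) (C := UP 𝒰 C) (LI 𝒰 (fun t => (dt t).V))
    (hyp_LI 𝒰 (fun t => (dt t).hV)) (fun k => gr 𝒰 C (fun t => (dt t).l k))
    (fun k => ⟨fun t => (dt t).l k, fun t => (dt t).hl k, rfl⟩) (li_gr 𝒰 (fun t => (dt t).l) (fun t => (dt t).hli))
    (fun i => gr 𝒰 C (fun t => (dt t).β i))
    (fun j => FU 𝒰 d (fun t => (dt t).F j)) (fun j => FU_Bd 𝒰 d _) hS (fun q x => gr 𝒰 K (fun t => φ t q x))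
  refine ⟨Δ, hΔ0, fun b hb => hΔ (fun x => gr 𝒰 K (fun t => b t x)) ?_⟩
  choose z hz using hb
  refine ⟨fun i => gr 𝒰 K (fun t => z t i), ?_⟩
  have hpt : pb (fun k => gr 𝒰 C (fun t => (dt t).l k)) (fun i => gr 𝒰 C (fun t => (dt t).β i))
      (fun x => gr 𝒰 K (fun t => b t x)) = fun i => gr 𝒰 C (fun t => pb (dt t).l (dt t).β (b t) i) := by
    funext i
    exact (pb_U 𝒰 (fun t => (dt t).l) (fun t => (dt t).β) b i).symm
  rw [hpt, ← LI_bot 𝒰]
  exact notGood_U 𝒰 (κ₀ := K) (κ := K) (f := e + 1) (fun _ => ⊥) (fun t => Fam (dt t).F (z t))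
    (Fam (fun j => FU 𝒰 d (fun t => (dt t).F j)) (fun i => gr 𝒰 K (fun t => z t i)))
    (fun _ => ⟨_, Classical.arbitrary J, rfl⟩)
    (fun P hP => Fam_U 𝒰 (fun t => (dt t).F) (fun t => (dt t).hF) z P hP)
    (fun t => pb (dt t).l (dt t).β (b t)) (fun t => hz t)

/-- **Dimension, uniform, values.** -/
theorem dim_unifK1 (K C : Type) [Field K] [CharZero K] [Field C] [CharZero C] [Algebra K C] (s n g τ d e S : ℕ)
    (J : Type) [Finite J] [Nonempty J] (hS : s * e + (n - e) * (n + g ^ 2 + 3 * g + 1) + τ < S) :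
    ∃ E : ℕ, ∀ (dt : DataK1 K C s n g τ d J) (φ : Fin S → Fin s × Fin n → K),
      ∃ Δ : MvPolynomial (Fin S) K, Δ ≠ 0 ∧ Δ.totalDegree ≤ E ∧
      ∀ b ∈ {b : Fin s × Fin n → K | ∃ t : Fin τ → K,
        ¬ Good K K (dt.V ⊔ Submodule.span K (Set.range dt.p)) (Fam dt.F t) (e + 1) (pb dt.l dt.β b)},
        eval (fun q => ∑ x, φ q x * b x) Δ = 0 := by
  classical
  refine unif_gen K S (fun dt : DataK1 K C s n g τ d J =>
    {b : Fin s × Fin n → K | ∃ t : Fin τ → K, ¬ Good K K (dt.V ⊔ Submodule.span K (Set.range dt.p)) (Fam dt.F t)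
      (e + 1) (pb dt.l dt.β b)}) (fun 𝒰 dt φ => ?_)
  have hch1 : CharZero (UP 𝒰 K) := charZero_UP 𝒰
  have hch2 : CharZero (UP 𝒰 C) := charZero_UP 𝒰
  obtain ⟨Δ, hΔ0, hΔ⟩ := dim_fixedK1 (K := UP 𝒰 K) (C := UP 𝒰 C) (LI 𝒰 (fun t => (dt t).V))
    (hyp_LI 𝒰 (fun t => (dt t).hV)) ⟨fun _ => 1, fun t => (dt t).hV1, map_one (gr 𝒰 C)⟩
    (fun k => gr 𝒰 C (fun t => (dt t).l k))
    (fun k => ⟨fun t => (dt t).l k, fun t => (dt t).hl k, rfl⟩) (li_gr1 𝒰 (fun t => (dt t).l) (fun t => (dt t).hli))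
    (fun j => gr 𝒰 C (fun t => (dt t).p j)) (fun i => gr 𝒰 C (fun t => (dt t).β i))
    (fun j => FU 𝒰 d (fun t => (dt t).F j)) (fun j => FU_Bd 𝒰 d _) hS (fun q x => gr 𝒰 K (fun t => φ t q x))
  refine ⟨Δ, hΔ0, fun b hb => hΔ (fun x => gr 𝒰 K (fun t => b t x)) ?_⟩
  choose z hz using hb
  refine ⟨fun i => gr 𝒰 K (fun t => z t i), ?_⟩
  have hpt : pb (fun k => gr 𝒰 C (fun t => (dt t).l k)) (fun i => gr 𝒰 C (fun t => (dt t).β i))
      (fun x => gr 𝒰 K (fun t => b t x)) = fun i => gr 𝒰 C (fun t => pb (dt t).l (dt t).β (b t) i) := by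
    funext i
    exact (pb_U 𝒰 (fun t => (dt t).l) (fun t => (dt t).β) b i).symm
  rw [hpt, ← LI_sup 𝒰 (fun t => (dt t).V) (fun t => (dt t).p)]
  exact notGood_U 𝒰 (κ₀ := K) (κ := K) (f := e + 1) (fun t => (dt t).V ⊔ Submodule.span K (Set.range (dt t).p))
    (fun t => Fam (dt t).F (z t))
    (Fam (fun j => FU 𝒰 d (fun t => (dt t).F j)) (fun i => gr 𝒰 K (fun t => z t i)))
    (fun _ => ⟨_, Classical.arbitrary J, rfl⟩)
    (fun P hP => Fam_U 𝒰 (fun t => (dt t).F) (fun t => (dt t).hF) z P hP)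
    (fun t => pb (dt t).l (dt t).β (b t)) (fun t => hz t)

/-- **Counting, zeros.** -/
theorem countK0 (K C : Type) [Field K] [CharZero K] [Field C] [CharZero C] [Algebra K C] (s n τ d e : ℕ)
    (J : Type) [Finite J] [Nonempty J] : ∃ N : ℕ, ∀ (dt : DataK0 K C s n τ d J) (M : ℕ), 1 ≤ M →
      Set.ncard {x : Fin s → Fin n → ℤ | (∀ k i, |x k i| ≤ M) ∧ ∃ t : Fin τ → K,
        ¬ Good K K (⊥ : Submodule K C) (Fam dt.F t) (e + 1) (fun i => dt.β i + ∑ k, dt.l k * (x k i : C))} ≤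
        N * M ^ (s * e + (n - e) * (n - 1) + τ) := by
  obtain ⟨N, hN⟩ := count_gen K (s * e + (n - e) * (n - 1) + τ) s n (fun dt : DataK0 K C s n τ d J =>
    {b : Fin s × Fin n → K | ∃ t : Fin τ → K, ¬ Good K K (⊥ : Submodule K C) (Fam dt.F t) (e + 1)
      (pb dt.l dt.β b)})
    (dim_unifK0 K C s n τ d e (s * e + (n - e) * (n - 1) + τ + 1) J (Nat.lt_succ_self _))
  refine ⟨N, fun dt M hM => ?_⟩
  have h1 := hN dt M hM
  have h3 : ∀ x : Fin s → Fin n → ℤ, pb dt.l dt.β (fun y : Fin s × Fin n => (x y.1 y.2 : K)) =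
      fun i => dt.β i + ∑ k, dt.l k * (x k i : C) := by
    intro x
    funext i
    simp only [pb, map_intCast]
  simp only [Set.mem_ofPred_eq, h3] at h1
  exact h1

/-- **Counting, values.** -/
theorem countK1 (K C : Type) [Field K] [CharZero K] [Field C] [CharZero C] [Algebra K C] (s n g τ d e : ℕ)
    (J : Type) [Finite J] [Nonempty J] : ∃ N : ℕ, ∀ (dt : DataK1 K C s n g τ d J) (M : ℕ), 1 ≤ M →
      Set.ncard {x : Fin s → Fin n → ℤ | (∀ k i, |x k i| ≤ M) ∧ ∃ t : Fin τ → K,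
        ¬ Good K K (dt.V ⊔ Submodule.span K (Set.range dt.p)) (Fam dt.F t) (e + 1)
          (fun i => dt.β i + ∑ k, dt.l k * (x k i : C))} ≤
        N * M ^ (s * e + (n - e) * (n + g ^ 2 + 3 * g + 1) + τ) := by
  obtain ⟨N, hN⟩ := count_gen K (s * e + (n - e) * (n + g ^ 2 + 3 * g + 1) + τ) s n
    (fun dt : DataK1 K C s n g τ d J =>
    {b : Fin s × Fin n → K | ∃ t : Fin τ → K, ¬ Good K K (dt.V ⊔ Submodule.span K (Set.range dt.p)) (Fam dt.F t)
      (e + 1) (pb dt.l dt.β b)})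
    (dim_unifK1 K C s n g τ d e (s * e + (n - e) * (n + g ^ 2 + 3 * g + 1) + τ + 1) J (Nat.lt_succ_self _))
  refine ⟨N, fun dt M hM => ?_⟩
  have h1 := hN dt M hM
  have h3 : ∀ x : Fin s → Fin n → ℤ, pb dt.l dt.β (fun y : Fin s × Fin n => (x y.1 y.2 : K)) =
      fun i => dt.β i + ∑ k, dt.l k * (x k i : C) := by
    intro x
    funext i
    simp only [pb, map_intCast]
  simp only [Set.mem_ofPred_eq, h3] at h1
  exact h1

end Pool.Agent.D0H4.Lv
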