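import Pool.Agent.D0H4.Lv.UltraB
import Pool.Agent.D0H4.Lv.CoreA

/-!
# Dimension and counting for families of fixed polynomials
-/

set_option autoImplicit false

namespace Pool.Agent.D0H4.Lv

open Module Filter MvPolynomial
open Pool.Agent.R350 (UP gr gr_eq gr_eq_zero gr_surj cst cst_apply algebraMap_gr gr_smul charZero_UP
  box mem_box support_box coeff_sum_mon support_sum_mon eq_sum_mon eval_U eval_box degreeOf_box
  finite_mul finite_pow prod_mem_pow LU)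
open Pool.Agent.D0H4.Rk (gr_sum pb ev_exists)
open Pool.Agent.D0H4.Tr (Col2 Col3 col2_U chain2 gr_comb gr_comb')

section poly

variable {R : Type*} [CommRing R] {n τ d : ℕ}

/-- degree at most `d` in each variable and each parameter -/
def Bd (d : ℕ) (F : MvPolynomial (Fin n) (MvPolynomial (Fin τ) R)) : Prop :=
  (∀ i, F.degreeOf i ≤ d) ∧ ∀ γ i, (F.coeff γ).degreeOf i ≤ d

/-- specialisation of the parameters -/
noncomputable def sp (t : Fin τ → R) (F : MvPolynomial (Fin n) (MvPolynomial (Fin τ) R)) : MvPolynomial (Fin n) R :=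
  MvPolynomial.map (eval t) F

theorem coeff_sp (t : Fin τ → R) (F : MvPolynomial (Fin n) (MvPolynomial (Fin τ) R)) (γ : Fin n →₀ ℕ) :
    (sp t F).coeff γ = eval t (F.coeff γ) := by
  rw [sp, coeff_map]

theorem support_sp (t : Fin τ → R) {F : MvPolynomial (Fin n) (MvPolynomial (Fin τ) R)} (hF : Bd d F) :
    (sp t F).support ⊆ box n d :=
  (support_map_subset _ _).trans (support_box hF.1)

end poly

section

variable {ι : Type} (𝒰 : Ultrafilter ι)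

/-- the ultraproduct of polynomials -/
noncomputable def FU {C : Type} [Field C] {n τ : ℕ} (d : ℕ) (F : ι → MvPolynomial (Fin n) (MvPolynomial (Fin τ) C)) :
    MvPolynomial (Fin n) (MvPolynomial (Fin τ) (UP 𝒰 C)) :=
  ∑ γ ∈ box n d, monomial γ (∑ δ ∈ box τ d, monomial δ (gr 𝒰 C (fun t => ((F t).coeff γ).coeff δ)))

theorem coeff_FU {C : Type} [Field C] {n τ : ℕ} (d : ℕ) (F : ι → MvPolynomial (Fin n) (MvPolynomial (Fin τ) C))
    (γ : Fin n →₀ ℕ) : (FU 𝒰 d F).coeff γ = if γ ∈ box n d then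
      ∑ δ ∈ box τ d, monomial δ (gr 𝒰 C (fun t => ((F t).coeff γ).coeff δ)) else 0 := by
  rw [FU, coeff_sum_mon]

theorem FU_Bd {C : Type} [Field C] {n τ : ℕ} (d : ℕ) (F : ι → MvPolynomial (Fin n) (MvPolynomial (Fin τ) C)) :
    Bd d (FU 𝒰 d F) := by
  refine ⟨fun i => degreeOf_box (support_sum_mon _ _) i, fun γ i => ?_⟩
  rw [coeff_FU]
  split_ifs
  · exact degreeOf_box (support_sum_mon _ _) i
  · rw [degreeOf_zero]
    exact Nat.zero_le _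

theorem eval_FU {C : Type} [Field C] {n τ : ℕ} {d : ℕ} {F : ι → MvPolynomial (Fin n) (MvPolynomial (Fin τ) C)}
    (hF : ∀ t, Bd d (F t)) (v : Fin n → ι → C) (z : Fin τ → ι → C) :
    eval (fun i => gr 𝒰 C (v i)) (sp (fun j => gr 𝒰 C (z j)) (FU 𝒰 d F)) =
      gr 𝒰 C (fun t => eval (fun i => v i t) (sp (fun j => z j t) (F t))) := by
  classical
  have h1 : sp (fun j => gr 𝒰 C (z j)) (FU 𝒰 d F) =
      ∑ γ ∈ box n d, monomial γ (gr 𝒰 C (fun t => eval (fun j => z j t) ((F t).coeff γ))) := by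
    rw [sp, FU, map_sum]
    refine Finset.sum_congr rfl (fun γ _ => ?_)
    rw [map_monomial, eval_U]
    congr 2
    funext t
    rw [← eq_sum_mon (support_box ((hF t).2 γ))]
  rw [h1, eval_U]
  congr 1
  funext t
  rw [eq_sum_mon (support_sp (fun j => z j t) (hF t))]
  simp only [coeff_sp]

theorem ind_U {κ C : Type} [Field κ] [Field C] [Algebra κ C] {s : ℕ} (l : ι → Fin s → C)
    (h : ∀ (t : ι) (c₀ : κ) (c : Fin s → κ), ∑ k, l t k * algebraMap κ C (c k) = algebraMap κ C c₀ → c₀ = 0)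
    (c₀ : UP 𝒰 κ) (c : Fin s → UP 𝒰 κ)
    (hc : ∑ k, gr 𝒰 C (fun t => l t k) * algebraMap (UP 𝒰 κ) (UP 𝒰 C) (c k) = algebraMap (UP 𝒰 κ) (UP 𝒰 C) c₀) :
    c₀ = 0 := by
  choose c' hc' using fun k => gr_surj 𝒰 (c k)
  obtain ⟨c₀', rfl⟩ := gr_surj 𝒰 c₀
  simp only [← hc'] at hc
  rw [gr_comb, algebraMap_gr, gr_eq] at hc
  rw [gr_eq_zero]
  exact hc.mono fun t ht => h t (c₀' t) (fun k => c' k t) ht

theorem LI_one {κ C : Type} [Field κ] [Field C] [Algebra κ C] (L : ι → Submodule κ C)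
    (h : ∀ t (z : κ), algebraMap κ C z ∈ L t) (z : UP 𝒰 κ) : algebraMap (UP 𝒰 κ) (UP 𝒰 C) z ∈ LI 𝒰 L := by
  obtain ⟨z, rfl⟩ := gr_surj 𝒰 z
  rw [algebraMap_gr, mem_LI]
  exact Filter.Eventually.of_forall fun t => h t _

end

/-- the values of a family are in a finite dimensional space -/
theorem value_finA {κ C : Type} [Field κ] [Field C] [Algebra κ C] {d τ n : ℕ} (V0 : Submodule κ C)
    [FiniteDimensional κ V0] (h1 : (1 : C) ∈ V0) (F : MvPolynomial (Fin n) (MvPolynomial (Fin τ) C)) (hF : Bd d F) :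
    ∃ V : Submodule κ C, FiniteDimensional κ V ∧ ∀ y : Fin n → C, (∀ i, y i ∈ V0) → ∀ t : Fin τ → κ,
      eval y (sp (fun j => algebraMap κ C (t j)) F) ∈ V := by
  classical
  have hfd0 : FiniteDimensional κ (V0 ^ d : Submodule κ C) := finite_pow V0 d
  have hfd1 : FiniteDimensional κ ((V0 ^ d) ^ n : Submodule κ C) := finite_pow _ n
  set ω : (box n d) × (box τ d) → C := fun x => (F.coeff (x.1 : Fin n →₀ ℕ)).coeff (x.2 : Fin τ →₀ ℕ) with hω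
  have hfd2 : FiniteDimensional κ (Submodule.span κ (Set.range ω)) :=
    FiniteDimensional.span_of_finite κ (Set.finite_range ω)
  refine ⟨(V0 ^ d) ^ n * Submodule.span κ (Set.range ω), finite_mul _ _, fun y hy t => ?_⟩
  rw [eval_box (support_sp _ hF)]
  refine Submodule.sum_mem _ (fun γ hγ => ?_)
  refine Submodule.mul_mem_mul (prod_mem_pow V0 h1 _ hy γ (mem_box.1 hγ)) ?_
  rw [coeff_sp, eval_box (support_box (hF.2 γ))]
  refine Submodule.sum_mem _ (fun δ hδ => ?_)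
  simp only [← map_pow, ← map_prod]
  rw [← Algebra.smul_def]
  exact Submodule.smul_mem _ _ (Submodule.subset_span ⟨(⟨γ, hγ⟩, ⟨δ, hδ⟩), rfl⟩)

/-- the class of the members of a family of polynomials -/
def Fam {κ₀ C : Type} [Field κ₀] [Field C] [Algebra κ₀ C] {J : Type} {n τ : ℕ}
    (F : J → MvPolynomial (Fin n) (MvPolynomial (Fin τ) C)) (t : Fin τ → κ₀) : Set (MvPolynomial (Fin n) C) :=
  {P | ∃ j, P = sp (fun i => algebraMap κ₀ C (t i)) (F j)}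

theorem Fam_U {ι : Type} (𝒰 : Ultrafilter ι) {κ₀ C : Type} [Field κ₀] [Field C] [Algebra κ₀ C] {J : Type} [Finite J]
    {n τ d : ℕ} (F : ι → J → MvPolynomial (Fin n) (MvPolynomial (Fin τ) C)) (hF : ∀ t j, Bd d (F t j))
    (z : ι → Fin τ → κ₀) (P : ι → MvPolynomial (Fin n) C) (hP : ∀ t, P t ∈ Fam (F t) (z t)) :
    ∃ PU ∈ Fam (fun j => FU 𝒰 d (fun t => F t j)) (fun i => gr 𝒰 κ₀ (fun t => z t i)), ∀ v : Fin n → ι → C,
      eval (fun i => gr 𝒰 C (v i)) PU = gr 𝒰 C (fun t => eval (fun i => v i t) (P t)) := by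
  choose j hj using hP
  obtain ⟨j₀, hj₀⟩ := ev_exists 𝒰 (J := J) (p := fun t j' => j t = j') (Filter.Eventually.of_forall fun t => ⟨j t, rfl⟩)
  refine ⟨_, ⟨j₀, rfl⟩, fun v => ?_⟩
  simp only [algebraMap_gr]
  rw [eval_FU 𝒰 (fun t => hF t j₀) v (fun i t => algebraMap κ₀ C (z t i)), gr_eq]
  refine hj₀.mono fun t ht => ?_
  rw [hj t, ht]

/-- **Dimension, fixed data.** -/
theorem dim_fixedA {κ₀ κ C : Type} [Field κ₀] [CharZero κ₀] [Field κ] [CharZero κ] [Field C] [CharZero C]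
    [Algebra κ₀ κ] [Algebra κ₀ C] [Algebra κ C] [IsScalarTower κ₀ κ C] {s n τ d c : ℕ} {J : Type} [Finite J]
    [Nonempty J] (L : Submodule κ C) (hL1 : ∀ z : κ, algebraMap κ C z ∈ L) (l : Fin s → C)
    (hli : ∀ (c₀ : κ) (c : Fin s → κ), ∑ k, l k * algebraMap κ C (c k) = algebraMap κ C c₀ → c₀ = 0)
    (hcol2 : Col2 κ₀ κ C s n 0 c l) (hcol3 : Col3 κ₀ κ C L s n 0 c l) (β : Fin n → C)
    (F : J → MvPolynomial (Fin n) (MvPolynomial (Fin τ) C)) (hF : ∀ j, Bd d (F j)) {e S : ℕ}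
    (hS : s * e + n * (c + n) + τ < S) (φ : Fin S → Fin s × Fin n → κ₀) :
    ∃ Δ : MvPolynomial (Fin S) κ₀, Δ ≠ 0 ∧
      ∀ b ∈ {b : Fin s × Fin n → κ₀ | ∃ t : Fin τ → κ₀, ¬ Good κ₀ κ L (Fam F t) (e + 1) (pb l β b)},
      eval (fun q => ∑ x, φ q x * b x) Δ = 0 := by
  classical
  refine fixed_gen (κ := κ) (C := C) φ _ (fun 𝒰 Dr d₀ hD1 hD2 hD3 hind => ?_)
  have hch1 : CharZero (UP 𝒰 κ₀) := charZero_UP 𝒰
  have hch2 : CharZero (UP 𝒰 C) := charZero_UP 𝒰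
  have htow : IsScalarTower (UP 𝒰 κ₀) (UP 𝒰 κ) (UP 𝒰 C) := tower_U 𝒰
  choose z hz using fun b : {b : Fin s × Fin n → κ₀ | ∃ t : Fin τ → κ₀, ¬ Good κ₀ κ L (Fam F t) (e + 1) (pb l β b)} => b.2
  refine notGood_U 𝒰 (κ₀ := κ₀) (κ := κ) (f := e + 1) (fun _ => L) (fun b => Fam F (z b))
    (Fam (fun j => FU 𝒰 d (fun _ => F j)) (fun i => gr 𝒰 κ₀ (fun b => z b i)))
    (fun _ => ⟨_, Classical.arbitrary J, rfl⟩)
    (fun P hP => Fam_U 𝒰 (fun _ => F) (fun _ => hF) z P hP) (fun b => pb l β b.1) (fun b => hz b) ?_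
  set T₀ : Submodule (UP 𝒰 κ₀) (Fin S → UP 𝒰 κ₀) :=
    LinearMap.ker (dvl d₀ (fun i : Fin τ => gr 𝒰 κ₀ (fun b => z b i))) with hT₀
  have hT₀r : S ≤ finrank (UP 𝒰 κ₀) T₀ + τ := by
    have h1 := LinearMap.finrank_range_add_finrank_ker (dvl d₀ (fun i : Fin τ => gr 𝒰 κ₀ (fun b => z b i)))
    have h2 := Submodule.finrank_le (LinearMap.range (dvl d₀ (fun i : Fin τ => gr 𝒰 κ₀ (fun b => z b i))))
    rw [Module.finrank_fintype_fun_eq_card, Fintype.card_fin] at h1 h2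
    rw [hT₀]
    omega
  refine coreA (κ₀ := UP 𝒰 κ₀) (κ := UP 𝒰 κ) (C := UP 𝒰 C) (c := c) (τ := τ)
    (fun a => ⟨algebraMap (UP 𝒰 κ₀) (UP 𝒰 κ) a, (IsScalarTower.algebraMap_apply _ _ _ _).symm⟩) Dr d₀ hD1 hD2
    (fun k => gr 𝒰 C (fun _ => l k)) (ind_U 𝒰 (fun _ => l) (fun _ => hli)) (LI 𝒰 (fun _ => L))
    (LI_one 𝒰 (fun _ => L) (fun _ => hL1)) (col2_U 𝒰 (fun _ => l) (fun _ => hcol2))
    (col3_U 𝒰 (fun _ => L) (fun _ => l) (fun _ => hcol3)) (fun k i => gr 𝒰 κ₀ (fun b => b.1 (k, i)))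
    (fun i => gr 𝒰 C (fun b => pb l β b.1 i))
    (fun q i => der_pb 𝒰 l β _ (Dr q) (d₀ q) (hD1 q) (hD3 q) i) hind T₀ hT₀r _ ?_ hS
  rintro P ⟨j, rfl⟩
  refine ⟨fun a ha γ => ?_, fun hPL a _ => ?_⟩
  · -- the coefficients
    have ha' : ∀ i, DD Dr a (algebraMap (UP 𝒰 κ₀) (UP 𝒰 C) (gr 𝒰 κ₀ (fun b => z b i))) = 0 := by
      intro i
      rw [DD_apply]
      simp only [hD1, ← map_mul, ← map_sum]
      have h1 := congrFun (LinearMap.mem_ker.mp ha) i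
      rw [dvl_apply] at h1
      rw [h1]
      exact map_zero _
    have hc : ∀ x : C, DD Dr a (gr 𝒰 C (fun _ => x)) = 0 := by
      intro x
      rw [DD_apply]
      refine Finset.sum_eq_zero (fun q _ => ?_)
      have h1 : Dr q (gr 𝒰 C (fun _ => x)) = 0 := hD3 q x
      rw [h1, mul_zero]
    rw [coeff_sp, coeff_FU]
    split_ifs
    · rw [chain2 (DD Dr a) _ (box τ d) _ (support_sum_mon _ _)]
      simp only [ha', mul_zero, Finset.sum_const_zero, add_zero]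
      refine Finset.sum_eq_zero (fun δ hδ => ?_)
      rw [coeff_sum_mon, if_pos hδ, hc, mul_zero]
    · rw [map_zero, map_zero]
  · -- the value
    obtain ⟨V0, hV0, h1V0, hyV0⟩ := pb_fin (κ₀ := κ₀) (κ := κ) l β
    obtain ⟨V, hV, hVF⟩ := value_finA V0 h1V0 (F j) (hF j)
    have hval : eval (fun i => gr 𝒰 C (fun b => pb l β b.1 i)) (sp (fun i => algebraMap (UP 𝒰 κ₀) (UP 𝒰 C)
        (gr 𝒰 κ₀ (fun b => z b i))) (FU 𝒰 d (fun _ => F j))) =
        gr 𝒰 C (fun b => eval (pb l β b.1) (sp (fun i => algebraMap κ₀ C (z b i)) (F j))) := by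
      simp only [algebraMap_gr]
      exact eval_FU 𝒰 (fun _ => hF j) (fun i b => pb l β b.1 i) (fun i b => algebraMap κ₀ C (z b i))
    rw [hval] at hPL ⊢
    have h1 := mem_fin 𝒰 (L := L) (V := V) (f := fun b => eval (pb l β b.1)
      (sp (fun i => algebraMap κ₀ C (z b i)) (F j))) (fun b => by
        have h2 := hVF (pb l β b.1) (hyV0 b.1) (fun i => algebraMap κ₀ κ (z b i))
        simp only [← IsScalarTower.algebraMap_apply] at h2
        exact h2) hPL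
    rw [DD_apply]
    refine Submodule.sum_mem _ (fun q _ => ?_)
    have h3 := LU_le_LI 𝒰 (inf_le_right : V ⊓ L ≤ L) (der_LU 𝒰 (Dr q) (hD2 q) (hD3 q) (V ⊓ L) h1)
    rw [IsScalarTower.algebraMap_apply (UP 𝒰 κ₀) (UP 𝒰 κ) (UP 𝒰 C), ← Algebra.smul_def]
    exact Submodule.smul_mem _ _ h3

/-- the data of the theorem -/
structure DataA (κ₀ κ C : Type) [Field κ₀] [Field κ] [Field C] [Algebra κ₀ C] [Algebra κ C] (s n τ d c : ℕ)
    (J : Type) where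
  /-- the space of the values -/
  L : Submodule κ C
  hL1 : ∀ z : κ, algebraMap κ C z ∈ L
  /-- the logarithms -/
  l : Fin s → C
  hli : ∀ (c₀ : κ) (c : Fin s → κ), ∑ k, l k * algebraMap κ C (c k) = algebraMap κ C c₀ → c₀ = 0
  /-- the polynomials -/
  F : J → MvPolynomial (Fin n) (MvPolynomial (Fin τ) C)
  hF : ∀ j, Bd d (F j)
  /-- the shift -/
  β : Fin n → C
  hcol2 : Col2 κ₀ κ C s n 0 c l
  hcol3 : Col3 κ₀ κ C L s n 0 c l

/-- **Dimension, uniform.** -/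
theorem dim_unifA (κ₀ κ C : Type) [Field κ₀] [CharZero κ₀] [Field κ] [CharZero κ] [Field C] [CharZero C]
    [Algebra κ₀ κ] [Algebra κ₀ C] [Algebra κ C] [IsScalarTower κ₀ κ C] (s n τ d c e S : ℕ) (J : Type) [Finite J]
    [Nonempty J] (hS : s * e + n * (c + n) + τ < S) :
    ∃ E : ℕ, ∀ (dt : DataA κ₀ κ C s n τ d c J) (φ : Fin S → Fin s × Fin n → κ₀),
      ∃ Δ : MvPolynomial (Fin S) κ₀, Δ ≠ 0 ∧ Δ.totalDegree ≤ E ∧
      ∀ b ∈ {b : Fin s × Fin n → κ₀ | ∃ t : Fin τ → κ₀, ¬ Good κ₀ κ dt.L (Fam dt.F t) (e + 1) (pb dt.l dt.β b)},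
        eval (fun q => ∑ x, φ q x * b x) Δ = 0 := by
  classical
  refine unif_gen κ₀ S (fun dt : DataA κ₀ κ C s n τ d c J =>
    {b : Fin s × Fin n → κ₀ | ∃ t : Fin τ → κ₀, ¬ Good κ₀ κ dt.L (Fam dt.F t) (e + 1) (pb dt.l dt.β b)}) (fun 𝒰 dt φ => ?_)
  have hch1 : CharZero (UP 𝒰 κ₀) := charZero_UP 𝒰
  have hch2 : CharZero (UP 𝒰 C) := charZero_UP 𝒰
  have hch3 : CharZero (UP 𝒰 κ) := charZero_UP 𝒰
  have htow : IsScalarTower (UP 𝒰 κ₀) (UP 𝒰 κ) (UP 𝒰 C) := tower_U 𝒰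
  obtain ⟨Δ, hΔ0, hΔ⟩ := dim_fixedA (κ₀ := UP 𝒰 κ₀) (κ := UP 𝒰 κ) (C := UP 𝒰 C) (LI 𝒰 (fun t => (dt t).L))
    (LI_one 𝒰 _ (fun t => (dt t).hL1)) (fun k => gr 𝒰 C (fun t => (dt t).l k))
    (ind_U 𝒰 (fun t => (dt t).l) (fun t => (dt t).hli)) (col2_U 𝒰 (fun t => (dt t).l) (fun t => (dt t).hcol2))
    (col3_U 𝒰 (fun t => (dt t).L) (fun t => (dt t).l) (fun t => (dt t).hcol3)) (fun i => gr 𝒰 C (fun t => (dt t).β i))
    (fun j => FU 𝒰 d (fun t => (dt t).F j)) (fun j => FU_Bd 𝒰 d _) hS (fun q x => gr 𝒰 κ₀ (fun t => φ t q x))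
  refine ⟨Δ, hΔ0, fun b hb => hΔ (fun x => gr 𝒰 κ₀ (fun t => b t x)) ?_⟩
  choose z hz using hb
  refine ⟨fun i => gr 𝒰 κ₀ (fun t => z t i), ?_⟩
  have hpt : pb (fun k => gr 𝒰 C (fun t => (dt t).l k)) (fun i => gr 𝒰 C (fun t => (dt t).β i))
      (fun x => gr 𝒰 κ₀ (fun t => b t x)) = fun i => gr 𝒰 C (fun t => pb (dt t).l (dt t).β (b t) i) := by
    funext i
    exact (pb_U 𝒰 (fun t => (dt t).l) (fun t => (dt t).β) b i).symm
  rw [hpt]
  exact notGood_U 𝒰 (κ₀ := κ₀) (κ := κ) (f := e + 1) (fun t => (dt t).L) (fun t => Fam (dt t).F (z t))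
    (Fam (fun j => FU 𝒰 d (fun t => (dt t).F j)) (fun i => gr 𝒰 κ₀ (fun t => z t i)))
    (fun _ => ⟨_, Classical.arbitrary J, rfl⟩)
    (fun P hP => Fam_U 𝒰 (fun t => (dt t).F) (fun t => (dt t).hF) z P hP)
    (fun t => pb (dt t).l (dt t).β (b t)) (fun t => hz t)

/-- **Counting.** -/
theorem countA (κ₀ κ C : Type) [Field κ₀] [CharZero κ₀] [Field κ] [CharZero κ] [Field C] [CharZero C]
    [Algebra κ₀ κ] [Algebra κ₀ C] [Algebra κ C] [IsScalarTower κ₀ κ C] (s n τ d c e : ℕ) (J : Type) [Finite J]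
    [Nonempty J] : ∃ K : ℕ, ∀ (dt : DataA κ₀ κ C s n τ d c J) (M : ℕ), 1 ≤ M →
      Set.ncard {x : Fin s → Fin n → ℤ | (∀ k i, |x k i| ≤ M) ∧ ∃ t : Fin τ → κ₀,
        ¬ Good κ₀ κ dt.L (Fam dt.F t) (e + 1) (fun i => dt.β i + ∑ k, dt.l k * (x k i : C))} ≤
        K * M ^ (s * e + n * (c + n) + τ) := by
  obtain ⟨K, hK⟩ := count_gen κ₀ (s * e + n * (c + n) + τ) s n (fun dt : DataA κ₀ κ C s n τ d c J =>
    {b : Fin s × Fin n → κ₀ | ∃ t : Fin τ → κ₀, ¬ Good κ₀ κ dt.L (Fam dt.F t) (e + 1) (pb dt.l dt.β b)})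
    (dim_unifA κ₀ κ C s n τ d c e (s * e + n * (c + n) + τ + 1) J (Nat.lt_succ_self _))
  refine ⟨K, fun dt M hM => ?_⟩
  have h1 := hK dt M hM
  have h3 : ∀ x : Fin s → Fin n → ℤ, pb dt.l dt.β (fun y : Fin s × Fin n => (x y.1 y.2 : κ₀)) =
      fun i => dt.β i + ∑ k, dt.l k * (x k i : C) := by
    intro x
    funext i
    simp only [pb, map_intCast]
  simp only [Set.mem_ofPred_eq, h3] at h1
  exact h1

end Pool.Agent.D0H4.Lv
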